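import Pool.Agent.Lib_helper60.MonPP.Defs

/-!
# Alternation of set quantifiers, and comparison of numbers of witnesses

Definitions used in the statement of the hand-in.
-/

namespace Pool.Agent.Lib_helper60.MonPH

open Pool.Agent.Lib_helper60.MonPP

/-- `exSets l φ`: the last `l` set variables of `φ` are quantified existentially. -/
def exBlock {U B : Type} {k : ℕ} : (l : ℕ) → Fm U B 0 (k + l) → Fm U B 0 k
  | 0, φ => φ
  | l + 1, φ => exBlock l (.exSet (k := k + l) φ)

/-- `Alt j φ`: at most `j` nested blocks of set quantifiers in front of first-order formulas,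
with Boolean combinations at each level; in particular all formulas of the monadic classes
`Σ_j` and `Π_j` are in `Alt j`. -/
inductive Alt {U B : Type} : ℕ → {k : ℕ} → Fm U B 0 k → Prop
  | fo {k : ℕ} (φ : Fm U B 0 k) : φ.IsFO → Alt 0 φ
  | neg {j k : ℕ} (φ : Fm U B 0 k) : Alt j φ → Alt j φ.neg
  | and {j k : ℕ} (φ ψ : Fm U B 0 k) : Alt j φ → Alt j ψ → Alt j (φ.and ψ)
  | ex {j k : ℕ} (l : ℕ) (φ : Fm U B 0 (k + l)) : Alt j φ → Alt (j + 1) (exBlock l φ)
  | up {j k : ℕ} (φ : Fm U B 0 k) : Alt j φ → Alt (j + 1) φ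

/-- Monadic PP over level `j`: 'more tuples of sets satisfy `φ` than `ψ`', with `φ` and `ψ` of
alternation level `j`. For `j = 0` this is monadic PP; in general it is the monadic version of
the class of threshold (PP) quantification over `Σ_j` predicates. -/
def MonPPAlt {U B : Type} (j : ℕ) (K : Prty U B) : Prop :=
  ∃ (k : ℕ) (φ ψ : Fm U B 0 k), Alt j φ ∧ Alt j ψ ∧ ∀ M : Str U B,
    K M ↔ Nat.card {S : Fin k → Set M.A // ψ.Holds M S} <
      Nat.card {S : Fin k → Set M.A // φ.Holds M S}

/-- `Sg m φ`: `φ` is `∃ S₁ ¬ ∃ S₂ ¬ ... ∃ Sₘ ¬ φ₀` with `m` blocks of set quantifiers and with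
`φ₀` first-order, i.e. a monadic `Σ_m` formula in prenex form. -/
inductive Sg {U B : Type} : ℕ → {k : ℕ} → Fm U B 0 k → Prop
  | fo {k : ℕ} (φ : Fm U B 0 k) : φ.IsFO → Sg 0 φ
  | ex {m k : ℕ} (l : ℕ) (φ : Fm U B 0 (k + l)) : Sg m φ → Sg (m + 1) (exBlock l φ.neg)

/-- Monadic `Σ_m`; in particular `m = 1` is monadic NP. -/
def MonSigma {U B : Type} (m : ℕ) (K : Prty U B) : Prop :=
  ∃ φ : Fm U B 0 0, Sg m φ ∧ ∀ M : Str U B, K M ↔ φ.Holds M Fin.elim0

/-- Monadic `Π_m`: the complement is monadic `Σ_m`; in particular `m = 1` is monadic coNP. -/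
def MonPi {U B : Type} (m : ℕ) (K : Prty U B) : Prop := MonSigma m (fun M => ¬ K M)

/-- Monadic PSPACE: 'in the graph on the `k`-tuples of sets whose edges are the pairs satisfying
`step`, a tuple satisfying `fin` is reachable from a tuple satisfying `ini`', with `ini`, `fin`
and `step` first-order. (With relations of all arities in place of sets this is PSPACE: a
configuration is a tuple of relations.) -/
def MonPSPACE {U B : Type} (K : Prty U B) : Prop :=
  ∃ (k : ℕ) (ini fin : Fm U B 0 k) (step : Fm U B 0 (k + k)),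
    ini.IsFO ∧ fin.IsFO ∧ step.IsFO ∧ ∀ M : Str U B, K M ↔
      ∃ S T : Fin k → Set M.A, ini.Holds M S ∧ fin.Holds M T ∧
        Relation.ReflTransGen (fun S T => step.Holds M (Fin.append S T)) S T

/-- The expansion of `M` by one more binary relation. -/
def expand {U B : Type} (M : Str U B) (lt : M.A → M.A → Prop) : Str U (Option B) where
  A := M.A
  fin := M.fin
  ne := M.ne
  un := M.un
  bin := fun o => o.elim lt M.bin

/-- `WithOrder C K`: `K` belongs to the class `C` with a built-in linear order, i.e. for some `K'`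
in `C` (over the vocabulary with one more binary symbol), for every `M` and for every linear order
`lt` of its universe, `K` holds in `M` if and only if `K'` holds in `(M, lt)`. -/
def WithOrder {U B : Type} (C : Prty U (Option B) → Prop) (K : Prty U B) : Prop :=
  ∃ K' : Prty U (Option B), C K' ∧ ∀ (M : Str U B) (lt : M.A → M.A → Prop),
    IsStrictTotalOrder M.A lt → (K M ↔ K' (expand M lt))

end Pool.Agent.Lib_helper60.MonPH
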