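import Mathlib

/-!
# The lexicographic order on predicates over a finite strict total order, and its successor
-/

namespace Pool.Agent.Lib_helper60.MonPH

section lex

variable {X : Type} (r : X → X → Prop)

/-- lexicographic order -/
def LLt (P P' : X → Prop) : Prop := ∃ x, (¬ P x ∧ P' x) ∧ ∀ y, r y x → (P y ↔ P' y)

/-- lexicographic successor -/
def SSc (P P' : X → Prop) : Prop :=
  ∃ x, (¬ P x ∧ P' x) ∧ (∀ y, r y x → (P y ↔ P' y)) ∧ ∀ y, r x y → P y ∧ ¬ P' y

variable {r} {P P' R : X → Prop}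

lemma SSc.lt (h : SSc r P P') : LLt r P P' := by
  obtain ⟨x, h1, h2, _⟩ := h
  exact ⟨x, h1, h2⟩

variable [hr : IsStrictTotalOrder X r]

lemma tri (r : X → X → Prop) [hr : IsStrictTotalOrder X r] (x y : X) :
    r x y ∨ x = y ∨ r y x := by
  by_contra h
  push Not at h
  exact h.2.1 (hr.toTrichotomous.trichotomous x y h.1 h.2.2)

lemma rtrans {x y z : X} (h1 : r x y) (h2 : r y z) : r x z :=
  hr.toIsStrictOrder.toIsTrans.trans _ _ _ h1 h2

lemma rirr (r : X → X → Prop) [hr : IsStrictTotalOrder X r] (x : X) : ¬ r x x :=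
  hr.toIsStrictOrder.toIrrefl.irrefl x

omit hr in
lemma LLt.irrefl : ¬ LLt r P P := fun ⟨_, h, _⟩ => h.1 h.2

lemma LLt.trans (h1 : LLt r P P') (h2 : LLt r P' R) : LLt r P R := by
  obtain ⟨x, ⟨a1, a2⟩, a3⟩ := h1
  obtain ⟨y, ⟨b1, b2⟩, b3⟩ := h2
  rcases tri r x y with h | h | h
  · exact ⟨x, ⟨a1, (b3 x h).1 a2⟩, fun z hz => (a3 z hz).trans (b3 z (rtrans hz h))⟩
  · subst h
    exact absurd a2 b1
  · exact ⟨y, ⟨fun hp => b1 ((a3 y h).1 hp), b2⟩,
      fun z hz => (a3 z (rtrans hz h)).trans (b3 z hz)⟩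

/-- a least element -/
lemma exists_least [Finite X] {S : X → Prop} (hS : ∃ x, S x) :
    ∃ x, S x ∧ ∀ y, r y x → ¬ S y := by
  have : IsTrans X r := hr.toIsStrictOrder.toIsTrans
  have : Std.Irrefl r := hr.toIsStrictOrder.toIrrefl
  have hw : WellFounded r := Finite.wellFounded_of_trans_of_irrefl r
  obtain ⟨x, hx1, hx2⟩ := hw.has_min {x | S x} hS
  exact ⟨x, hx1, fun y hy hSy => hx2 y hSy hy⟩

/-- a greatest element -/
lemma exists_greatest [Finite X] {S : X → Prop} (hS : ∃ x, S x) :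
    ∃ x, S x ∧ ∀ y, r x y → ¬ S y := by
  have : IsTrans X (Function.swap r) := ⟨fun a b c (h1 : r b a) (h2 : r c b) => (rtrans h2 h1 : r c a)⟩
  have : Std.Irrefl (Function.swap r) := ⟨fun x => rirr r x⟩
  have hw : WellFounded (Function.swap r) := Finite.wellFounded_of_trans_of_irrefl _
  obtain ⟨x, hx1, hx2⟩ := hw.has_min {x | S x} hS
  exact ⟨x, hx1, fun y hy hSy => hx2 y hSy hy⟩

lemma LLt.total [Finite X] (P P' : X → Prop) : P = P' ∨ LLt r P P' ∨ LLt r P' P := by
  by_cases h : ∃ x, ¬ (P x ↔ P' x)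
  · right
    obtain ⟨x, h1, h2⟩ := exists_least (r := r) h
    have h3 : ∀ y, r y x → (P y ↔ P' y) := fun y hy => not_not.1 (h2 y hy)
    by_cases hp : P x
    · exact Or.inr ⟨x, ⟨fun hp' => h1 (iff_of_true hp hp'), hp⟩, fun y hy => (h3 y hy).symm⟩
    · refine Or.inl ⟨x, ⟨hp, ?_⟩, h3⟩
      by_contra hp'
      exact h1 (iff_of_false hp hp')
  · left
    push Not at h
    funext x
    exact propext (h x)

/-- no predicate strictly between -/
lemma SSc.between [Finite X] (h : SSc r P P') (h1 : LLt r R P') : R = P ∨ LLt r R P := by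
  rcases LLt.total (r := r) R P with h2 | h2 | h2
  · exact Or.inl h2
  · exact Or.inr h2
  · exfalso
    obtain ⟨x, ⟨a1, a2⟩, a3, a4⟩ := h
    obtain ⟨y, ⟨b1, b2⟩, b3⟩ := h1
    obtain ⟨w, ⟨c1, c2⟩, c3⟩ := h2
    rcases tri r x w with hxw | hxw | hxw
    · exact c1 (a4 w hxw).1
    · subst hxw
      rcases tri r x y with hxy | hxy | hxy
      · exact (a4 y hxy).2 b2
      · subst hxy; exact b1 c2
      · exact b1 ((c3 y hxy).1 ((a3 y hxy).2 b2))
    · rcases tri r y w with hyw | hyw | hyw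
      · exact b1 ((c3 y hyw).1 ((a3 y (rtrans hyw hxw)).2 b2))
      · subst hyw; exact b1 c2
      · exact c1 ((a3 w hxw).2 ((b3 w hyw).1 c2))

lemma exists_SSc [Finite X] (h : ∃ x, ¬ P x) : ∃ P', SSc r P P' := by
  obtain ⟨x, h1, h2⟩ := exists_greatest (r := r) h
  refine ⟨fun y => (r y x ∧ P y) ∨ y = x, x, ⟨h1, Or.inr rfl⟩, fun y hy => ?_, fun y hy => ?_⟩
  · constructor
    · intro hp; exact Or.inl ⟨hy, hp⟩
    · rintro (hp | hp)
      · exact hp.2
      · rw [hp] at hy; exact absurd hy (rirr r x)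
  · refine ⟨not_not.1 (h2 y hy), ?_⟩
    rintro (hp | hp)
    · exact rirr r x (rtrans hy hp.1)
    · rw [hp] at hy; exact rirr r x hy

lemma exists_SSc_pred [Finite X] (h : ∃ x, P x) : ∃ P0, SSc r P0 P := by
  obtain ⟨x, h1, h2⟩ := exists_greatest (r := r) h
  refine ⟨fun y => (r y x ∧ P y) ∨ r x y, x, ⟨?_, h1⟩, fun y hy => ?_, fun y hy => ?_⟩
  · rintro (hp | hp)
    · exact rirr r x hp.1
    · exact rirr r x hp
  · constructor
    · rintro (hp | hp)
      · exact hp.2
      · exact absurd (rtrans hy hp) (rirr r y)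
    · intro hp; exact Or.inl ⟨hy, hp⟩
  · exact ⟨Or.inr hy, h2 y hy⟩

omit hr in
lemma not_LLt_bot (h : LLt r P (fun _ => False)) : False := by
  obtain ⟨x, h1, _⟩ := h
  exact h1.2

omit hr in
lemma not_top_LLt (h : LLt r (fun _ => True) P) : False := by
  obtain ⟨x, h1, _⟩ := h
  exact h1.1 trivial

end lex

section chain

/-- abstract data: a finite set with a strict total order, its successor relation, bottom and
top -/
structure Chain (V : Type) (L S : V → V → Prop) (bot top : V) : Prop where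
  fin : Finite V
  irr : ∀ P, ¬ L P P
  tr : ∀ P Q R, L P Q → L Q R → L P R
  tot : ∀ P Q, P = Q ∨ L P Q ∨ L Q P
  lt : ∀ P Q, S P Q → L P Q
  btw : ∀ P Q R, S P Q → L R Q → R = P ∨ L R P
  suc : ∀ P, P ≠ top → ∃ Q, S P Q
  pre : ∀ P, P ≠ bot → ∃ Q, S Q P
  nbot : ∀ P, ¬ L P bot
  ntop : ∀ P, ¬ L top P

variable {V : Type} {L S : V → V → Prop} {bot top : V}

/-- induction along the chain -/
lemma Chain.induct (hc : Chain V L S bot top) {C : V → Prop} (h0 : C bot)
    (h1 : ∀ P Q, S P Q → C P → C Q) : ∀ P, C P := by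
  have := hc.fin
  have : IsTrans V L := ⟨hc.tr⟩
  have : Std.Irrefl L := ⟨hc.irr⟩
  have hw : WellFounded L := Finite.wellFounded_of_trans_of_irrefl L
  intro P
  induction P using hw.induction with
  | _ P ih =>
    by_cases hP : P = bot
    · rw [hP]; exact h0
    · obtain ⟨Q, hQ⟩ := hc.pre P hP
      exact h1 Q P hQ (ih Q (hc.lt _ _ hQ))

/-- number of elements with `χ` below `P` -/
noncomputable def below (L : V → V → Prop) (χ : V → Prop) (P : V) : ℕ :=
  Set.ncard {R | χ R ∧ L R P}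

lemma below_bot (hc : Chain V L S bot top) (χ : V → Prop) : below L χ bot = 0 := by
  have : {R | χ R ∧ L R bot} = (∅ : Set V) := by
    ext R
    exact iff_of_false (fun h => hc.nbot R h.2) id
  unfold below
  rw [this, Set.ncard_empty]

lemma below_top (hc : Chain V L S bot top) {χ : V → Prop} (h : ¬ χ top) :
    below L χ top = Set.ncard {R | χ R} := by
  have : {R | χ R ∧ L R top} = {R | χ R} := by
    ext R
    refine ⟨fun h1 => h1.1, fun h1 => ⟨h1, ?_⟩⟩
    rcases hc.tot R top with h2 | h2 | h2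
    · rw [h2] at h1; exact absurd h1 h
    · exact h2
    · exact absurd h2 (hc.ntop R)
  unfold below
  rw [this]

lemma below_suc_neg (hc : Chain V L S bot top) {χ : V → Prop} {P Q : V} (hS : S P Q)
    (h : ¬ χ P) : below L χ Q = below L χ P := by
  have : {R | χ R ∧ L R Q} = {R | χ R ∧ L R P} := by
    ext R
    constructor
    · rintro ⟨h1, h2⟩
      rcases hc.btw P Q R hS h2 with h3 | h3
      · rw [h3] at h1; exact absurd h1 h
      · exact ⟨h1, h3⟩
    · rintro ⟨h1, h2⟩
      exact ⟨h1, hc.tr _ _ _ h2 (hc.lt _ _ hS)⟩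
  unfold below
  rw [this]

lemma below_suc_pos (hc : Chain V L S bot top) {χ : V → Prop} {P Q : V} (hS : S P Q)
    (h : χ P) : below L χ Q = below L χ P + 1 := by
  have := hc.fin
  have h1 : {R | χ R ∧ L R Q} = insert P {R | χ R ∧ L R P} := by
    ext R
    constructor
    · rintro ⟨h1, h2⟩
      rcases hc.btw P Q R hS h2 with h3 | h3
      · exact Or.inl h3
      · exact Or.inr ⟨h1, h3⟩
    · rintro (h1 | ⟨h1, h2⟩)
      · rw [h1]; exact ⟨h, hc.lt _ _ hS⟩
      · exact ⟨h1, hc.tr _ _ _ h2 (hc.lt _ _ hS)⟩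
  unfold below
  rw [h1, Set.ncard_insert_of_notMem (fun h2 => hc.irr P h2.2)]

lemma below_mono (hc : Chain V L S bot top) (χ : V → Prop) {P Q : V} (h : L P Q) :
    below L χ P ≤ below L χ Q := by
  have := hc.fin
  exact Set.ncard_le_ncard (fun R hR => ⟨hR.1, hc.tr _ _ _ hR.2 h⟩) (Set.toFinite _)

lemma below_strict (hc : Chain V L S bot top) {χ : V → Prop} {P Q : V} (h : L P Q) (hP : χ P) :
    below L χ P + 1 ≤ below L χ Q := by
  have := hc.fin
  have h1 : insert P {R | χ R ∧ L R P} ⊆ {R | χ R ∧ L R Q} := by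
    rintro R (h1 | ⟨h1, h2⟩)
    · rw [h1]; exact ⟨hP, h⟩
    · exact ⟨h1, hc.tr _ _ _ h2 h⟩
  have h2 := Set.ncard_le_ncard h1 (Set.toFinite _)
  rw [Set.ncard_insert_of_notMem (fun h2 => hc.irr P h2.2)] at h2
  exact h2

lemma below_le (hc : Chain V L S bot top) {χ : V → Prop} {P : V} (hP : χ P) :
    below L χ P + 1 ≤ Set.ncard {R | χ R} := by
  have := hc.fin
  have h1 : insert P {R | χ R ∧ L R P} ⊆ {R | χ R} := by
    rintro R (h1 | ⟨h1, h2⟩)
    · rw [h1]; exact hP
    · exact h1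
  have h2 := Set.ncard_le_ncard h1 (Set.toFinite _)
  rw [Set.ncard_insert_of_notMem (fun h2 => hc.irr P h2.2)] at h2
  exact h2

/-- if not all elements with `χ` are below `Q`, there is a least one that is not -/
lemma exists_next (hc : Chain V L S bot top) {χ : V → Prop} {Q : V}
    (h : below L χ Q < Set.ncard {R | χ R}) :
    ∃ R, χ R ∧ (R = Q ∨ L Q R) ∧ below L χ R = below L χ Q := by
  have := hc.fin
  have : IsTrans V L := ⟨hc.tr⟩
  have : Std.Irrefl L := ⟨hc.irr⟩
  have hw : WellFounded L := Finite.wellFounded_of_trans_of_irrefl L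
  have hne : ∃ R, χ R ∧ ¬ L R Q := by
    by_contra h1
    push Not at h1
    have h2 : {R | χ R ∧ L R Q} = {R | χ R} := by
      ext R
      exact ⟨fun h3 => h3.1, fun h3 => ⟨h3, h1 R h3⟩⟩
    unfold below at h
    rw [h2] at h
    exact lt_irrefl _ h
  obtain ⟨R, ⟨hR1, hR2⟩, hR3⟩ := hw.has_min {R | χ R ∧ ¬ L R Q} hne
  have hRQ : R = Q ∨ L Q R := by
    rcases hc.tot R Q with h1 | h1 | h1
    · exact Or.inl h1
    · exact absurd h1 hR2
    · exact Or.inr h1
  refine ⟨R, hR1, hRQ, ?_⟩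
  have h1 : {R' | χ R' ∧ L R' R} = {R' | χ R' ∧ L R' Q} := by
    ext R'
    constructor
    · rintro ⟨h1, h2⟩
      refine ⟨h1, ?_⟩
      by_contra h3
      exact hR3 R' ⟨h1, h3⟩ h2
    · rintro ⟨h1, h2⟩
      refine ⟨h1, ?_⟩
      rcases hRQ with h3 | h3
      · rw [h3]; exact h2
      · exact hc.tr _ _ _ h2 h3
  unfold below
  rw [h1]

/-- the steps of the comparison: `p.1` runs through the whole chain, `p.2` only advances; for
every element with `ψ` passed by `p.1` an element with `φ` has to be passed by `p.2` -/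
def stA (L S : V → V → Prop) (φ ψ : V → Prop) (p q : V × V) : Prop :=
  (S p.1 q.1 ∧ ((¬ ψ p.1 ∧ q.2 = p.2) ∨ (ψ p.1 ∧ φ p.2 ∧ L p.2 q.2))) ∨
    (q.1 = p.1 ∧ L p.2 q.2)

open Relation in
theorem reach_compare (hc : Chain V L S bot top) {φ ψ : V → Prop} (hφ : ¬ φ top)
    (hψ : ¬ ψ top) :
    (∃ Q, φ Q ∧ ReflTransGen (stA L S φ ψ) (bot, bot) (top, Q)) ↔
      Set.ncard {P | ψ P} < Set.ncard {P | φ P} := by
  constructor
  · rintro ⟨Q, hQ, hr⟩
    have hinv : ∀ q : V × V, ReflTransGen (stA L S φ ψ) (bot, bot) q →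
        below L ψ q.1 ≤ below L φ q.2 := by
      intro q hq
      induction hq with
      | refl => rw [below_bot hc, below_bot hc]
      | @tail q q' _ hs ih =>
        rcases hs with ⟨h1, ⟨h2, h3⟩ | ⟨h2, h3, h4⟩⟩ | ⟨h1, h2⟩
        · rw [below_suc_neg hc h1 h2, h3]; exact ih
        · rw [below_suc_pos hc h1 h2]
          exact (Nat.add_le_add_right ih 1).trans (below_strict hc h4 h3)
        · rw [h1]; exact ih.trans (below_mono hc φ h2)
    have h1 := hinv _ hr
    rw [below_top hc hψ] at h1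
    have h2 := below_le hc hQ
    have h1' : Set.ncard {P | ψ P} ≤ below L φ Q := h1
    omega
  · intro hlt
    have key : ∀ P, ∃ Q, ReflTransGen (stA L S φ ψ) (bot, bot) (P, Q) ∧
        below L φ Q = below L ψ P := by
      refine hc.induct ?_ ?_
      · exact ⟨bot, .refl, by rw [below_bot hc, below_bot hc]⟩
      · rintro P P' hS ⟨Q, hQ1, hQ2⟩
        by_cases hP : ψ P
        · have h1 := below_le hc hP
          obtain ⟨R, hR1, hR2, hR3⟩ := exists_next (χ := φ) (Q := Q) hc (by omega)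
          have hRt : R ≠ top := fun e => hφ (e ▸ hR1)
          obtain ⟨Q', hQ'⟩ := hc.suc R hRt
          refine ⟨Q', ?_, ?_⟩
          · have h2 : ReflTransGen (stA L S φ ψ) (bot, bot) (P, R) := by
              rcases hR2 with h3 | h3
              · rw [h3]; exact hQ1
              · exact hQ1.tail (Or.inr ⟨rfl, h3⟩)
            exact h2.tail (Or.inl ⟨hS, Or.inr ⟨hP, hR1, hc.lt _ _ hQ'⟩⟩)
          · rw [below_suc_pos hc hQ' hR1, below_suc_pos hc hS hP, hR3, hQ2]
        · exact ⟨Q, hQ1.tail (Or.inl ⟨hS, Or.inl ⟨hP, rfl⟩⟩),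
            by rw [below_suc_neg hc hS hP]; exact hQ2⟩
    obtain ⟨Q, hQ1, hQ2⟩ := key top
    rw [below_top hc hψ] at hQ2
    obtain ⟨R, hR1, hR2, _⟩ := exists_next (χ := φ) (Q := Q) hc (by omega)
    refine ⟨R, hR1, ?_⟩
    rcases hR2 with h3 | h3
    · rw [h3]; exact hQ1
    · exact hQ1.tail (Or.inr ⟨rfl, h3⟩)

/-- the steps of the run through all elements -/
def stB {D : Type} (S : V → V → Prop) (I F : V → D → Prop) (St : V → D → D → Prop)
    (p q : V × D) : Prop :=
  (q.1 = p.1 ∧ St p.1 p.2 q.2) ∨ (S p.1 q.1 ∧ F p.1 p.2 ∧ I q.1 q.2)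

open Relation in
theorem reach_forall (hc : Chain V L S bot top) {D : Type} (I F : V → D → Prop)
    (St : V → D → D → Prop) :
    (∃ C E, I bot C ∧ F top E ∧ ReflTransGen (stB S I F St) (bot, C) (top, E)) ↔
      ∀ T, ∃ C E, I T C ∧ F T E ∧ ReflTransGen (St T) C E := by
  constructor
  · rintro ⟨C, E, hI, hF, hr⟩
    have hinv : ∀ q : V × D, ReflTransGen (stB S I F St) (bot, C) q →
        (∀ T, L T q.1 → ∃ C E, I T C ∧ F T E ∧ ReflTransGen (St T) C E) ∧
          ∃ C1, I q.1 C1 ∧ ReflTransGen (St q.1) C1 q.2 := by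
      intro q hq
      induction hq with
      | refl => exact ⟨fun T hT => absurd hT (hc.nbot T), C, hI, .refl⟩
      | @tail q q' _ hs ih =>
        obtain ⟨ih1, C1, ih2, ih3⟩ := ih
        rcases hs with ⟨h1, h2⟩ | ⟨h1, h2, h3⟩
        · refine ⟨by rw [h1]; exact ih1, C1, by rw [h1]; exact ih2, ?_⟩
          rw [h1]
          exact ih3.tail h2
        · refine ⟨fun T hT => ?_, q'.2, h3, .refl⟩
          rcases hc.btw _ _ T h1 hT with h4 | h4
          · rw [h4]; exact ⟨C1, q.2, ih2, h2, ih3⟩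
          · exact ih1 T h4
    obtain ⟨h1, C1, h2, h3⟩ := hinv _ hr
    intro T
    rcases hc.tot T top with h4 | h4 | h4
    · rw [h4]; exact ⟨C1, E, h2, hF, h3⟩
    · exact h1 T h4
    · exact absurd h4 (hc.ntop T)
  · intro hall
    have lift : ∀ (T : V) (C E : D), ReflTransGen (St T) C E →
        ReflTransGen (stB S I F St) (T, C) (T, E) := by
      intro T C E hr
      induction hr with
      | refl => exact .refl
      | tail _ hs ih => exact ih.tail (Or.inl ⟨rfl, hs⟩)
    have key : ∀ T, ∃ C E, I bot C ∧ F T E ∧ ReflTransGen (stB S I F St) (bot, C) (T, E) := by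
      refine hc.induct ?_ ?_
      · obtain ⟨C, E, h1, h2, h3⟩ := hall bot
        exact ⟨C, E, h1, h2, lift _ _ _ h3⟩
      · rintro T T' hS ⟨C, E, h1, h2, h3⟩
        obtain ⟨C', E', h4, h5, h6⟩ := hall T'
        exact ⟨C, E', h1, h5, (h3.tail (Or.inr ⟨hS, h2, h4⟩)).trans (lift _ _ _ h6)⟩
    exact key top

end chain

/-- the chain of all predicates over a finite strict total order -/
theorem lex_chain {X : Type} [Finite X] (r : X → X → Prop) [IsStrictTotalOrder X r] :
    Chain (X → Prop) (LLt r) (SSc r) (fun _ => False) (fun _ => True) where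
  fin := inferInstance
  irr _ := LLt.irrefl
  tr _ _ _ := LLt.trans
  tot := LLt.total
  lt _ _ := SSc.lt
  btw _ _ _ := SSc.between
  suc P hP := exists_SSc (by
    by_contra h
    push Not at h
    exact hP (funext fun x => propext (iff_of_true (h x) trivial)))
  pre P hP := exists_SSc_pred (by
    by_contra h
    push Not at h
    exact hP (funext fun x => propext (iff_of_false (h x) id)))
  nbot _ h := not_LLt_bot h
  ntop _ h := not_top_LLt h

end Pool.Agent.Lib_helper60.MonPH
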