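import Pool.Agent.Lib_helper60.MonPH.Incl2
import Pool.Agent.Lib_helper60.MonPH.LexSucc

/-!
# First-order definability of relations between sets indexed by a finite type
-/

namespace Pool.Agent.Lib_helper60.MonPH

open Pool.Agent.Lib_helper60.MonPP

variable {U B : Type}

/-- first-order definable relations between `n` elements and sets indexed by `ι` -/
def DI (n : ℕ) (ι : Type) [Finite ι]
    (R : (M : Str U B) → (Fin n → M.A) → (ι → Set M.A) → Prop) : Prop :=
  ∃ φ : Fm U B n (Nat.card ι), φ.IsFO ∧ ∀ (M : Str U B) (v : Fin n → M.A) (S : ι → Set M.A),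
    φ.Sat M v (S ∘ (Finite.equivFin ι).symm) ↔ R M v S

variable {n : ℕ} {ι κ : Type} [Finite ι] [Finite κ]
  {R R' : (M : Str U B) → (Fin n → M.A) → (ι → Set M.A) → Prop}

lemma DI.of_iff (h : DI n ι R) (hR : ∀ M v S, R M v S ↔ R' M v S) : DI n ι R' := by
  obtain ⟨φ, h1, hφ⟩ := h
  exact ⟨φ, h1, fun M v S => (hφ M v S).trans (hR M v S)⟩

lemma DI.neg (h : DI n ι R) : DI n ι (fun M v S => ¬ R M v S) := by
  obtain ⟨φ, h1, hφ⟩ := h
  exact ⟨.neg φ, h1, fun M v S => not_congr (hφ M v S)⟩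

lemma DI.and (h : DI n ι R) (h' : DI n ι R') : DI n ι (fun M v S => R M v S ∧ R' M v S) := by
  obtain ⟨φ, h1, hφ⟩ := h
  obtain ⟨ψ, h2, hψ⟩ := h'
  exact ⟨.and φ ψ, ⟨h1, h2⟩, fun M v S => and_congr (hφ M v S) (hψ M v S)⟩

lemma DI.or (h : DI n ι R) (h' : DI n ι R') : DI n ι (fun M v S => R M v S ∨ R' M v S) :=
  ((h.neg.and h'.neg).neg).of_iff fun M v S => by tauto

lemma DI.imp (h : DI n ι R) (h' : DI n ι R') : DI n ι (fun M v S => R M v S → R' M v S) :=
  (h.and h'.neg).neg.of_iff fun M v S => by tauto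

lemma DI.iff (h : DI n ι R) (h' : DI n ι R') : DI n ι (fun M v S => R M v S ↔ R' M v S) :=
  ((h.imp h').and (h'.imp h)).of_iff fun M v S => by tauto

lemma DI.exE {R : (M : Str U B) → (Fin n → M.A) → (ι → Set M.A) → M.A → Prop}
    (h : DI (n + 1) ι (fun M v S => R M (fun i => v i.castSucc) S (v (Fin.last n)))) :
    DI n ι (fun M v S => ∃ a, R M v S a) := by
  obtain ⟨φ, h1, hφ⟩ := h
  refine ⟨.exElt φ, h1, fun M v S => exists_congr fun a => ?_⟩
  rw [hφ]
  simp

lemma DI.allE {R : (M : Str U B) → (Fin n → M.A) → (ι → Set M.A) → M.A → Prop}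
    (h : DI (n + 1) ι (fun M v S => R M (fun i => v i.castSucc) S (v (Fin.last n)))) :
    DI n ι (fun M v S => ∀ a, R M v S a) :=
  ((DI.exE (R := fun M v S a => ¬ R M v S a) h.neg).neg).of_iff fun M v S => by
    push Not; exact Iff.rfl

lemma DI.un (p : U) (i : Fin n) : DI n ι (fun (M : Str U B) v _ => v i ∈ M.un p) :=
  ⟨.un p i, trivial, fun _ _ _ => Iff.rfl⟩

lemma DI.bin (r : B) (i j : Fin n) : DI n ι (fun (M : Str U B) v _ => M.bin r (v i) (v j)) :=
  ⟨.bin r i j, trivial, fun _ _ _ => Iff.rfl⟩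

lemma DI.eq (i j : Fin n) : DI n ι (fun (M : Str U B) v _ => v i = v j) :=
  ⟨.eq i j, trivial, fun _ _ _ => Iff.rfl⟩

lemma DI.mem (i : Fin n) (X : ι) : DI n ι (fun (M : Str U B) v S => v i ∈ S X) := by
  refine ⟨.mem i (Finite.equivFin ι X), trivial, fun M v S => ?_⟩
  show v i ∈ S ((Finite.equivFin ι).symm (Finite.equivFin ι X)) ↔ _
  rw [Equiv.symm_apply_apply]

lemma DI.ren {R : (M : Str U B) → (Fin n → M.A) → (ι → Set M.A) → Prop} (h : DI n ι R)
    (g : ι → κ) : DI n κ (fun M v S => R M v (S ∘ g)) := by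
  obtain ⟨φ, h1, hφ⟩ := h
  refine ⟨φ.ren (fun i => Finite.equivFin κ (g ((Finite.equivFin ι).symm i))),
    Fm.ren_isFO _ h1 _, fun M v S => ?_⟩
  show _ ↔ R M v (S ∘ g)
  rw [Fm.ren_sat, ← hφ]
  have : (S ∘ (Finite.equivFin κ).symm) ∘
      (fun i => Finite.equivFin κ (g ((Finite.equivFin ι).symm i))) =
      (S ∘ g) ∘ (Finite.equivFin ι).symm := by
    funext i
    simp
  rw [this]

lemma DI.const (p : Prop) : DI n ι (fun (_ : Str U B) _ _ => p) := by
  have ht : DI n ι (fun (_ : Str U B) _ _ => True) := by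
    refine ((DI.exE (R := fun (_ : Str U B) _ _ _ => False) ?_).neg).of_iff fun M v S => ?_
    · refine ⟨.neg (.eq (Fin.last n) (Fin.last n)), trivial, fun M v S => ?_⟩
      exact iff_of_false (fun h => h rfl) id
    · simp
  by_cases hp : p
  · exact ht.of_iff fun M v S => iff_of_true trivial hp
  · exact ht.neg.of_iff fun M v S => iff_of_false (fun h => h trivial) hp

lemma DI.allI {J : Type} [Finite J]
    {R : J → (M : Str U B) → (Fin n → M.A) → (ι → Set M.A) → Prop} (h : ∀ j, DI n ι (R j)) :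
    DI n ι (fun M v S => ∀ j, R j M v S) := by
  classical
  have := Fintype.ofFinite J
  have key : ∀ s : Finset J, DI n ι (fun M v S => ∀ j ∈ s, R j M v S) := by
    intro s
    induction s using Finset.induction_on with
    | empty => exact (DI.const True).of_iff fun M v S => by simp
    | insert a s _ ih => exact ((h a).and ih).of_iff fun M v S => by simp
  exact (key Finset.univ).of_iff fun M v S => by simp

lemma DI.exI {J : Type} [Finite J]
    {R : J → (M : Str U B) → (Fin n → M.A) → (ι → Set M.A) → Prop} (h : ∀ j, DI n ι (R j)) :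
    DI n ι (fun M v S => ∃ j, R j M v S) :=
  ((DI.allI (fun j => (h j).neg)).neg).of_iff fun M v S => by push Not; exact Iff.rfl

lemma DI.toFin {k : ℕ} {R : (M : Str U B) → (Fin n → M.A) → (Fin k → Set M.A) → Prop}
    (h : DI n (Fin k) R) : ∃ φ : Fm U B n k, φ.IsFO ∧
      ∀ (M : Str U B) (v : Fin n → M.A) (S : Fin k → Set M.A), φ.Sat M v S ↔ R M v S := by
  obtain ⟨φ, h1, hφ⟩ := h
  refine ⟨φ.ren (Finite.equivFin (Fin k)).symm, Fm.ren_isFO _ h1 _, fun M v S => ?_⟩
  rw [Fm.ren_sat, hφ]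

lemma DI.ofFm {k : ℕ} (φ : Fm U B n k) (hφ : φ.IsFO) :
    DI n (Fin k) (fun (M : Str U B) v S => φ.Sat M v S) := by
  refine ⟨φ.ren (Finite.equivFin (Fin k)), Fm.ren_isFO _ hφ _, fun M v S => ?_⟩
  rw [Fm.ren_sat]
  have : (S ∘ (Finite.equivFin (Fin k)).symm) ∘ (Finite.equivFin (Fin k)) = S := by
    funext i; simp
  rw [this]

section order

/-- the order is a strict total order -/
def Ord (M : Str U (Option B)) : Prop := IsStrictTotalOrder M.A (M.bin none)

/-- the order of the positions -/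
def tlt (M : Str U (Option B)) (l : ℕ) (x y : Fin l × M.A) : Prop :=
  x.1 < y.1 ∨ (x.1 = y.1 ∧ M.bin none x.2 y.2)

lemma tlt_order {M : Str U (Option B)} (hM : Ord M) (l : ℕ) :
    IsStrictTotalOrder (Fin l × M.A) (tlt M l) := by
  have hM' : IsStrictTotalOrder M.A (M.bin none) := hM
  exact
  { irrefl := by
      rintro ⟨i, a⟩ (h | ⟨_, h⟩)
      · exact lt_irrefl i h
      · exact rirr _ a h
    trans := by
      rintro ⟨i, a⟩ ⟨j, b⟩ ⟨k, c⟩ (h | ⟨h1, h2⟩) (h' | ⟨h1', h2'⟩)
      · exact Or.inl (lt_trans h h')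
      · simp only at h h1' h2'
        exact Or.inl (h1' ▸ h)
      · simp only at h1 h2 h'
        exact Or.inl (by rw [h1]; exact h')
      · simp only at h1 h2 h1' h2'
        exact Or.inr ⟨h1.trans h1', rtrans h2 h2'⟩
    trichotomous := by
      rintro ⟨i, a⟩ ⟨j, b⟩ h1 h2
      have h3 : i = j := by
        rcases lt_trichotomy i j with h | h | h
        · exact absurd (Or.inl h) h1
        · exact h
        · exact absurd (Or.inl h) h2
      subst h3
      rcases tri (M.bin none) a b with h | h | h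
      · exact absurd (Or.inr ⟨rfl, h⟩) h1
      · rw [h]
      · exact absurd (Or.inr ⟨rfl, h⟩) h2 }

/-- a tuple of sets as a predicate -/
def unc {A : Type} {l : ℕ} (T : Fin l → Set A) : Fin l × A → Prop := fun x => x.2 ∈ T x.1

/-- lexicographic order of tuples of sets -/
def TL (M : Str U (Option B)) (l : ℕ) (T T' : Fin l → Set M.A) : Prop :=
  LLt (tlt M l) (unc T) (unc T')

/-- successor of tuples of sets -/
def TS (M : Str U (Option B)) (l : ℕ) (T T' : Fin l → Set M.A) : Prop :=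
  SSc (tlt M l) (unc T) (unc T')

/-- tuples of sets and predicates -/
def uncE (A : Type) (l : ℕ) : (Fin l → Set A) ≃ (Fin l × A → Prop) where
  toFun := unc
  invFun P := fun i => {a | P (i, a)}
  left_inv _ := rfl
  right_inv _ := rfl

theorem set_chain {M : Str U (Option B)} (hM : Ord M) (l : ℕ) :
    Chain (Fin l → Set M.A) (TL M l) (TS M l) (fun _ => ∅) (fun _ => Set.univ) := by
  have := M.fin
  have := tlt_order hM l
  have hc := lex_chain (tlt M l)
  exact
  { fin := inferInstance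
    irr := fun P => hc.irr _
    tr := fun P Q R => hc.tr _ _ _
    tot := fun P Q => by
      rcases hc.tot (unc P) (unc Q) with h | h | h
      · exact Or.inl ((uncE M.A l).injective h)
      · exact Or.inr (Or.inl h)
      · exact Or.inr (Or.inr h)
    lt := fun P Q => hc.lt _ _
    btw := fun P Q R h1 h2 => by
      rcases hc.btw _ _ _ h1 h2 with h | h
      · exact Or.inl ((uncE M.A l).injective h)
      · exact Or.inr h
    suc := fun P hP => by
      obtain ⟨Q, hQ⟩ := hc.suc (unc P) (fun h => hP ((uncE M.A l).injective (h.trans rfl)))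
      exact ⟨(uncE M.A l).symm Q, hQ⟩
    pre := fun P hP => by
      obtain ⟨Q, hQ⟩ := hc.pre (unc P) (fun h => hP ((uncE M.A l).injective (h.trans rfl)))
      exact ⟨(uncE M.A l).symm Q, hQ⟩
    nbot := fun P h => hc.nbot _ h
    ntop := fun P h => hc.ntop _ h }

lemma DI_TL {l : ℕ} (f g : Fin l → ι) :
    DI n ι (fun (M : Str U (Option B)) _ S => TL M l (S ∘ f) (S ∘ g)) := by
  have h : DI n ι (fun (M : Str U (Option B)) _ S => ∃ i : Fin l, ∃ a : M.A,
      (¬ a ∈ S (f i) ∧ a ∈ S (g i)) ∧ ∀ j : Fin l, ∀ b : M.A,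
        (j < i ∨ (j = i ∧ M.bin none b a)) → (b ∈ S (f j) ↔ b ∈ S (g j))) := by
    refine DI.exI fun i => ?_
    refine DI.exE (R := fun (M : Str U (Option B)) _ S a => (¬ a ∈ S (f i) ∧ a ∈ S (g i)) ∧
      ∀ j : Fin l, ∀ b : M.A, (j < i ∨ (j = i ∧ M.bin none b a)) →
        (b ∈ S (f j) ↔ b ∈ S (g j))) ?_
    refine ((DI.mem (Fin.last n) (f i)).neg.and (DI.mem (Fin.last n) (g i))).and ?_
    refine DI.allI fun j => ?_
    refine DI.allE (R := fun (M : Str U (Option B)) v S b =>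
      (j < i ∨ (j = i ∧ M.bin none b (v (Fin.last n)))) → (b ∈ S (f j) ↔ b ∈ S (g j))) ?_
    exact ((DI.const (j < i)).or ((DI.const (j = i)).and
      (DI.bin none (Fin.last (n + 1)) (Fin.last n).castSucc))).imp
      ((DI.mem (Fin.last (n + 1)) (f j)).iff (DI.mem (Fin.last (n + 1)) (g j)))
  refine h.of_iff fun M v S => ?_
  constructor
  · rintro ⟨i, a, h1, h2⟩
    exact ⟨(i, a), h1, fun y hy => h2 y.1 y.2 hy⟩
  · rintro ⟨⟨i, a⟩, h1, h2⟩
    exact ⟨i, a, h1, fun j b hb => h2 (j, b) hb⟩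

lemma DI_TS {l : ℕ} (f g : Fin l → ι) :
    DI n ι (fun (M : Str U (Option B)) _ S => TS M l (S ∘ f) (S ∘ g)) := by
  have h : DI n ι (fun (M : Str U (Option B)) _ S => ∃ i : Fin l, ∃ a : M.A,
      (¬ a ∈ S (f i) ∧ a ∈ S (g i)) ∧ (∀ j : Fin l, ∀ b : M.A,
        (j < i ∨ (j = i ∧ M.bin none b a)) → (b ∈ S (f j) ↔ b ∈ S (g j))) ∧
      ∀ j : Fin l, ∀ b : M.A,
        (i < j ∨ (i = j ∧ M.bin none a b)) → (b ∈ S (f j) ∧ ¬ b ∈ S (g j))) := by
    refine DI.exI fun i => ?_
    refine DI.exE (R := fun (M : Str U (Option B)) _ S a => (¬ a ∈ S (f i) ∧ a ∈ S (g i)) ∧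
      (∀ j : Fin l, ∀ b : M.A, (j < i ∨ (j = i ∧ M.bin none b a)) →
        (b ∈ S (f j) ↔ b ∈ S (g j))) ∧
      ∀ j : Fin l, ∀ b : M.A,
        (i < j ∨ (i = j ∧ M.bin none a b)) → (b ∈ S (f j) ∧ ¬ b ∈ S (g j))) ?_
    refine ((DI.mem (Fin.last n) (f i)).neg.and (DI.mem (Fin.last n) (g i))).and
      (DI.and ?_ ?_)
    · refine DI.allI fun j => ?_
      refine DI.allE (R := fun (M : Str U (Option B)) v S b =>
        (j < i ∨ (j = i ∧ M.bin none b (v (Fin.last n)))) → (b ∈ S (f j) ↔ b ∈ S (g j))) ?_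
      exact ((DI.const (j < i)).or ((DI.const (j = i)).and
        (DI.bin none (Fin.last (n + 1)) (Fin.last n).castSucc))).imp
        ((DI.mem (Fin.last (n + 1)) (f j)).iff (DI.mem (Fin.last (n + 1)) (g j)))
    · refine DI.allI fun j => ?_
      refine DI.allE (R := fun (M : Str U (Option B)) v S b =>
        (i < j ∨ (i = j ∧ M.bin none (v (Fin.last n)) b)) →
          (b ∈ S (f j) ∧ ¬ b ∈ S (g j))) ?_
      exact ((DI.const (i < j)).or ((DI.const (i = j)).and
        (DI.bin none (Fin.last n).castSucc (Fin.last (n + 1))))).imp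
        ((DI.mem (Fin.last (n + 1)) (f j)).and (DI.mem (Fin.last (n + 1)) (g j)).neg)
  refine h.of_iff fun M v S => ?_
  constructor
  · rintro ⟨i, a, h1, h2, h3⟩
    exact ⟨(i, a), h1, fun y hy => h2 y.1 y.2 hy, fun y hy => h3 y.1 y.2 hy⟩
  · rintro ⟨⟨i, a⟩, h1, h2, h3⟩
    exact ⟨i, a, h1, fun j b hb => h2 (j, b) hb, fun j b hb => h3 (j, b) hb⟩

lemma DI_tupEq {J : Type} [Finite J] (f g : J → ι) :
    DI n ι (fun (M : Str U B) _ S => S ∘ f = S ∘ g) := by
  have h : DI n ι (fun (M : Str U B) _ S => ∀ i : J, ∀ a : M.A, a ∈ S (f i) ↔ a ∈ S (g i)) := by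
    refine DI.allI fun i => ?_
    refine DI.allE (R := fun (M : Str U B) _ S a => a ∈ S (f i) ↔ a ∈ S (g i)) ?_
    exact (DI.mem (Fin.last n) (f i)).iff (DI.mem (Fin.last n) (g i))
  refine h.of_iff fun M v S => ?_
  constructor
  · intro h1
    funext i
    ext a
    exact h1 i a
  · intro h1 i a
    have := congrFun h1 i
    simp only [Function.comp_apply] at this
    rw [this]

lemma DI_empty {J : Type} [Finite J] (f : J → ι) :
    DI n ι (fun (M : Str U B) _ S => S ∘ f = fun _ => (∅ : Set M.A)) := by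
  have h : DI n ι (fun (M : Str U B) _ S => ∀ i : J, ∀ a : M.A, ¬ a ∈ S (f i)) := by
    refine DI.allI fun i => ?_
    refine DI.allE (R := fun (M : Str U B) _ S a => ¬ a ∈ S (f i)) ?_
    exact (DI.mem (Fin.last n) (f i)).neg
  refine h.of_iff fun M v S => ?_
  constructor
  · intro h1
    funext i
    ext a
    exact iff_of_false (h1 i a) id
  · intro h1 i a ha
    have := congrFun h1 i
    simp only [Function.comp_apply] at this
    rw [this] at ha
    exact ha

lemma DI_univ {J : Type} [Finite J] (f : J → ι) :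
    DI n ι (fun (M : Str U B) _ S => S ∘ f = fun _ => (Set.univ : Set M.A)) := by
  have h : DI n ι (fun (M : Str U B) _ S => ∀ i : J, ∀ a : M.A, a ∈ S (f i)) := by
    refine DI.allI fun i => ?_
    refine DI.allE (R := fun (M : Str U B) _ S a => a ∈ S (f i)) ?_
    exact DI.mem (Fin.last n) (f i)
  refine h.of_iff fun M v S => ?_
  constructor
  · intro h1
    funext i
    ext a
    exact iff_of_true (h1 i a) trivial
  · intro h1 i a
    have := congrFun h1 i
    simp only [Function.comp_apply] at this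
    rw [this]
    trivial

end order

end Pool.Agent.Lib_helper60.MonPH
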