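import Pool.Agent.Lib_helper60.MonPH.Strip
import Pool.Agent.Lib_helper60.MonPH.AltDefs

/-!
# Few classes and few patterns
-/

namespace Pool.Agent.Lib_helper60.MonPH

open Pool.Agent.Lib_helper60.MonPP

/-- growth classes: `j`-fold exponentials of functions `a ^ h * b` -/
def Gr : ℕ → (ℕ → ℕ) → Prop
  | 0, f => ∃ a b : ℕ, ∀ h, f h ≤ a ^ h * b
  | j + 1, f => ∃ g, Gr j g ∧ ∀ h, f h ≤ 2 ^ g h

lemma Gr.le {j : ℕ} {f g : ℕ → ℕ} (hg : Gr j g) (h : ∀ n, f n ≤ g n) : Gr j f := by
  cases j with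
  | zero => obtain ⟨a, b, hab⟩ := hg; exact ⟨a, b, fun n => (h n).trans (hab n)⟩
  | succ j => obtain ⟨g', hg', h'⟩ := hg; exact ⟨g', hg', fun n => (h n).trans (h' n)⟩

lemma Gr.const (j c : ℕ) : Gr j (fun _ => c) := by
  induction j with
  | zero => exact ⟨1, c, fun h => by simp⟩
  | succ j ih => exact ⟨_, ih, fun h => (Nat.lt_two_pow_self).le⟩

lemma Gr.add {j : ℕ} : ∀ {f g : ℕ → ℕ}, Gr j f → Gr j g → Gr j (fun n => f n + g n) := by
  induction j with
  | zero =>
    rintro f g ⟨a1, b1, h1⟩ ⟨a2, b2, h2⟩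
    exact ⟨max a1 a2, b1 + b2, fun n => (Nat.add_le_add (h1 n) (h2 n)).trans (pow_aux _ _ _ _ _)⟩
  | succ j ih =>
    rintro f g ⟨f', hf', h1⟩ ⟨g', hg', h2⟩
    refine ⟨fun n => (f' n + g' n) + 1, ih (ih hf' hg') (Gr.const j 1), fun n => ?_⟩
    refine (Nat.add_le_add (h1 n) (h2 n)).trans ?_
    have e1 : 2 ^ f' n ≤ 2 ^ (f' n + g' n) := Nat.pow_le_pow_right (by norm_num) (by omega)
    have e2 : 2 ^ g' n ≤ 2 ^ (f' n + g' n) := Nat.pow_le_pow_right (by norm_num) (by omega)
    rw [pow_succ]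
    omega

lemma Gr.mul {j : ℕ} {f g : ℕ → ℕ} (hf : Gr j f) (hg : Gr j g) :
    Gr j (fun n => f n * g n) := by
  cases j with
  | zero =>
    obtain ⟨a1, b1, h1⟩ := hf
    obtain ⟨a2, b2, h2⟩ := hg
    refine ⟨a1 * a2, b1 * b2, fun n => (Nat.mul_le_mul (h1 n) (h2 n)).trans (le_of_eq ?_)⟩
    rw [mul_pow]; ring
  | succ j =>
    obtain ⟨f', hf', h1⟩ := hf
    obtain ⟨g', hg', h2⟩ := hg
    refine ⟨_, hf'.add hg', fun n => (Nat.mul_le_mul (h1 n) (h2 n)).trans (le_of_eq ?_)⟩
    rw [pow_add]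

variable {U B : Type}

/-- few classes of right parts suffice for `φ` -/
def Few (j : ℕ) {k : ℕ} (φ : Fm U B 0 k) : Prop :=
  ∃ f : ℕ → ℕ, Gr j f ∧ ∀ (a w h : ℕ) (ne : Nonempty (SCell a w h))
    (bin : B → SCell a w h → SCell a w h → Prop), FarC bin →
    ∃ (Q : Type) (_ : Finite Q) (q : (Fin w × Fin h → SCol U k) → Q), Nat.card Q ≤ f h ∧
      ∀ (lam : Fin a × Fin h → SCol U k) (β β' : Fin w × Fin h → SCol U k), q β = q β' →
        (SAcc φ ne bin lam β ↔ SAcc φ ne bin lam β')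

/-- adding sets to a colouring -/
def addSets {X : Type} {k l : ℕ} (β : X → SCol U k) (T : X → (Fin l → Prop)) :
    X → SCol U (k + l) := fun x => ((β x).1, Fin.append (β x).2 (T x))

lemma exBlock_eq {k : ℕ} : ∀ (l : ℕ) (φ : Fm U B 0 (k + l)),
    exBlock l φ = exSets l φ := by
  intro l
  induction l with
  | zero => intro φ; rfl
  | succ l ih => intro φ; exact ih _

lemma sacc_exSets {a w h k l : ℕ} (φ : Fm U B 0 (k + l)) (ne : Nonempty (SCell a w h))
    (bin : B → SCell a w h → SCell a w h → Prop)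
    (lam : Fin a × Fin h → SCol U k) (β : Fin w × Fin h → SCol U k) :
    SAcc (exSets l φ) ne bin lam β ↔
      ∃ (TL : Fin a × Fin h → (Fin l → Prop)) (TR : Fin w × Fin h → (Fin l → Prop)),
        SAcc φ ne bin (addSets lam TL) (addSets β TR) := by
  unfold SAcc
  rw [holds_exSets]
  have key : ∀ (TL : Fin a × Fin h → (Fin l → Prop)) (TR : Fin w × Fin h → (Fin l → Prop)),
      (Fin.append (fun i => {x : SCell a w h | (Sum.elim lam β x).2 i})
        (fun i => {x : SCell a w h | Sum.elim TL TR x i}) : Fin (k + l) → Set (SCell a w h)) =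
      (fun i => {x : SCell a w h | (Sum.elim (addSets lam TL) (addSets β TR) x).2 i}) := by
    intro TL TR
    funext i
    refine Fin.addCases (fun i => ?_) (fun i => ?_) i
    · rw [Fin.append_left]
      ext x
      rcases x with x | x <;> simp [addSets]
    · rw [Fin.append_right]
      ext x
      rcases x with x | x <;> simp [addSets]
  constructor
  · rintro ⟨T, hT⟩
    let T' : Fin l → Set (SCell a w h) := T
    have hT' : (fun i => {x : SCell a w h | Sum.elim (fun x i => (Sum.inl x : SCell a w h) ∈ T' i)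
        (fun x i => (Sum.inr x : SCell a w h) ∈ T' i) x i}) = T' := by
      funext i
      ext x
      rcases x with x | x <;> rfl
    have h2 := key (fun x i => (Sum.inl x : SCell a w h) ∈ T' i)
      (fun x i => (Sum.inr x : SCell a w h) ∈ T' i)
    rw [hT'] at h2
    exact ⟨fun x i => (Sum.inl x : SCell a w h) ∈ T' i,
      fun x i => (Sum.inr x : SCell a w h) ∈ T' i, (holds_congr rfl h2).1 hT⟩
  · rintro ⟨TL, TR, h1⟩
    exact ⟨fun i => {x : SCell a w h | Sum.elim TL TR x i}, (holds_congr rfl (key TL TR)).2 h1⟩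

theorem few_alt [Finite U] [Finite B] {j k : ℕ} {φ : Fm U B 0 k} (hφ : Alt j φ) : Few j φ := by
  induction hφ with
  | @fo k φ hφ =>
    refine ⟨fun h => (Nat.card (SCol U k) ^ (2 ^ φ.qr)) ^ h *
      Nat.card (TT B (SCol U k × Fin (2 ^ φ.qr + 1)) φ.qr 0),
      ⟨_, _, fun h => le_rfl⟩, fun a w h ne bin hb => ?_⟩
    refine ⟨SKap U B k h φ.qr, inferInstance, skap bin φ.qr, (card_SKap U B k h _).le, ?_⟩
    intro lam β β' hk
    exact sacc_fo φ hφ ne hb hk lam
  | neg φ _ ih =>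
    obtain ⟨f, hf, H⟩ := ih
    refine ⟨f, hf, fun a w h ne bin hb => ?_⟩
    obtain ⟨Q, fQ, q, hQ, hq⟩ := H a w h ne bin hb
    exact ⟨Q, fQ, q, hQ, fun lam β β' hk => not_congr (hq lam β β' hk)⟩
  | and φ ψ _ _ ih1 ih2 =>
    obtain ⟨f1, hf1, H1⟩ := ih1
    obtain ⟨f2, hf2, H2⟩ := ih2
    refine ⟨_, hf1.mul hf2, fun a w h ne bin hb => ?_⟩
    obtain ⟨Q1, fQ1, q1, hQ1, hq1⟩ := H1 a w h ne bin hb
    obtain ⟨Q2, fQ2, q2, hQ2, hq2⟩ := H2 a w h ne bin hb
    refine ⟨Q1 × Q2, inferInstance, fun β => (q1 β, q2 β), ?_, ?_⟩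
    · rw [Nat.card_prod]; exact Nat.mul_le_mul hQ1 hQ2
    · intro lam β β' hk
      exact and_congr (hq1 lam β β' (congrArg Prod.fst hk)) (hq2 lam β β' (congrArg Prod.snd hk))
  | @ex j k l φ _ ih =>
    obtain ⟨f, hf, H⟩ := ih
    refine ⟨fun h => 2 ^ f h, ⟨f, hf, fun h => le_rfl⟩, fun a w h ne bin hb => ?_⟩
    obtain ⟨Q, fQ, q, hQ, hq⟩ := H a w h ne bin hb
    refine ⟨Set Q, inferInstance, fun β => Set.range (fun T => q (addSets β T)), ?_, ?_⟩
    · have : Nat.card (Set Q) = 2 ^ Nat.card Q := by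
        have := Fintype.ofFinite Q
        rw [Nat.card_eq_fintype_card, Fintype.card_set, Nat.card_eq_fintype_card]
      rw [this]
      exact Nat.pow_le_pow_right (by norm_num) hQ
    · have dir : ∀ (lam : Fin a × Fin h → SCol U k) (β β' : Fin w × Fin h → SCol U k),
          Set.range (fun T => q (addSets β T)) = Set.range (fun T => q (addSets β' T)) →
          SAcc (exSets l φ) ne bin lam β → SAcc (exSets l φ) ne bin lam β' := by
        intro lam β β' hk hacc
        rw [sacc_exSets] at hacc ⊢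
        obtain ⟨TL, TR, hT⟩ := hacc
        have h1 : q (addSets β TR) ∈ Set.range (fun T => q (addSets β' T)) := by
          rw [← hk]; exact ⟨TR, rfl⟩
        obtain ⟨TR', hTR'⟩ := h1
        exact ⟨TL, TR', (hq _ _ _ hTR'.symm).1 hT⟩
      intro lam β β' hk
      rw [exBlock_eq]
      exact ⟨dir lam β β' hk, dir lam β' β hk.symm⟩
  | up φ _ ih =>
    obtain ⟨f, hf, H⟩ := ih
    refine ⟨fun h => 2 ^ f h, ⟨f, hf, fun h => le_rfl⟩, fun a w h ne bin hb => ?_⟩
    obtain ⟨Q, fQ, q, hQ, hq⟩ := H a w h ne bin hb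
    exact ⟨Q, fQ, q, hQ.trans (Nat.lt_two_pow_self).le, hq⟩

/-- splitting set assignments into left and right -/
def splitS (a w h k : ℕ) : (Fin k → Set (SCell a w h)) ≃
    (Fin a × Fin h → (Fin k → Prop)) × (Fin w × Fin h → (Fin k → Prop)) where
  toFun S := (fun x i => Sum.inl x ∈ S i, fun x i => Sum.inr x ∈ S i)
  invFun p := fun i => {x | Sum.elim p.1 p.2 x i}
  left_inv S := by
    funext i
    ext x
    rcases x with x | x <;> rfl
  right_inv p := rfl

/-- label and sets -/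
def colr {X : Type} {k : ℕ} (lab : X → (U → Prop)) (T : X → (Fin k → Prop)) : X → SCol U k :=
  fun x => (lab x, T x)

lemma card_holds' {a w h k : ℕ} (φ : Fm U B 0 k) (ne : Nonempty (SCell a w h))
    (bin : B → SCell a w h → SCell a w h → Prop)
    {Q : Type} [Fintype Q] (q : (Fin w × Fin h → SCol U k) → Q)
    (hq : ∀ (lam : Fin a × Fin h → SCol U k) (β β' : Fin w × Fin h → SCol U k), q β = q β' →
      (SAcc φ ne bin lam β ↔ SAcc φ ne bin lam β'))
    (lam : Fin a × Fin h → (U → Prop)) (rho : Fin w × Fin h → (U → Prop)) :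
    Nat.card {S : Fin k → Set (sstr ne bin lam rho).A // φ.Holds (sstr ne bin lam rho) S} =
      ∑ κ : Q,
        Nat.card {SL : Fin a × Fin h → (Fin k → Prop) //
          ∃ β, q β = κ ∧ SAcc φ ne bin (colr lam SL) β} *
        Nat.card {T : Fin w × Fin h → (Fin k → Prop) // q (colr rho T) = κ} := by
  rw [← card_pairs (fun SL κ => ∃ β, q β = κ ∧ SAcc φ ne bin (colr lam SL) β)
    (fun T => q (colr rho T))]
  refine Nat.card_congr ?_
  refine Equiv.subtypeEquiv (splitS a w h k) ?_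
  intro S
  let S' : Fin k → Set (SCell a w h) := S
  have hS : φ.Holds (sstr ne bin lam rho) S ↔
      SAcc φ ne bin (colr lam (splitS a w h k S').1) (colr rho (splitS a w h k S').2) := by
    have h1 : S' = (fun i => {x : SCell a w h | (Sum.elim (colr lam (splitS a w h k S').1)
        (colr rho (splitS a w h k S').2) x).2 i}) := by
      funext i
      ext x
      rcases x with x | x <;> rfl
    exact holds_congr rfl h1
  rw [hS]
  constructor
  · intro h1
    exact ⟨_, rfl, h1⟩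
  · rintro ⟨β, hβ, h1⟩
    exact (hq _ _ _ hβ).1 h1

/-- the pattern of accepted right parts -/
def spat (K : Prty U B) {a w h : ℕ} (ne : Nonempty (SCell a w h))
    (bin : B → SCell a w h → SCell a w h → Prop) {V : Type}
    (rho : V → (Fin w × Fin h → (U → Prop))) (lam : Fin a × Fin h → (U → Prop)) : Set V :=
  {v | K (sstr ne bin lam (rho v))}

variable [Finite U] [Finite B]

theorem spat_base {j : ℕ} (K : Prty U B) (hK : MonPPAlt j K) : ∃ f : ℕ → ℕ, Gr j f ∧
    ∀ (a w h : ℕ) (ne : Nonempty (SCell a w h)) (bin : B → SCell a w h → SCell a w h → Prop)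
      (_ : FarC bin) (V : Type) (_ : Finite V) (rho : V → (Fin w × Fin h → (U → Prop))),
      Nat.card (Set.range (spat K ne bin rho)) ≤ (Nat.card V + 1) ^ f h := by
  obtain ⟨k, φ, ψ, hφ, hψ, hK⟩ := hK
  obtain ⟨f1, hf1, H1⟩ := few_alt hφ
  obtain ⟨f2, hf2, H2⟩ := few_alt hψ
  refine ⟨_, hf1.add hf2, ?_⟩
  intro a w h ne bin hb V fV rho
  obtain ⟨Q1, fQ1, q1, hQ1, hq1⟩ := H1 a w h ne bin hb
  obtain ⟨Q2, fQ2, q2, hQ2, hq2⟩ := H2 a w h ne bin hb
  have := Fintype.ofFinite Q1
  have := Fintype.ofFinite Q2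
  refine (card_range_halfspaces (ι := Q1 ⊕ Q2)
    (fun v => Sum.elim
      (fun κ => (Nat.card {T : Fin w × Fin h → (Fin k → Prop) // q1 (colr (rho v) T) = κ} : ℝ))
      (fun κ => (Nat.card {T : Fin w × Fin h → (Fin k → Prop) // q2 (colr (rho v) T) = κ} : ℝ)))
    (spat K ne bin rho) ?_).trans ?_
  · intro lam
    refine ⟨Sum.elim
      (fun κ => (Nat.card {SL : Fin a × Fin h → (Fin k → Prop) //
        ∃ β, q1 β = κ ∧ SAcc φ ne bin (colr lam SL) β} : ℝ))
      (fun κ => -(Nat.card {SL : Fin a × Fin h → (Fin k → Prop) //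
        ∃ β, q2 β = κ ∧ SAcc ψ ne bin (colr lam SL) β} : ℝ)), fun v => ?_⟩
    show K (sstr ne bin lam (rho v)) ↔ _
    rw [hK, card_holds' φ ne bin q1 hq1, card_holds' ψ ne bin q2 hq2, Fintype.sum_sum_type]
    simp only [Sum.elim_inl, Sum.elim_inr, neg_mul, Finset.sum_neg_distrib]
    rw [← sub_eq_add_neg, sub_pos]
    constructor
    · intro h1
      exact_mod_cast h1
    · intro h1
      exact_mod_cast h1
  · refine Nat.pow_le_pow_right (by omega) ?_
    rw [Nat.card_sum]
    exact Nat.add_le_add hQ1 hQ2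

theorem spat_bool {j : ℕ} (K : Prty U B) (hK : BoolCl (MonPPAlt j) K) :
    ∃ f : ℕ → ℕ, Gr j f ∧
    ∀ (a w h : ℕ) (ne : Nonempty (SCell a w h)) (bin : B → SCell a w h → SCell a w h → Prop)
      (_ : FarC bin) (V : Type) (_ : Finite V) (rho : V → (Fin w × Fin h → (U → Prop))),
      Nat.card (Set.range (spat K ne bin rho)) ≤ (Nat.card V + 1) ^ f h := by
  induction hK with
  | base K hK => exact spat_base K hK
  | compl K _ ih =>
    obtain ⟨f, hf, H⟩ := ih
    refine ⟨f, hf, fun a w h ne bin hb V fV rho => le_trans ?_ (H a w h ne bin hb V fV rho)⟩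
    refine Nat.card_le_card_of_injective
      (fun S : Set.range (spat (fun M => ¬ K M) ne bin rho) => (⟨S.1ᶜ, by
        obtain ⟨u, hu⟩ := S.2
        refine ⟨u, ?_⟩
        rw [← hu]
        ext v
        simp only [spat, Set.mem_compl_iff]
        show K (sstr ne bin u (rho v)) ↔ ¬ ¬ K (sstr ne bin u (rho v))
        tauto⟩ : Set.range (spat K ne bin rho))) ?_
    intro S S' hS
    have h1 := congrArg Subtype.val hS
    exact Subtype.ext (compl_injective h1)
  | inter K1 K2 _ _ ih1 ih2 =>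
    obtain ⟨f1, hf1, H1⟩ := ih1
    obtain ⟨f2, hf2, H2⟩ := ih2
    refine ⟨_, hf1.add hf2, fun a w h ne bin hb V fV rho => ?_⟩
    have hle : Nat.card (Set.range (spat (fun M => K1 M ∧ K2 M) ne bin rho)) ≤
        Nat.card (Set.range (spat K1 ne bin rho) × Set.range (spat K2 ne bin rho)) := by
      refine Nat.card_le_card_of_injective
        (fun S : Set.range (spat (fun M => K1 M ∧ K2 M) ne bin rho) =>
          ((⟨spat K1 ne bin rho S.2.choose, ⟨_, rfl⟩⟩ : Set.range (spat K1 ne bin rho)),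
           (⟨spat K2 ne bin rho S.2.choose, ⟨_, rfl⟩⟩ : Set.range (spat K2 ne bin rho)))) ?_
      intro S S' hS
      have e1 : spat K1 ne bin rho S.2.choose = spat K1 ne bin rho S'.2.choose :=
        congrArg Subtype.val (congrArg Prod.fst hS)
      have e2 : spat K2 ne bin rho S.2.choose = spat K2 ne bin rho S'.2.choose :=
        congrArg Subtype.val (congrArg Prod.snd hS)
      have e3 : ∀ u, spat (fun M => K1 M ∧ K2 M) ne bin rho u =
          spat K1 ne bin rho u ∩ spat K2 ne bin rho u := fun u => rfl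
      refine Subtype.ext ?_
      rw [← S.2.choose_spec, ← S'.2.choose_spec, e3, e3, e1, e2]
    refine hle.trans ?_
    rw [Nat.card_prod]
    refine (Nat.mul_le_mul (H1 a w h ne bin hb V fV rho) (H2 a w h ne bin hb V fV rho)).trans ?_
    rw [← pow_add]

end Pool.Agent.Lib_helper60.MonPH
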