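import Pool.Agent.Lib_helper60.MonPH.Incl2

/-!
# Every monadic second-order formula has an alternation level
-/

namespace Pool.Agent.Lib_helper60.MonPH

open Pool.Agent.Lib_helper60.MonPP

variable {U B : Type}

lemma Alt.mono {j j' k : ℕ} {φ : Fm U B 0 k} (h : Alt j φ) (hj : j ≤ j') : Alt j' φ := by
  induction hj with
  | refl => exact h
  | step _ ih => exact .up φ ih

/-- the set has exactly one element -/
def fSing {k : ℕ} (X : Fin k) : Fm U B 0 k :=
  .exElt (.and (.mem 0 X) (fAll (fImp (.mem 1 X) (.eq 1 0))))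

lemma fSing_isFO {k : ℕ} (X : Fin k) : (fSing X : Fm U B 0 k).IsFO := by
  simp [fSing, fAll, fImp, Fm.IsFO]

lemma holds_fSing (M : Str U B) {k : ℕ} (X : Fin k) (S : Fin k → Set M.A) :
    (fSing X : Fm U B 0 k).Holds M S ↔ ∃ x : M.A, S X = {x} := by
  show (∃ x : M.A, _ ∧ (fAll (fImp (.mem 1 X) (.eq 1 0)) : Fm U B 1 k).Sat M _ S) ↔ _
  refine exists_congr fun x => ?_
  rw [sat_fAll]
  have h2 : ∀ y : M.A, (fImp (.mem 1 X) (.eq 1 0) : Fm U B 2 k).Sat M
      (Fin.snoc (Fin.snoc Fin.elim0 x : Fin 1 → M.A) y) S ↔ (y ∈ S X → y = x) := by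
    intro y
    rw [sat_fImp]
    exact Iff.rfl
  simp only [h2]
  constructor
  · rintro ⟨h3, h4⟩
    ext y
    exact ⟨fun hy => h4 y hy, fun hy => by rw [show y = x from hy]; exact h3⟩
  · intro h3
    refine ⟨?_, fun y hy => ?_⟩
    · show x ∈ S X
      rw [h3]; rfl
    · rw [h3] at hy; exact hy

/-- the sets coding a tuple of elements -/
def sgl {A : Type} {n : ℕ} (v : Fin n → A) : Fin n → Set A := fun i => {v i}

/-- moving the last set variable behind the coded elements -/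
def swapV (k n : ℕ) : Fin ((k + 1) + n) → Fin ((k + n) + 1) :=
  Fin.addCases (Fin.snoc (fun i : Fin k => (Fin.castAdd n i).castSucc) (Fin.last (k + n)))
    (fun i => (Fin.natAdd k i).castSucc)

lemma swapV_spec {α : Type} {k n : ℕ} (S : Fin k → α) (V : Fin n → α) (T : α) :
    (Fin.snoc (Fin.append S V) T : Fin ((k + n) + 1) → α) ∘ swapV k n =
      Fin.append (Fin.snoc S T : Fin (k + 1) → α) V := by
  funext i
  refine Fin.addCases (fun i => ?_) (fun i => ?_) i
  · rw [Fin.append_left]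
    refine Fin.lastCases ?_ (fun i => ?_) i
    · simp [swapV]
    · simp [swapV]
  · rw [Fin.append_right]
    have h1 : swapV k n (Fin.natAdd (k + 1) i) = (Fin.natAdd k i).castSucc := by
      simp only [swapV, Fin.addCases_right]
    show (Fin.snoc (Fin.append S V) T : Fin ((k + n) + 1) → α)
      (swapV k n (Fin.natAdd (k + 1) i)) = V i
    rw [h1, Fin.snoc_castSucc, Fin.append_right]

theorem exists_alt {n k : ℕ} (φ : Fm U B n k) : ∃ (j : ℕ) (φ' : Fm U B 0 (k + n)), Alt j φ' ∧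
    ∀ (M : Str U B) (S : Fin k → Set M.A) (v : Fin n → M.A),
      φ'.Holds M (Fin.append S (sgl v)) ↔ φ.Sat M v S := by
  induction φ with
  | @eq n k i j =>
    refine ⟨0, .exElt (.and (.mem 0 (Fin.natAdd k i)) (.mem 0 (Fin.natAdd k j))),
      .fo _ ⟨trivial, trivial⟩, fun M S v => ?_⟩
    show (∃ x : M.A, x ∈ Fin.append S (sgl v) (Fin.natAdd k i) ∧
      x ∈ Fin.append S (sgl v) (Fin.natAdd k j)) ↔ v i = v j
    rw [Fin.append_right, Fin.append_right]
    constructor
    · rintro ⟨x, h1, h2⟩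
      have h1' : x = v i := h1
      have h2' : x = v j := h2
      rw [← h1', ← h2']
    · intro h1
      exact ⟨v i, rfl, h1⟩
  | @un n k p i =>
    refine ⟨0, .exElt (.and (.mem 0 (Fin.natAdd k i)) (.un p 0)),
      .fo _ ⟨trivial, trivial⟩, fun M S v => ?_⟩
    show (∃ x : M.A, x ∈ Fin.append S (sgl v) (Fin.natAdd k i) ∧ x ∈ M.un p) ↔ v i ∈ M.un p
    rw [Fin.append_right]
    constructor
    · rintro ⟨x, h1, h2⟩
      have h1' : x = v i := h1
      rw [← h1']; exact h2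
    · intro h1
      exact ⟨v i, rfl, h1⟩
  | @bin n k r i j =>
    refine ⟨0, .exElt (.exElt (.and (.mem 0 (Fin.natAdd k i)) (.and (.mem 1 (Fin.natAdd k j))
      (.bin r 0 1)))), .fo _ ⟨trivial, trivial, trivial⟩, fun M S v => ?_⟩
    show (∃ x y : M.A, x ∈ Fin.append S (sgl v) (Fin.natAdd k i) ∧
      y ∈ Fin.append S (sgl v) (Fin.natAdd k j) ∧ M.bin r x y) ↔ M.bin r (v i) (v j)
    rw [Fin.append_right, Fin.append_right]
    constructor
    · rintro ⟨x, y, h1, h2, h3⟩
      have h1' : x = v i := h1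
      have h2' : y = v j := h2
      rw [← h1', ← h2']; exact h3
    · intro h1
      exact ⟨v i, v j, rfl, rfl, h1⟩
  | @mem n k i X =>
    refine ⟨0, .exElt (.and (.mem 0 (Fin.natAdd k i)) (.mem 0 (Fin.castAdd n X))),
      .fo _ ⟨trivial, trivial⟩, fun M S v => ?_⟩
    show (∃ x : M.A, x ∈ Fin.append S (sgl v) (Fin.natAdd k i) ∧
      x ∈ Fin.append S (sgl v) (Fin.castAdd n X)) ↔ v i ∈ S X
    rw [Fin.append_right, Fin.append_left]
    constructor
    · rintro ⟨x, h1, h2⟩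
      have h1' : x = v i := h1
      rw [← h1']; exact h2
    · intro h1
      exact ⟨v i, rfl, h1⟩
  | neg φ ih =>
    obtain ⟨j, φ', h1, h2⟩ := ih
    exact ⟨j, .neg φ', .neg φ' h1, fun M S v => not_congr (h2 M S v)⟩
  | and φ ψ ih1 ih2 =>
    obtain ⟨j1, φ', h1, h2⟩ := ih1
    obtain ⟨j2, ψ', h3, h4⟩ := ih2
    exact ⟨max j1 j2, .and φ' ψ', .and _ _ (h1.mono (le_max_left _ _))
      (h3.mono (le_max_right _ _)), fun M S v => and_congr (h2 M S v) (h4 M S v)⟩
  | @exElt n k φ ih =>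
    obtain ⟨j, φ', h1, h2⟩ := ih
    let φ1 : Fm U B 0 (k + n + 1) := φ'
    refine ⟨j + 1, exBlock 1 (.and (fSing (Fin.last (k + n))) φ1),
      .ex 1 _ (.and _ _ (Alt.fo_any j _ (fSing_isFO _)) h1), fun M S v => ?_⟩
    show (Fm.exSet (.and (fSing (Fin.last (k + n))) φ1)).Holds M (Fin.append S (sgl v)) ↔
      ∃ a : M.A, φ.Sat M (Fin.snoc v a) S
    have key : ∀ a : M.A, (Fin.snoc (Fin.append S (sgl v)) {a} : Fin (k + n + 1) → Set M.A) =
        (Fin.append S (sgl (Fin.snoc v a : Fin (n + 1) → M.A)) : Fin (k + (n + 1)) → Set M.A) := by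
      intro a
      rw [append_snoc']
      congr 1
      funext i
      refine Fin.lastCases ?_ (fun i => ?_) i
      · simp [sgl]
      · simp [sgl]
    constructor
    · rintro ⟨T, hT1, hT2⟩
      have hT1' : (fSing (Fin.last (k + n)) : Fm U B 0 (k + n + 1)).Holds M
        (Fin.snoc (Fin.append S (sgl v)) T) := hT1
      rw [holds_fSing, Fin.snoc_last] at hT1'
      obtain ⟨a, ha⟩ := hT1'
      refine ⟨a, (h2 M S _).1 ?_⟩
      rw [← key a, ← ha]
      exact hT2
    · rintro ⟨a, ha⟩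
      refine ⟨{a}, ?_, ?_⟩
      · have : (fSing (Fin.last (k + n)) : Fm U B 0 (k + n + 1)).Holds M
            (Fin.snoc (Fin.append S (sgl v)) {a}) := by
          rw [holds_fSing, Fin.snoc_last]
          exact ⟨a, rfl⟩
        exact this
      · have := (h2 M S _).2 ha
        rw [← key a] at this
        exact this
  | @exSet n k φ ih =>
    obtain ⟨j, φ', h1, h2⟩ := ih
    obtain ⟨φ1, h3, h4⟩ := h1.ren (swapV k n)
    refine ⟨j + 1, exBlock 1 φ1, .ex 1 _ h3, fun M S v => ?_⟩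
    show (Fm.exSet φ1).Holds M (Fin.append S (sgl v)) ↔
      ∃ T : Set M.A, φ.Sat M v (Fin.snoc S T)
    refine exists_congr fun T => ?_
    rw [← h2, ← swapV_spec, ← h4]
    exact Iff.rfl

/-- monadic second-order sentences have an alternation level -/
theorem MSO.alt {K : Prty U B} (hK : MSO K) :
    ∃ (j : ℕ) (φ : Fm U B 0 0), Alt j φ ∧ ∀ M : Str U B, K M ↔ φ.Holds M Fin.elim0 := by
  obtain ⟨φ, h⟩ := hK
  obtain ⟨j, φ', h1, h2⟩ := exists_alt φ
  refine ⟨j, φ', h1, fun M => ?_⟩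
  rw [h M]
  have h3 := h2 M Fin.elim0 Fin.elim0
  have h4 : (Fin.append Fin.elim0 (sgl Fin.elim0) : Fin (0 + 0) → Set M.A) =
      (Fin.elim0 : Fin 0 → Set M.A) := funext fun i => i.elim0
  rw [h4] at h3
  exact h3.symm

end Pool.Agent.Lib_helper60.MonPH
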