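import Pool.Agent.Lib_helper60.MonPH.PS4
import Pool.Agent.Lib_helper60.MonPH.Normal

/-!
# The class monadic PSPACE with a built-in linear order contains all the others
-/

namespace Pool.Agent.Lib_helper60.MonPH

open Pool.Agent.Lib_helper60.MonPP Relation

variable {U B : Type}

/-- machines without parameters are monadic PSPACE -/
theorem PS.toMon {R : (M : Str U (Option B)) → (Fin 0 → Set M.A) → Prop} (h : PS (Fin 0) R) :
    ∃ K' : Prty U (Option B), MonPSPACE K' ∧ ∀ M, Ord M → ∀ S, (R M S ↔ K' M) := by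
  obtain ⟨κ, hκ, I, F, St, h1, h2, h3, h4⟩ := h
  let e : κ ≃ Fin (Nat.card κ) := Finite.equivFin κ
  obtain ⟨ini, fi, hini⟩ := DI.toFin (DI.ren h1 (Sum.elim Fin.elim0 e))
  obtain ⟨fin, ff, hfin⟩ := DI.toFin (DI.ren h2 (Sum.elim Fin.elim0 e))
  obtain ⟨stp, fs, hstp⟩ := DI.toFin (DI.ren h3 (Sum.elim Fin.elim0 (Sum.elim
    (fun c => Fin.castAdd (Nat.card κ) (e c)) (fun c => Fin.natAdd (Nat.card κ) (e c)))))
  refine ⟨fun M => ∃ S T : Fin (Nat.card κ) → Set M.A, ini.Holds M S ∧ fin.Holds M T ∧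
    ReflTransGen (fun S T => stp.Holds M (Fin.append S T)) S T,
    ⟨_, ini, fin, stp, fi, ff, fs, fun M => Iff.rfl⟩, fun M hM S => ?_⟩
  rw [h4 M hM S]
  let E : (κ → Set M.A) ≃ (Fin (Nat.card κ) → Set M.A) := e.arrowCongr (Equiv.refl _)
  have c1 : ∀ T : Fin (Nat.card κ) → Set M.A,
      (T ∘ Sum.elim Fin.elim0 e : Fin 0 ⊕ κ → Set M.A) = Sum.elim S (E.symm T) := by
    intro T
    funext x
    rcases x with x | x
    · exact x.elim0
    · rfl
  have c2 : ∀ T T' : Fin (Nat.card κ) → Set M.A,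
      (Fin.append T T' ∘ (Sum.elim Fin.elim0 (Sum.elim
    (fun c => Fin.castAdd (Nat.card κ) (e c)) (fun c => Fin.natAdd (Nat.card κ) (e c)))) :
      Fin 0 ⊕ (κ ⊕ κ) → Set M.A) = Sum.elim S (Sum.elim (E.symm T) (E.symm T')) := by
    intro T T'
    funext x
    rcases x with x | x | x
    · exact x.elim0
    · simp only [Function.comp_apply, Sum.elim_inr, Sum.elim_inl, Fin.append_left]; rfl
    · simp only [Function.comp_apply, Sum.elim_inr, Fin.append_right]; rfl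
  have htr := rtg_equiv E (fun C D => St M (Sum.elim S (Sum.elim C D)))
    (fun T T' => stp.Holds M (Fin.append T T')) (fun T T' => by
      show stp.Sat M Fin.elim0 (Fin.append T T') ↔ _
      rw [hstp, c2])
  constructor
  · rintro ⟨C, D, a1, a2, a3⟩
    refine ⟨E C, E D, (hini M _ _).2 ?_, (hfin M _ _).2 ?_, (htr _ _).1 ?_⟩
    · rw [c1, Equiv.symm_apply_apply]; exact a1
    · rw [c1, Equiv.symm_apply_apply]; exact a2
    · rw [Equiv.symm_apply_apply, Equiv.symm_apply_apply]; exact a3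
  · rintro ⟨C, D, a1, a2, a3⟩
    have a1' := (hini M _ _).1 a1
    have a2' := (hfin M _ _).1 a2
    rw [c1] at a1' a2'
    exact ⟨E.symm C, E.symm D, a1', a2', (htr _ _).2 a3⟩

lemma ord_expand (M : Str U B) {lt : M.A → M.A → Prop} (h : IsStrictTotalOrder M.A lt) :
    Ord (expand M lt) := h

theorem ppAlt_withOrder_PSPACE {j : ℕ} {K : Prty U B} (hK : WithOrder (MonPPAlt j) K) :
    WithOrder MonPSPACE K := by
  obtain ⟨K', ⟨k, φ, ψ, hφ, hψ, h1⟩, h2⟩ := hK
  obtain ⟨K'', h3, h4⟩ := (PS.cmp hφ.ps.1 hψ.ps.1 hψ.ps.2).toMon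
  refine ⟨K'', h3, fun M lt hlt => ?_⟩
  rw [h2 M lt hlt, h1]
  exact h4 (expand M lt) (ord_expand M hlt) Fin.elim0

theorem MSO_withOrder_PSPACE {K : Prty U B} (hK : WithOrder MSO K) :
    WithOrder MonPSPACE K := by
  obtain ⟨K', hK', h2⟩ := hK
  obtain ⟨j, φ, hφ, h1⟩ := MSO.alt hK'
  obtain ⟨K'', h3, h4⟩ := hφ.ps.1.toMon
  refine ⟨K'', h3, fun M lt hlt => ?_⟩
  rw [h2 M lt hlt, h1]
  exact h4 (expand M lt) (ord_expand M hlt) Fin.elim0

/-- the formula over the vocabulary with one more binary symbol -/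
def emb {U B : Type} : {n k : ℕ} → Fm U B n k → Fm U (Option B) n k
  | _, _, .eq i j => .eq i j
  | _, _, .un p i => .un p i
  | _, _, .bin r i j => .bin (some r) i j
  | _, _, .mem i X => .mem i X
  | _, _, .neg φ => .neg (emb φ)
  | _, _, .and φ ψ => .and (emb φ) (emb ψ)
  | _, _, .exElt φ => .exElt (emb φ)
  | _, _, .exSet φ => .exSet (emb φ)

lemma emb_isFO {n k : ℕ} (φ : Fm U B n k) (h : φ.IsFO) : (emb φ).IsFO := by
  induction φ with
  | eq i j => trivial
  | un p i => trivial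
  | bin r i j => trivial
  | mem i X => trivial
  | neg φ ih => exact ih h
  | and φ ψ ih1 ih2 => exact ⟨ih1 h.1, ih2 h.2⟩
  | exElt φ ih => exact ih h
  | exSet φ ih => exact h.elim

lemma emb_sat (M : Str U B) (lt : M.A → M.A → Prop) {n k : ℕ} (φ : Fm U B n k) :
    ∀ (v : Fin n → M.A) (S : Fin k → Set M.A),
      (emb φ).Sat (expand M lt) v S ↔ φ.Sat M v S := by
  induction φ with
  | eq i j => exact fun v S => Iff.rfl
  | un p i => exact fun v S => Iff.rfl
  | bin r i j => exact fun v S => Iff.rfl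
  | mem i X => exact fun v S => Iff.rfl
  | neg φ ih => exact fun v S => not_congr (ih v S)
  | and φ ψ ih1 ih2 => exact fun v S => and_congr (ih1 v S) (ih2 v S)
  | exElt φ ih => exact fun v S => exists_congr fun a => ih _ S
  | exSet φ ih => exact fun v S => exists_congr fun T => ih v _

lemma emb_exBlock {k : ℕ} (l : ℕ) (φ : Fm U B 0 (k + l)) :
    emb (exBlock l φ) = exBlock l (emb φ) := by
  induction l with
  | zero => rfl
  | succ l ih => exact ih _

lemma Sg.emb {m k : ℕ} {φ : Fm U B 0 k} (h : Sg m φ) : Sg m (MonPH.emb φ) := by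
  induction h with
  | fo φ hφ => exact .fo _ (emb_isFO φ hφ)
  | ex l φ _ ih =>
    rw [emb_exBlock]
    exact .ex l (MonPH.emb φ) ih

lemma Alt.emb {j k : ℕ} {φ : Fm U B 0 k} (h : Alt j φ) : Alt j (MonPH.emb φ) := by
  induction h with
  | fo φ hφ => exact .fo _ (emb_isFO φ hφ)
  | neg φ _ ih => exact .neg _ ih
  | and φ ψ _ _ ih1 ih2 => exact .and _ _ ih1 ih2
  | ex l φ _ ih =>
    rw [emb_exBlock]
    exact .ex l (MonPH.emb φ) ih
  | up φ _ ih => exact .up _ ih

theorem MSO_withOrder {K : Prty U B} (hK : MSO K) : WithOrder MSO K := by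
  obtain ⟨φ, h⟩ := hK
  exact ⟨_, ⟨emb φ, fun _ => Iff.rfl⟩, fun M lt _ => (h M).trans (emb_sat M lt φ _ _).symm⟩

theorem sigma_withOrder {m : ℕ} {K : Prty U B} (hK : MonSigma m K) :
    WithOrder (MonSigma m) K := by
  obtain ⟨φ, h0, h⟩ := hK
  exact ⟨_, ⟨emb φ, h0.emb, fun _ => Iff.rfl⟩,
    fun M lt _ => (h M).trans (emb_sat M lt φ _ _).symm⟩

theorem pi_withOrder {m : ℕ} {K : Prty U B} (hK : MonPi m K) : WithOrder (MonPi m) K := by
  obtain ⟨K', h1, h2⟩ := sigma_withOrder hK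
  refine ⟨fun M => ¬ K' M, ?_, fun M lt hlt => ?_⟩
  · have : MonSigma m (fun M => ¬ ¬ K' M) := by
      obtain ⟨φ, h0, h⟩ := h1
      exact ⟨φ, h0, fun M => not_not.trans (h M)⟩
    exact this
  · have := h2 M lt hlt
    tauto

theorem ppAlt_withOrder {j : ℕ} {K : Prty U B} (hK : MonPPAlt j K) :
    WithOrder (MonPPAlt j) K := by
  obtain ⟨k, φ, ψ, hφ, hψ, h⟩ := hK
  refine ⟨_, ⟨k, emb φ, emb ψ, hφ.emb, hψ.emb, fun _ => Iff.rfl⟩, fun M lt _ => ?_⟩
  rw [h M]
  have e : ∀ χ : Fm U B 0 k, Nat.card {S : Fin k → Set M.A // χ.Holds M S} =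
      Nat.card {S : Fin k → Set (expand M lt).A // (emb χ).Holds (expand M lt) S} := by
    intro χ
    exact Nat.card_congr (Equiv.subtypeEquivRight fun S => (emb_sat M lt χ _ S).symm)
  rw [e φ, e ψ]

/-- inclusion of classes -/
lemma WithOrder.mono {C C' : Prty U (Option B) → Prop} (h : ∀ K, C K → C' K) {K : Prty U B}
    (hK : WithOrder C K) : WithOrder C' K := by
  obtain ⟨K', h1, h2⟩ := hK
  exact ⟨K', h _ h1, h2⟩

end Pool.Agent.Lib_helper60.MonPH
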