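import Pool.Agent.Lib_helper60.MonPH.Maj
import Pool.Agent.Lib_helper60.MonPH.PS5
import Pool.Agent.Lib_helper60.MonPP.Majority

/-!
# The monadic case of `NP ∪ coNP ≠ PP` and of `PP ≠ PSPACE`, at every level of the hierarchy

Fagin: NP is the class of properties of finite structures 'there are relations `S` with `φ`',
`φ` first-order; coNP, PP and the levels of the polynomial hierarchy have the analogous
descriptions with the quantifiers 'for all relations', 'more relations satisfy `φ` than `ψ`',
and alternating blocks of relation quantifiers; PSPACE is reachability between tuples of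
relations in a first-order definable graph (Harel-Peleg, Immerman). Here all quantified relations
are sets (the monadic case). `MonPPAlt j` is monadic PP over level `j` of the monadic hierarchy
(the monadic version of PP with a `Σ_j` oracle); `MonPPAlt 0` is monadic PP.
-/

namespace Pool.Agent.Lib_helper60.MonPH.Full

open Pool.Agent.Lib_helper60.MonPP Pool.Agent.Lib_helper60.MonPH

/-- The place of monadic PP over level `j` in the monadic hierarchy over finite structures:
it contains monadic `Σ_{j+1}` and `Π_{j+1}` and is closed under complement; when a linear order is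
built in, it and monadic second-order logic are contained in monadic PSPACE; it has a property
that is not in the whole monadic hierarchy (not definable in monadic second-order logic), even
if a linear order is built in; but already some monadic `Σ_{j+2}` property (hence in monadic
PSPACE with a built-in linear order) is not inside its Boolean closure, even if a linear order
is built in. -/
theorem monadic_chain (j : ℕ) :
    (∀ (U B : Type) (K : Prty U B), MonSigma (j + 1) K ∨ MonPi (j + 1) K →
      MonPPAlt j K ∧ MSO K) ∧
    (∀ (U B : Type) (K : Prty U B), MonPPAlt j K → MonPPAlt j (fun M => ¬ K M)) ∧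
    (∀ (U B : Type) (K : Prty U B),
      MonPPAlt j K ∨ MSO K ∨ WithOrder (MonPPAlt j) K ∨ WithOrder MSO K →
        WithOrder MonPSPACE K) ∧
    (∃ K : Prty (Fin 5) (Fin 2), MonPPAlt j K ∧ ¬ MSO K ∧ ¬ WithOrder MSO K) ∧
    (∃ K : Prty (Fin 5) (Fin 2), MonSigma (j + 2) K ∧ WithOrder MonPSPACE K ∧
      ¬ BoolCl (MonPPAlt j) K ∧ ¬ WithOrder (BoolCl (MonPPAlt j)) K) := by
  refine ⟨?_, fun U B K hK => ppAlt_compl hK, ?_,
    ⟨KMaj 0, monPP_ppAlt j (kMaj_monPP 0), kMaj_not_MSO 0, kMaj_not_withOrder_MSO⟩, ?_⟩
  · rintro U B K (hK | hK)
    · exact ⟨monSigma_ppAlt hK, monSigma_MSO hK⟩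
    · exact ⟨monPi_ppAlt hK, monPi_MSO hK⟩
  · rintro U B K (hK | hK | hK | hK)
    · exact ppAlt_withOrder_PSPACE (ppAlt_withOrder hK)
    · exact MSO_withOrder_PSPACE (MSO_withOrder hK)
    · exact ppAlt_withOrder_PSPACE hK
    · exact MSO_withOrder_PSPACE hK
  · obtain ⟨K, h1, h2, h3⟩ := sigma_not_boolCl j
    exact ⟨K, h1, MSO_withOrder_PSPACE (MSO_withOrder (monSigma_MSO h1)), h2, h3⟩

end Pool.Agent.Lib_helper60.MonPH.Full
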