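import Pool.Agent.Lib_helper60.MonPH.SigNest

/-!
# Inclusions between the levels
-/

namespace Pool.Agent.Lib_helper60.MonPH

open Pool.Agent.Lib_helper60.MonPP

variable {U B : Type}

lemma Alt.fo_any (j : ℕ) {k : ℕ} (φ : Fm U B 0 k) (hφ : φ.IsFO) : Alt j φ := by
  induction j with
  | zero => exact .fo φ hφ
  | succ j ih => exact .up φ ih

lemma Sg.alt {m k : ℕ} {φ : Fm U B 0 k} (h : Sg m φ) : Alt m φ := by
  induction h with
  | fo φ hφ => exact .fo φ hφ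
  | ex l φ _ ih => exact .ex l φ.neg (.neg φ ih)

lemma Sg.inv {m k : ℕ} {φ : Fm U B 0 k} (h : Sg (m + 1) φ) :
    ∃ (l : ℕ) (ψ : Fm U B 0 (k + l)), Sg m ψ ∧ ∀ (M : Str U B) (S : Fin k → Set M.A),
      φ.Holds M S ↔ ∃ T : Fin l → Set M.A, ¬ ψ.Holds M (Fin.append S T) := by
  cases h with
  | ex l ψ hψ => exact ⟨l, ψ, hψ, fun M S => holds_exBlock M l ψ.neg S⟩

lemma append_elim0 {α : Type} {l : ℕ} (S : Fin (0 + l) → α) :
    Fin.append (Fin.elim0 : Fin 0 → α) (fun i => S (Fin.natAdd 0 i)) = S := by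
  funext i
  refine Fin.addCases (fun i => i.elim0) (fun i => ?_) i
  rw [Fin.append_right]

lemma MonSigma.inv {m : ℕ} {K : Prty U B} (hK : MonSigma (m + 1) K) :
    ∃ (l : ℕ) (ψ : Fm U B 0 (0 + l)), Sg m ψ ∧ ∀ M : Str U B,
      K M ↔ ∃ S : Fin (0 + l) → Set M.A, ¬ ψ.Holds M S := by
  obtain ⟨φ, hφ, h⟩ := hK
  obtain ⟨l, ψ, hψ, h2⟩ := hφ.inv
  refine ⟨l, ψ, hψ, fun M => ?_⟩
  rw [h M, h2]
  constructor
  · rintro ⟨T, hT⟩
    exact ⟨_, hT⟩
  · rintro ⟨S, hS⟩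
    refine ⟨fun i => S (Fin.natAdd 0 i), ?_⟩
    rw [append_elim0]
    exact hS

theorem monSigma_ppAlt {j : ℕ} {K : Prty U B} (hK : MonSigma (j + 1) K) : MonPPAlt j K := by
  obtain ⟨l, ψ, hψ, h⟩ := hK.inv
  refine ⟨0 + l, .neg ψ, .and ψ (.neg ψ), .neg ψ hψ.alt, .and _ _ hψ.alt (.neg ψ hψ.alt),
    fun M => ?_⟩
  have := M.fin
  have h0 : Nat.card {S : Fin (0 + l) → Set M.A // (Fm.and ψ (.neg ψ)).Holds M S} = 0 := by
    rw [Nat.card_eq_zero]
    left
    exact ⟨fun S => S.2.2 S.2.1⟩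
  rw [h0, h M, Nat.card_pos_iff]
  constructor
  · rintro ⟨S, hS⟩
    exact ⟨⟨⟨S, hS⟩⟩, inferInstance⟩
  · rintro ⟨⟨S⟩, _⟩
    exact ⟨S.1, S.2⟩

theorem monPi_ppAlt {j : ℕ} {K : Prty U B} (hK : MonPi (j + 1) K) : MonPPAlt j K := by
  obtain ⟨l, ψ, hψ, h⟩ := MonSigma.inv hK
  refine ⟨0 + l, fEmpty (List.finRange (0 + l)), .neg ψ, Alt.fo_any j _ (fEmpty_isFO _),
    .neg ψ hψ.alt, fun M => ?_⟩
  have := M.fin
  have hM := h M
  rw [card_fEmpty, Nat.lt_one_iff, Nat.card_eq_zero]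
  constructor
  · intro h1
    left
    exact ⟨fun S => hM.2 ⟨S.1, S.2⟩ h1⟩
  · rintro (h1 | h1)
    · by_contra h2
      obtain ⟨S, hS⟩ := hM.1 h2
      exact h1.false ⟨S, hS⟩
    · exact absurd (inferInstance : Finite {S : Fin (0 + l) → Set M.A // (Fm.neg ψ).Holds M S})
        (not_finite_iff_infinite.2 h1)

theorem monSigma_MSO {m : ℕ} {K : Prty U B} (hK : MonSigma m K) : MSO K := by
  obtain ⟨φ, _, h⟩ := hK
  exact ⟨φ, h⟩

theorem monPi_MSO {m : ℕ} {K : Prty U B} (hK : MonPi m K) : MSO K := by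
  obtain ⟨φ, _, h⟩ := hK
  refine ⟨.neg φ, fun M => ?_⟩
  have h1 := h M
  show K M ↔ ¬ φ.Holds M Fin.elim0
  tauto

theorem monPP_ppAlt {K : Prty U B} (j : ℕ) (hK : MonPP K) : MonPPAlt j K := by
  obtain ⟨k, φ, ψ, hφ, hψ, h⟩ := hK
  exact ⟨k, φ, ψ, Alt.fo_any j φ hφ, Alt.fo_any j ψ hψ, h⟩

lemma Alt.ren {j k : ℕ} {φ : Fm U B 0 k} (h : Alt j φ) : ∀ {k' : ℕ} (f : Fin k → Fin k'),
    ∃ φ' : Fm U B 0 k', Alt j φ' ∧ ∀ (M : Str U B) (S : Fin k' → Set M.A),
      φ'.Holds M S ↔ φ.Holds M (S ∘ f) := by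
  induction h with
  | fo φ hφ =>
    intro k' f
    exact ⟨φ.ren f, .fo _ (Fm.ren_isFO _ hφ _), fun M S => Fm.ren_sat M φ f _ S⟩
  | neg φ _ ih =>
    intro k' f
    obtain ⟨φ', h1, h2⟩ := ih f
    exact ⟨.neg φ', .neg _ h1, fun M S => not_congr (h2 M S)⟩
  | and φ ψ _ _ ih1 ih2 =>
    intro k' f
    obtain ⟨φ', h1, h2⟩ := ih1 f
    obtain ⟨ψ', h3, h4⟩ := ih2 f
    exact ⟨.and φ' ψ', .and _ _ h1 h3, fun M S => and_congr (h2 M S) (h4 M S)⟩
  | ex l φ _ ih =>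
    intro k' f
    obtain ⟨φ', h1, h2⟩ := ih (lift f l)
    refine ⟨exBlock l φ', .ex l φ' h1, fun M S => ?_⟩
    rw [holds_exBlock, holds_exBlock]
    refine exists_congr fun T => ?_
    rw [h2, append_lift]
  | up φ _ ih =>
    intro k' f
    obtain ⟨φ', h1, h2⟩ := ih f
    exact ⟨φ', .up _ h1, h2⟩

/-- monadic PP over level `j` is closed under complement -/
theorem ppAlt_compl {j : ℕ} {K : Prty U B} (hK : MonPPAlt j K) :
    MonPPAlt j (fun M => ¬ K M) := by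
  obtain ⟨k, φ, ψ, hφ, hψ, h⟩ := hK
  -- the last set is empty
  let e1 : Fm U B 0 (k + 1) := fAll (.neg (.mem 0 (Fin.last k)))
  -- the last set is everything
  let e2 : Fm U B 0 (k + 1) := fAll (.mem 0 (Fin.last k))
  let z : Fm U B 0 (k + 1) := (fEmpty (List.finRange k)).ren Fin.castSucc
  obtain ⟨φ1, hφ1, rφ⟩ := hφ.ren (Fin.castSucc : Fin k → Fin (k + 1))
  obtain ⟨ψ1, hψ1, rψ⟩ := hψ.ren (Fin.castSucc : Fin k → Fin (k + 1))
  let ψ' : Fm U B 0 (k + 1) := .neg (.and (.neg (.and ψ1 e1)) (.neg (.and z e2)))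
  have a1 : Alt j e1 := Alt.fo_any j _ (by simp [e1, fAll, Fm.IsFO])
  have a2 : Alt j e2 := Alt.fo_any j _ (by simp [e2, fAll, Fm.IsFO])
  have az : Alt j z := Alt.fo_any j _ (Fm.ren_isFO _ (fEmpty_isFO _) _)
  refine ⟨k + 1, ψ', .and φ1 e1, ?_, .and _ _ hφ1 a1, fun M => ?_⟩
  · exact .neg _ (.and _ _ (.neg _ (.and _ _ hψ1 a1)) (.neg _ (.and _ _ az a2)))
  · have := M.fin
    have := M.ne
    have he1 : ∀ S : Fin (k + 1) → Set M.A, e1.Holds M S ↔ S (Fin.last k) = ∅ := by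
      intro S
      show (fAll (.neg (.mem 0 (Fin.last k))) : Fm U B 0 (k + 1)).Sat M Fin.elim0 S ↔ _
      rw [sat_fAll, Set.eq_empty_iff_forall_notMem]
      exact Iff.rfl
    have he2 : ∀ S : Fin (k + 1) → Set M.A, e2.Holds M S ↔ S (Fin.last k) = Set.univ := by
      intro S
      show (fAll (.mem 0 (Fin.last k)) : Fm U B 0 (k + 1)).Sat M Fin.elim0 S ↔ _
      rw [sat_fAll, Set.eq_univ_iff_forall]
      exact Iff.rfl
    have hren : ∀ (χ : Fm U B 0 k) (S : Fin (k + 1) → Set M.A),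
        (χ.ren Fin.castSucc).Holds M S ↔ χ.Holds M (fun i => S i.castSucc) := by
      intro χ S
      unfold Fm.Holds
      rw [Fm.ren_sat]
      rfl
    have hcard : ∀ (χ : Fm U B 0 k) (χ1 : Fm U B 0 (k + 1)),
        (∀ S : Fin (k + 1) → Set M.A, χ1.Holds M S ↔ χ.Holds M (fun i => S i.castSucc)) →
        Nat.card {S : Fin (k + 1) → Set M.A // (Fm.and χ1 e1).Holds M S} =
        Nat.card {S : Fin k → Set M.A // χ.Holds M S} := by
      intro χ χ1 hχ
      refine Nat.card_congr ⟨fun S => ⟨fun i => S.1 i.castSucc, (hχ S.1).1 S.2.1⟩,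
        fun S => ⟨Fin.snoc S.1 ∅, (hχ _).2 (by simpa using S.2), (he1 _).2 (by simp)⟩,
        ?_, ?_⟩
      · rintro ⟨S, hS1, hS2⟩
        refine Subtype.ext (funext fun i => ?_)
        refine Fin.lastCases ?_ (fun i => ?_) i
        · simp only [Fin.snoc_last]
          exact ((he1 S).1 hS2).symm
        · simp
      · rintro ⟨S, hS⟩
        refine Subtype.ext (funext fun i => ?_)
        simp
    have hψ' : Nat.card {S : Fin (k + 1) → Set M.A // ψ'.Holds M S} =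
        Nat.card {S : Fin k → Set M.A // ψ.Holds M S} + 1 := by
      rw [← hcard ψ ψ1 (rψ M)]
      have hu : {S : Fin (k + 1) → Set M.A | ψ'.Holds M S} =
          {S | (Fm.and ψ1 e1).Holds M S} ∪ {Fin.snoc (fun _ => ∅) Set.univ} := by
        ext S
        have h1 : ψ'.Holds M S ↔ ((Fm.and ψ1 e1).Holds M S ∨
            (z.Holds M S ∧ e2.Holds M S)) := by
          show ¬ (¬ _ ∧ ¬ _) ↔ _
          rw [← or_iff_not_and_not]
          exact Iff.rfl
        have h2 : (z.Holds M S ∧ e2.Holds M S) ↔ S = Fin.snoc (fun _ => ∅) Set.univ := by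
          rw [he2, hren, holds_fEmpty]
          constructor
          · rintro ⟨h3, h4⟩
            funext i
            refine Fin.lastCases ?_ (fun i => ?_) i
            · simpa using h4
            · simpa using h3 i (List.mem_finRange i)
          · rintro rfl
            simp
        show ψ'.Holds M S ↔ _
        rw [h1, h2]
        exact Iff.rfl
      have hd : Disjoint {S : Fin (k + 1) → Set M.A | (Fm.and ψ1 e1).Holds M S}
          {Fin.snoc (fun _ => ∅) Set.univ} := by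
        rw [Set.disjoint_singleton_right]
        intro h1
        have h2 := (he1 _).1 h1.2
        simp only [Fin.snoc_last] at h2
        exact Set.empty_ne_univ h2.symm
      have := Set.ncard_union_eq hd (Set.toFinite _) (Set.toFinite _)
      rw [← hu, Set.ncard_singleton] at this
      exact this
    show ¬ K M ↔ _
    rw [hcard φ φ1 (rφ M), hψ', h M]
    omega

end Pool.Agent.Lib_helper60.MonPH
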