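import Pool.Agent.Lib_helper60.MonPH.Normal

/-!
# The majority property is not in the monadic hierarchy, even with a built-in linear order
-/

namespace Pool.Agent.Lib_helper60.MonPH

open Pool.Agent.Lib_helper60.MonPP

lemma card_first (w k : ℕ) (hk : k ≤ w) : Nat.card {x : Fin w × Fin 1 // (x.1 : ℕ) < k} = k := by
  have e : {x : Fin w × Fin 1 // (x.1 : ℕ) < k} ≃ Fin k :=
    { toFun := fun x => ⟨x.1.1, x.2⟩
      invFun := fun y => ⟨(⟨y, by omega⟩, 0), y.2⟩
      left_inv := by
        rintro ⟨⟨x, i⟩, hx⟩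
        refine Subtype.ext (Prod.ext rfl (Subsingleton.elim _ _))
      right_inv := fun y => rfl }
  rw [Nat.card_congr e, Nat.card_fin]

lemma card_rest (w k : ℕ) (hk : k ≤ w) :
    Nat.card {x : Fin w × Fin 1 // ¬ (x.1 : ℕ) < k} = w - k := by
  have e : {x : Fin w × Fin 1 // ¬ (x.1 : ℕ) < k} ≃ Fin (w - k) :=
    { toFun := fun x => ⟨x.1.1 - k, by have := x.1.1.2; have := x.2; omega⟩
      invFun := fun y => ⟨(⟨y + k, by omega⟩, 0), by show ¬ (y : ℕ) + k < k; omega⟩
      left_inv := by
        rintro ⟨⟨x, i⟩, hx⟩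
        refine Subtype.ext (Prod.ext (Fin.ext ?_) (Subsingleton.elim _ _))
        have hx' : ¬ (x : ℕ) < k := hx
        show (x : ℕ) - k + k = x
        omega
      right_inv := fun y => by ext; show (y : ℕ) + k - k = y; omega }
  rw [Nat.card_congr e, Nat.card_fin]

/-- the colouring with the first `k` cells in the predicate `0` -/
def fcol (w k : ℕ) : Fin w × Fin 1 → SCol (Fin 5) 0 :=
  fun x => (fun p => p = 0 ∧ (x.1 : ℕ) < k, fun i => i.elim0)

lemma kMaj_strip {B : Type} (w l k : ℕ) (hl : l ≤ w) (hk : k ≤ w)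
    (ne : Nonempty (SCell w w 1)) (bin : B → SCell w w 1 → SCell w w 1 → Prop) :
    KMaj (0 : Fin 5) (sstr ne bin (fun x => (fcol w l x).1) (fun x => (fcol w k x).1)) ↔
      w < l + k := by
  have h1 : Nat.card {x : SCell w w 1 // x ∈ (sstr ne bin (fun x => (fcol w l x).1)
      (fun x => (fcol w k x).1)).un 0} = l + k := by
    rw [Nat.card_congr Equiv.subtypeSum, Nat.card_sum]
    congr 1
    · refine (Nat.card_congr (Equiv.subtypeEquivRight fun x => ?_)).trans (card_first w l hl)
      show ((0 : Fin 5) = 0 ∧ (x.1 : ℕ) < l) ↔ _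
      simp
    · refine (Nat.card_congr (Equiv.subtypeEquivRight fun x => ?_)).trans (card_first w k hk)
      show ((0 : Fin 5) = 0 ∧ (x.1 : ℕ) < k) ↔ _
      simp
  have h2 : Nat.card {x : SCell w w 1 // x ∉ (sstr ne bin (fun x => (fcol w l x).1)
      (fun x => (fcol w k x).1)).un 0} = (w - l) + (w - k) := by
    rw [Nat.card_congr Equiv.subtypeSum, Nat.card_sum]
    congr 1
    · refine (Nat.card_congr (Equiv.subtypeEquivRight fun x => ?_)).trans (card_rest w l hl)
      show ¬ ((0 : Fin 5) = 0 ∧ (x.1 : ℕ) < l) ↔ _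
      simp
    · refine (Nat.card_congr (Equiv.subtypeEquivRight fun x => ?_)).trans (card_rest w k hk)
      show ¬ ((0 : Fin 5) = 0 ∧ (x.1 : ℕ) < k) ↔ _
      simp
  have h3 : KMaj (0 : Fin 5) (sstr ne bin (fun x => (fcol w l x).1)
      (fun x => (fcol w k x).1)) ↔ (w - l) + (w - k) < l + k := by
    rw [← h1, ← h2]
    exact Iff.rfl
  rw [h3]
  omega

/-- The majority property is not definable in monadic second-order logic, even with a built-in
linear order. -/
theorem kMaj_not_withOrder_MSO :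
    ¬ WithOrder MSO (KMaj (0 : Fin 5) : Prty (Fin 5) (Fin 2)) := by
  rintro ⟨K', hMSO, hK'⟩
  obtain ⟨m, φ, hφ, hφ'⟩ := MSO.alt hMSO
  obtain ⟨f, _, H⟩ := few_alt hφ
  set w := f 1 + 1 with hw
  have ne : Nonempty (SCell w w 1) := ⟨.inr (⟨0, by omega⟩, 0)⟩
  obtain ⟨Q, fQ, q, hQ, hq⟩ := H w w 1 ne (sbinO w w 1) sbinO_far
  -- two different numbers with the same class
  obtain ⟨k, k', hkk, hqq⟩ : ∃ k k' : Fin (w + 1), k < k' ∧ q (fcol w k) = q (fcol w k') := by
    have hni : ¬ Function.Injective (fun k : Fin (w + 1) => q (fcol w k)) := by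
      intro hinj
      have := Nat.card_le_card_of_injective _ hinj
      rw [Nat.card_fin] at this
      omega
    simp only [Function.Injective] at hni
    push Not at hni
    obtain ⟨x, y, hxy, hne⟩ := hni
    rcases lt_or_gt_of_ne hne with h1 | h1
    · exact ⟨x, y, h1, hxy⟩
    · exact ⟨y, x, h1, hxy.symm⟩
  have hlt : (k : ℕ) < k' := hkk
  have hk2 := k'.2
  set l := w - k' + 1 with hl
  have hll : l ≤ w := by omega
  -- acceptance is the majority property
  have hacc : ∀ n : ℕ, n ≤ w → (SAcc φ ne (sbinO w w 1) (fcol w l) (fcol w n) ↔ w < l + n) := by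
    intro n hn
    rw [← kMaj_strip w l n hll hn ne (sbin w w 1)]
    rw [hK' (sstr ne (sbin w w 1) (fun x => (fcol w l x).1) (fun x => (fcol w n x).1))
      (slt w w 1) slt_order, hφ']
    exact holds_congr rfl (funext fun i => i.elim0)
  have h1 := hq (fcol w l) _ _ hqq
  rw [hacc k (by omega), hacc k' (by omega)] at h1
  omega

end Pool.Agent.Lib_helper60.MonPH
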