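import Pool.Agent.Lib_helper60.MonPH.Strip
import Pool.Agent.Lib_helper60.MonPP.Incl

/-!
# The nested strips
-/

namespace Pool.Agent.Lib_helper60.MonPH

open Pool.Agent.Lib_helper60.MonPP

/-- items of level `i` -/
def It (h : ℕ) : ℕ → Type
  | 0 => Fin h × Fin h → Prop
  | i + 1 => It h i → Prop

/-- number of items of level `i` -/
def NI (h : ℕ) : ℕ → ℕ
  | 0 => 2 ^ (h * h)
  | i + 1 => 2 ^ NI h i

/-- width of a block of level `i` -/
def wd (h : ℕ) : ℕ → ℕ
  | 0 => h
  | i + 1 => NI h i * wd h i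

instance instFinIt (h : ℕ) : (i : ℕ) → Finite (It h i)
  | 0 => inferInstanceAs (Finite (Fin h × Fin h → Prop))
  | i + 1 =>
    have := instFinIt h i
    inferInstanceAs (Finite (It h i → Prop))

lemma card_It (h : ℕ) : ∀ i, Nat.card (It h i) = NI h i
  | 0 => card_V h
  | i + 1 => by
    have h1 : Nat.card (It h i → Prop) = 2 ^ Nat.card (It h i) := by
      rw [Nat.card_fun, Nat.card_eq_fintype_card (α := Prop), Fintype.card_prop]
    show Nat.card (It h i → Prop) = 2 ^ NI h i
    rw [h1, card_It h i]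

/-- enumeration of the items -/
noncomputable def enu (h i : ℕ) : Fin (NI h i) ≃ It h i :=
  (Finite.equivFinOfCardEq (card_It h i)).symm

lemma NI_pos (h i : ℕ) : 0 < NI h i := by
  cases i <;> simp [NI]

lemma wd_pos {h : ℕ} (hh : 0 < h) : ∀ i, 0 < wd h i
  | 0 => hh
  | i + 1 => Nat.mul_pos (NI_pos h i) (wd_pos hh i)

lemma wd_dvd (h : ℕ) : ∀ {i j : ℕ}, i ≤ j → wd h i ∣ wd h j := by
  intro i j hij
  induction hij with
  | refl => exact dvd_refl _
  | step _ ih => exact ih.trans (Dvd.intro_left _ rfl)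

lemma div_lt_of {c L w : ℕ} (hc : c < L * w) : c / w < L :=
  Nat.div_lt_of_lt_mul (by rw [Nat.mul_comm] at hc; exact hc)

section order

variable {a w h : ℕ}

/-- the two successor relations of the strip: horizontal (0) and vertical (1) -/
def sbin (a w h : ℕ) (r : Fin 2) (x y : SCell a w h) : Prop :=
  if r = 0 then grow x = grow y ∧ gcol y = gcol x + 1
  else gcol x = gcol y ∧ grow y = grow x + 1

lemma sbin_zero (x y : SCell a w h) : sbin a w h 0 x y ↔
    grow x = grow y ∧ gcol y = gcol x + 1 := by simp [sbin]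

lemma sbin_one (x y : SCell a w h) : sbin a w h 1 x y ↔
    gcol x = gcol y ∧ grow y = grow x + 1 := by simp [sbin]

lemma sbin_far : FarC (sbin a w h) := by
  intro r
  refine ⟨False, False, fun x y hxy => ?_⟩
  rcases eq_or_ne r 0 with rfl | hr
  · rw [sbin_zero, sbin_zero]
    constructor <;> constructor <;> intro h1 <;> first | exact h1.elim | omega
  · obtain rfl : r = 1 := by omega
    rw [sbin_one, sbin_one]
    constructor <;> constructor <;> intro h1 <;> first | exact h1.elim | omega

/-- the linear order column by column -/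
def slt (a w h : ℕ) (x y : SCell a w h) : Prop :=
  gcol x < gcol y ∨ (gcol x = gcol y ∧ grow x < grow y)

lemma slt_order : IsStrictTotalOrder (SCell a w h) (slt a w h) where
  irrefl x := by unfold slt; omega
  trans x y z hxy hyz := by unfold slt at *; omega
  trichotomous x y h1 h2 := by
    unfold slt at *
    exact scell_ext (by omega) (by omega)

/-- the successor relations and the linear order -/
def sbinO (a w h : ℕ) (o : Option (Fin 2)) : SCell a w h → SCell a w h → Prop :=
  o.elim (slt a w h) (sbin a w h)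

lemma sbinO_far : FarC (sbinO a w h) := by
  intro r
  cases r with
  | none =>
    refine ⟨True, False, fun x y hxy => ?_⟩
    show (slt a w h x y ↔ True) ∧ (slt a w h y x ↔ False)
    unfold slt
    exact ⟨iff_of_true (by omega) trivial, iff_of_false (by omega) id⟩
  | some r => exact sbin_far r

end order

section content

variable {h j : ℕ}

/-- content of the level-`i` block at column `g` if the level-`j` block has content `t` -/
noncomputable def contT (t : It h j) (i g : ℕ) : It h i :=
  if e : j = i then e ▸ t else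
    enu h i ⟨(g / wd h i) % NI h i, Nat.mod_lt _ (NI_pos h i)⟩

lemma contT_top (t : It h j) (g : ℕ) : contT t j g = t := by
  simp [contT]

lemma contT_lt (t : It h j) {i : ℕ} (hi : i < j) (g : ℕ) : contT t i g =
    enu h i ⟨(g / wd h i) % NI h i, Nat.mod_lt _ (NI_pos h i)⟩ := by
  have : ¬ j = i := by omega
  simp [contT, this]

/-- labels of the cell in column `g` and row `r` inside a level-`j` block of content `t`; there
are `L` left blocks. Row `r` carries the starts and the marks of level `r`. -/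
noncomputable def lab (L : ℕ) (t : It h j) (g r : ℕ) : Fin 5 → Prop
  | 0 => ∃ (h1 : r < h) (h2 : g % h < h), contT t 0 g (⟨r, h1⟩, ⟨g % h, h2⟩)
  | 1 => r = g % h
  | 2 => g / wd h j = L
  | 3 => g % wd h r = 0
  | 4 => contT t (r + 1) g (contT t r g)

end content

section strip

variable {h j L : ℕ}

/-- labels of the left part -/
noncomputable def labL (h j L : ℕ) (u : Fin L → It h j) :
    Fin (L * wd h j) × Fin h → (Fin 5 → Prop) := fun x =>
  lab L (u ⟨x.1 / wd h j, div_lt_of x.1.2⟩) x.1 x.2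

/-- labels of the right part -/
noncomputable def labR (h j L : ℕ) (v : It h j) : Fin (wd h j) × Fin h → (Fin 5 → Prop) :=
  fun x => lab L v (L * wd h j + x.1) x.2

/-- the content of the level-`j` block of a cell -/
def topC (u : Fin L → It h j) (v : It h j) : SCell (L * wd h j) (wd h j) h → It h j
  | .inl x => u ⟨x.1 / wd h j, div_lt_of x.1.2⟩
  | .inr _ => v

/-- the nested strip -/
noncomputable def nstr (h j L : ℕ) (ne : Nonempty (SCell (L * wd h j) (wd h j) h))
    (u : Fin L → It h j) (v : It h j) : Str (Fin 5) (Fin 2) :=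
  sstr ne (sbin (L * wd h j) (wd h j) h) (labL h j L u) (labR h j L v)

variable {ne : Nonempty (SCell (L * wd h j) (wd h j) h)} {u : Fin L → It h j} {v : It h j}

lemma mem_un (x : SCell (L * wd h j) (wd h j) h) (p : Fin 5) :
    x ∈ (nstr h j L ne u v).un p ↔ lab L (topC u v x) (gcol x) (grow x) p := by
  rcases x with x | x <;> exact Iff.rfl

lemma bin0 (x y : SCell (L * wd h j) (wd h j) h) :
    (nstr h j L ne u v).bin 0 x y ↔ grow x = grow y ∧ gcol y = gcol x + 1 := sbin_zero x y

lemma bin1 (x y : SCell (L * wd h j) (wd h j) h) :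
    (nstr h j L ne u v).bin 1 x y ↔ gcol x = gcol y ∧ grow y = grow x + 1 := sbin_one x y

/-- total width -/
lemma tot (L w : ℕ) : L * w + w = (L + 1) * w := by ring

/-- content of the level-`i` block of a cell -/
noncomputable def cont (u : Fin L → It h j) (v : It h j) (i : ℕ)
    (x : SCell (L * wd h j) (wd h j) h) : It h i := contT (topC u v x) i (gcol x)

lemma topC_congr (hh : 0 < h) {x y : SCell (L * wd h j) (wd h j) h}
    (hxy : gcol x / wd h j = gcol y / wd h j) : topC u v x = topC u v y := by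
  have hw := wd_pos hh j
  have hr : ∀ c : Fin (wd h j), (L * wd h j + c) / wd h j = L := by
    intro c
    rw [Nat.add_comm, Nat.add_mul_div_right _ _ hw, Nat.div_eq_of_lt c.2, Nat.zero_add]
  have hl : ∀ c : Fin (L * wd h j), (c : ℕ) / wd h j < L := fun c => div_lt_of c.2
  rcases x with ⟨c, r⟩ | ⟨c, r⟩ <;> rcases y with ⟨c', r'⟩ | ⟨c', r'⟩
  · simp only [gcol_inl] at hxy
    simp only [topC, hxy]
  · simp only [gcol_inl, gcol_inr, hr] at hxy
    have := hl c; omega
  · simp only [gcol_inl, gcol_inr, hr] at hxy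
    have := hl c'; omega
  · rfl

/-- the content only depends on the block -/
lemma cont_congr (hh : 0 < h) {i : ℕ} (hi : i ≤ j) {x y : SCell (L * wd h j) (wd h j) h}
    (hxy : gcol x / wd h i = gcol y / wd h i) : cont u v i x = cont u v i y := by
  rcases hi.lt_or_eq with hi | rfl
  · unfold cont
    rw [contT_lt _ hi, contT_lt _ hi]
    simp only [hxy]
  · unfold cont
    rw [contT_top, contT_top]
    exact topC_congr hh hxy

/-- closed under the binary relation `b` -/
def Cl (M : Str (Fin 5) (Fin 2)) (b : Fin 2) (X : Set M.A) : Prop :=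
  ∀ s t : M.A, M.bin b s t → (s ∈ X ↔ t ∈ X)

/-- `x` is in the row number `i` from the top -/
def RowN (M : Str (Fin 5) (Fin 2)) : ℕ → M.A → Prop
  | 0, x => ¬ ∃ s : M.A, M.bin 1 s x
  | i + 1, x => ∃ s : M.A, M.bin 1 s x ∧ RowN M i s

/-- closed under the horizontal steps that do not enter a new block of level `i` -/
def ClIn (M : Str (Fin 5) (Fin 2)) (i : ℕ) (X : Set M.A) : Prop :=
  ∀ s t : M.A, M.bin 0 s t → RowN M i t → t ∉ M.un 3 → (s ∈ X ↔ t ∈ X)

/-- a union of blocks of level `i` -/
def UB (i : ℕ) (M : Str (Fin 5) (Fin 2)) (X : Set M.A) : Prop := Cl M 1 X ∧ ClIn M i X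

lemma closedV (hh : 0 < h) {X : Set (SCell (L * wd h j) (wd h j) h)}
    (hX : Cl (nstr h j L ne u v) 1 X) {x y : SCell (L * wd h j) (wd h j) h}
    (hc : gcol x = gcol y) : x ∈ X ↔ y ∈ X := by
  have key : ∀ (r : ℕ) (x x0 : SCell (L * wd h j) (wd h j) h), grow x = r → grow x0 = 0 →
      gcol x = gcol x0 → (x ∈ X ↔ x0 ∈ X) := by
    intro r
    induction r with
    | zero =>
      intro x x0 h1 h2 h3
      rw [scell_ext h3 (h1.trans h2.symm)]
    | succ r ih =>
      intro x x0 h1 h2 h3
      have hc := gcol_lt x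
      have hr := grow_lt x
      obtain ⟨z, hz1, hz2⟩ := exists_scell (a := L * wd h j) (w := wd h j) (h := h)
        (c := gcol x) (r := r) hc (by omega)
      have h6 : (z ∈ X ↔ x ∈ X) := hX z x ((bin1 z x).2 ⟨hz1, by omega⟩)
      rw [← h6]
      exact ih z x0 hz2 h2 (by omega)
  obtain ⟨x0, h1, h2⟩ := exists_scell (a := L * wd h j) (w := wd h j) (h := h)
    (c := gcol x) (r := 0) (gcol_lt x) hh
  rw [key _ x x0 rfl h2 h1.symm, key _ y x0 rfl h2 (by omega)]

lemma closedH {X : Set (SCell (L * wd h j) (wd h j) h)}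
    (hX : Cl (nstr h j L ne u v) 0 X) {x y : SCell (L * wd h j) (wd h j) h}
    (hr : grow x = grow y) : x ∈ X ↔ y ∈ X := by
  have key : ∀ (c : ℕ) (x x0 : SCell (L * wd h j) (wd h j) h), gcol x = c → gcol x0 = 0 →
      grow x = grow x0 → (x ∈ X ↔ x0 ∈ X) := by
    intro c
    induction c with
    | zero =>
      intro x x0 h1 h2 h3
      rw [scell_ext (h1.trans h2.symm) h3]
    | succ c ih =>
      intro x x0 h1 h2 h3
      have hc := gcol_lt x
      have hr := grow_lt x
      obtain ⟨z, hz1, hz2⟩ := exists_scell (a := L * wd h j) (w := wd h j) (h := h)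
        (c := c) (r := grow x) (by omega) hr
      have h6 : (z ∈ X ↔ x ∈ X) := hX z x ((bin0 z x).2 ⟨hz2, by omega⟩)
      rw [← h6]
      exact ih z x0 hz1 h2 (by omega)
  obtain ⟨x0, h1, h2⟩ := exists_scell (a := L * wd h j) (w := wd h j) (h := h)
    (c := 0) (r := grow x) (by have := gcol_lt x; omega) (grow_lt x)
  rw [key _ x x0 rfl h1 h2.symm, key _ y x0 rfl h1 (by omega)]

lemma rowN_iff : ∀ (i : ℕ) (x : SCell (L * wd h j) (wd h j) h),
    RowN (nstr h j L ne u v) i x ↔ grow x = i := by
  intro i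
  induction i with
  | zero =>
    intro x
    constructor
    · intro h1
      by_contra h2
      obtain ⟨z, hz1, hz2⟩ := exists_scell (a := L * wd h j) (w := wd h j) (h := h)
        (c := gcol x) (r := grow x - 1) (gcol_lt x) (by have := grow_lt x; omega)
      exact h1 ⟨z, (bin1 z x).2 ⟨hz1, by omega⟩⟩
    · rintro h1 ⟨s, hs⟩
      have := ((bin1 s x).1 hs).2
      omega
  | succ i ih =>
    intro x
    constructor
    · rintro ⟨s, hs, h1⟩
      have h2 := ((bin1 s x).1 hs).2
      have h3 := (ih s).1 h1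
      omega
    · intro h1
      obtain ⟨z, hz1, hz2⟩ := exists_scell (a := L * wd h j) (w := wd h j) (h := h)
        (c := gcol x) (r := i) (gcol_lt x) (by have := grow_lt x; omega)
      exact ⟨z, (bin1 z x).2 ⟨hz1, by omega⟩, (ih z).2 hz2⟩

lemma succ_div_of_mod {g w : ℕ} (h1 : (g + 1) % w ≠ 0) : (g + 1) / w = g / w := by
  rw [Nat.succ_div, if_neg (fun hd => h1 (Nat.mod_eq_zero_of_dvd hd)), Nat.add_zero]

lemma succ_mod_ne {g w : ℕ} (h1 : (g + 1) / w = g / w) : (g + 1) % w ≠ 0 := by
  intro h2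
  rw [Nat.succ_div, if_pos (Nat.dvd_of_mod_eq_zero h2)] at h1
  omega

/-- blocks as sets -/
def bset (h j L i b : ℕ) : Set (SCell (L * wd h j) (wd h j) h) := {z | gcol z / wd h i = b}

lemma bset_UB (i b : ℕ) : UB i (nstr h j L ne u v) (bset h j L i b) := by
  constructor
  · intro s t hst
    have := ((bin1 s t).1 hst).1
    show gcol (s : SCell (L * wd h j) (wd h j) h) / wd h i = _ ↔
      gcol (t : SCell (L * wd h j) (wd h j) h) / wd h i = _
    rw [this]
  · intro s t hst hrt hts
    have h1 := ((bin0 s t).1 hst).2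
    have h4 : grow (t : SCell (L * wd h j) (wd h j) h) = i := (rowN_iff i t).1 hrt
    have h3 : ¬ gcol (t : SCell (L * wd h j) (wd h j) h) % wd h i = 0 := by
      intro e
      refine hts ((mem_un t 3).2 ?_)
      show gcol (t : SCell (L * wd h j) (wd h j) h) % wd h (grow _) = 0
      rw [h4]
      exact e
    rw [h1] at h3
    have h2 := succ_div_of_mod h3
    show gcol (s : SCell (L * wd h j) (wd h j) h) / wd h i = _ ↔
      gcol (t : SCell (L * wd h j) (wd h j) h) / wd h i = _
    rw [h1, h2]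

lemma UB_iff {i : ℕ} (hi : i < h) {X : Set (SCell (L * wd h j) (wd h j) h)}
    (hX : UB i (nstr h j L ne u v) X) {x y : SCell (L * wd h j) (wd h j) h}
    (hxy : gcol x / wd h i = gcol y / wd h i) : x ∈ X ↔ y ∈ X := by
  have hh : 0 < h := by omega
  have key : ∀ (n : ℕ) (x y : SCell (L * wd h j) (wd h j) h), gcol y = gcol x + n →
      gcol x / wd h i = gcol y / wd h i → (x ∈ X ↔ y ∈ X) := by
    intro n
    induction n with
    | zero =>
      intro x y h1 _
      exact closedV hh hX.1 (by omega)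
    | succ n ih =>
      intro x y h1 h2
      have hcy := gcol_lt y
      obtain ⟨x1, hx1, hx2⟩ := exists_scell (a := L * wd h j) (w := wd h j) (h := h)
        (c := gcol x) (r := i) (by omega) hi
      obtain ⟨z, hz1, hz2⟩ := exists_scell (a := L * wd h j) (w := wd h j) (h := h)
        (c := gcol x + 1) (r := i) (by omega) hi
      have h3 : gcol x / wd h i ≤ (gcol x + 1) / wd h i := Nat.div_le_div_right (by omega)
      have h4 : (gcol x + 1) / wd h i ≤ gcol y / wd h i := Nat.div_le_div_right (by omega)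
      have h5 : (gcol x + 1) / wd h i = gcol x / wd h i := by omega
      have h6 : (x1 ∈ X ↔ z ∈ X) := hX.2 x1 z ((bin0 x1 z).2 ⟨by omega, by omega⟩)
        ((rowN_iff i z).2 hz2) (by
        intro e
        have e1 : gcol z % wd h (grow z) = 0 := (mem_un z 3).1 e
        rw [hz1, hz2] at e1
        exact succ_mod_ne h5 e1)
      rw [closedV hh hX.1 hx1.symm, h6]
      exact ih z y (by omega) (by rw [hz1, h5]; exact h2)
  rcases le_total (gcol x) (gcol y) with h1 | h1
  · exact key (gcol y - gcol x) x y (by omega) hxy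
  · exact (key (gcol x - gcol y) y x (by omega) hxy.symm).symm

/-- a column with given block and offset exists -/
lemma exists_in_block (hh : 0 < h) {i : ℕ} (hi : i ≤ j) (x : SCell (L * wd h j) (wd h j) h)
    {o r : ℕ} (ho : o < wd h i) (hr : r < h) :
    ∃ z : SCell (L * wd h j) (wd h j) h, gcol z = (gcol x / wd h i) * wd h i + o ∧
      grow z = r := by
  refine exists_scell ?_ hr
  have hx := gcol_lt x
  rw [tot] at hx ⊢
  obtain ⟨q, hq⟩ := (wd_dvd h hi).trans (Dvd.intro_left (L + 1) rfl : wd h j ∣ (L + 1) * wd h j)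
  rw [hq] at hx ⊢
  have h1 : gcol x / wd h i < q := Nat.div_lt_of_lt_mul hx
  calc gcol x / wd h i * wd h i + o < gcol x / wd h i * wd h i + wd h i := by omega
    _ = (gcol x / wd h i + 1) * wd h i := by ring
    _ ≤ q * wd h i := Nat.mul_le_mul h1 le_rfl
    _ = wd h i * q := Nat.mul_comm _ _

/-- choosing a sub-block with a given content -/
lemma exists_sub {i : ℕ} (hij : i < j) (hih : i < h) (x : SCell (L * wd h j) (wd h j) h)
    (p : It h i) : ∃ x' : SCell (L * wd h j) (wd h j) h,
      gcol x' / wd h (i + 1) = gcol x / wd h (i + 1) ∧ grow x' = i ∧ cont u v i x' = p := by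
  have hh : 0 < h := by omega
  have hwi := wd_pos hh i
  obtain ⟨m, hm⟩ := (enu h i).surjective p
  have hmlt : (m : ℕ) * wd h i < wd h (i + 1) := by
    show (m : ℕ) * wd h i < NI h i * wd h i
    exact Nat.mul_lt_mul_of_pos_right m.2 hwi
  obtain ⟨x', h1, hr⟩ := exists_in_block hh (i := i + 1) hij x (o := m * wd h i) (r := i) hmlt hih
  refine ⟨x', ?_, hr, ?_⟩
  · rw [h1, Nat.add_comm, Nat.add_mul_div_right _ _ (wd_pos hh (i + 1)),
      Nat.div_eq_of_lt hmlt, Nat.zero_add]
  · unfold cont
    rw [contT_lt _ hij]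
    have h2 : (gcol x' / wd h i) % NI h i = m := by
      rw [h1]
      have : gcol x / wd h (i + 1) * wd h (i + 1) + m * wd h i =
          (m + gcol x / wd h (i + 1) * NI h i) * wd h i := by
        show _ * (NI h i * wd h i) + _ = _
        ring
      rw [this, Nat.mul_div_cancel _ hwi, Nat.add_mul_mod_self_right, Nat.mod_eq_of_lt m.2]
    have h3 : (⟨(gcol x' / wd h i) % NI h i, Nat.mod_lt _ (NI_pos h i)⟩ : Fin (NI h i)) =
        m := Fin.ext h2
    rw [h3, hm]

lemma div_succ_of_div {i : ℕ} {x y : ℕ} (hxy : x / wd h i = y / wd h i) :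
    x / wd h (i + 1) = y / wd h (i + 1) := by
  show x / (NI h i * wd h i) = y / (NI h i * wd h i)
  rw [Nat.mul_comm, ← Nat.div_div_eq_div_mul, ← Nat.div_div_eq_div_mul, hxy]

/-- exactly one element in the last column -/
def OneIn (M : Str (Fin 5) (Fin 2)) (X : Set M.A) : Prop :=
  ∃ x : M.A, (x ∈ X ∧ ¬ ∃ t : M.A, M.bin 0 x t) ∧
    ∀ y : M.A, (y ∈ X ∧ ¬ ∃ t : M.A, M.bin 0 y t) → y = x

lemma last_iff (x : SCell (L * wd h j) (wd h j) h) :
    (¬ ∃ t : SCell (L * wd h j) (wd h j) h, (nstr h j L ne u v).bin 0 x t) ↔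
      gcol x + 1 = L * wd h j + wd h j := by
  constructor
  · intro h1
    by_contra h2
    have := gcol_lt x
    obtain ⟨z, hz1, hz2⟩ := exists_scell (a := L * wd h j) (w := wd h j) (h := h)
      (c := gcol x + 1) (r := grow x) (by omega) (grow_lt x)
    exact h1 ⟨z, (bin0 x z).2 ⟨hz2.symm, hz1⟩⟩
  · rintro h1 ⟨t, ht⟩
    have h2 := ((bin0 x t).1 ht).2
    have h3 := gcol_lt t
    omega

lemma oneIn_row (hh : 0 < h) (r : Fin h) :
    OneIn (nstr h j L ne u v) {z : SCell (L * wd h j) (wd h j) h | grow z = r} := by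
  have hw := wd_pos hh j
  obtain ⟨z, hz1, hz2⟩ := exists_scell (a := L * wd h j) (w := wd h j) (h := h)
    (c := L * wd h j + wd h j - 1) (r := r) (by omega) r.2
  refine ⟨z, ⟨hz2, (last_iff z).2 (by omega)⟩, ?_⟩
  rintro y ⟨h1, h2⟩
  have h1' : grow (y : SCell (L * wd h j) (wd h j) h) = r := h1
  have h2' := (last_iff y).1 h2
  exact scell_ext (by omega) (by omega)

lemma oneIn_line (hh : 0 < h) {X : Set (SCell (L * wd h j) (wd h j) h)}
    (hX : Cl (nstr h j L ne u v) 0 X) (h1 : OneIn (nstr h j L ne u v) X) :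
    ∃ r : ℕ, ∀ x : SCell (L * wd h j) (wd h j) h, x ∈ X ↔ grow x = r := by
  have hw := wd_pos hh j
  obtain ⟨a, ⟨haX, _⟩, ha⟩ := h1
  refine ⟨grow (a : SCell (L * wd h j) (wd h j) h), fun x => ⟨fun hx => ?_, fun hx => ?_⟩⟩
  · obtain ⟨z, hz1, hz2⟩ := exists_scell (a := L * wd h j) (w := wd h j) (h := h)
      (c := L * wd h j + wd h j - 1) (r := grow x) (by omega) (grow_lt x)
    have h2 : z ∈ X := (closedH hX hz2).2 hx
    have h3 : z = a := ha z ⟨h2, (last_iff z).2 (by omega)⟩
    rw [← h3, hz2]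
  · exact (closedH hX hx).2 haX

end strip

end Pool.Agent.Lib_helper60.MonPH
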