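import Pool.Agent.Lib_helper60.MonPH.Dfi

/-!
# Monadic PSPACE with parameters on ordered structures, and its closure properties
-/

namespace Pool.Agent.Lib_helper60.MonPH

open Pool.Agent.Lib_helper60.MonPP

variable {U B : Type}

/-- definable without element variables -/
def D0 (ι : Type) [Finite ι] (R : (M : Str U B) → (ι → Set M.A) → Prop) : Prop :=
  DI 0 ι (fun M _ S => R M S)

/-- the reachability relation of a machine -/
def Run {ι κ : Type} (M : Str U B) (I F : (ι ⊕ κ → Set M.A) → Prop)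
    (St : (ι ⊕ (κ ⊕ κ) → Set M.A) → Prop) (S : ι → Set M.A) : Prop :=
  ∃ C E : κ → Set M.A, I (Sum.elim S C) ∧ F (Sum.elim S E) ∧
    Relation.ReflTransGen (fun C E => St (Sum.elim S (Sum.elim C E))) C E

/-- monadic PSPACE with parameters, on ordered structures -/
def PS (ι : Type) [Finite ι] (R : (M : Str U (Option B)) → (ι → Set M.A) → Prop) : Prop :=
  ∃ (κ : Type) (_ : Finite κ) (I F : (M : Str U (Option B)) → (ι ⊕ κ → Set M.A) → Prop)
    (St : (M : Str U (Option B)) → (ι ⊕ (κ ⊕ κ) → Set M.A) → Prop),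
    D0 _ I ∧ D0 _ F ∧ D0 _ St ∧ ∀ M : Str U (Option B), Ord M → ∀ S : ι → Set M.A,
      R M S ↔ Run M (I M) (F M) (St M) S

variable {ι ι' : Type} [Finite ι] [Finite ι']
  {R R' : (M : Str U (Option B)) → (ι → Set M.A) → Prop}

lemma PS.of_iff (h : PS ι R) (hR : ∀ M, Ord M → ∀ S, R M S ↔ R' M S) : PS ι R' := by
  obtain ⟨κ, hκ, I, F, St, h1, h2, h3, h4⟩ := h
  exact ⟨κ, hκ, I, F, St, h1, h2, h3, fun M hM S => (hR M hM S).symm.trans (h4 M hM S)⟩

lemma PS.fo (h : D0 ι R) : PS ι R := by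
  refine ⟨Empty, inferInstance, fun M S => R M (S ∘ Sum.inl), fun _ _ => True,
    fun _ _ => False, DI.ren h (Sum.inl : ι → ι ⊕ Empty), DI.const True, DI.const False,
    fun M _ S => ?_⟩
  constructor
  · intro h1
    exact ⟨Empty.elim, Empty.elim, h1, trivial, .refl⟩
  · rintro ⟨C, E, h1, _, _⟩
    exact h1

lemma PS.ren (h : PS ι R) (g : ι → ι') : PS ι' (fun M S => R M (S ∘ g)) := by
  obtain ⟨κ, hκ, I, F, St, h1, h2, h3, h4⟩ := h
  refine ⟨κ, hκ, fun M W => I M (W ∘ Sum.map g id), fun M W => F M (W ∘ Sum.map g id),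
    fun M W => St M (W ∘ Sum.map g id), DI.ren h1 _, DI.ren h2 _, DI.ren h3 _,
    fun M hM S => ?_⟩
  show R M (S ∘ g) ↔ _
  rw [h4 M hM (S ∘ g)]
  have e1 : ∀ C : κ → Set M.A, (Sum.elim S C : ι' ⊕ κ → Set M.A) ∘ Sum.map g id =
      Sum.elim (S ∘ g) C := by
    intro C
    funext x
    rcases x with x | x <;> rfl
  have e2 : ∀ C : κ ⊕ κ → Set M.A, (Sum.elim S C : ι' ⊕ (κ ⊕ κ) → Set M.A) ∘ Sum.map g id =
      Sum.elim (S ∘ g) C := by
    intro C
    funext x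
    rcases x with x | x <;> rfl
  unfold Run
  simp only [e1, e2]

/-- moving the quantified sets into the configuration -/
def asc (ι κ J : Type) : (ι ⊕ J) ⊕ κ → ι ⊕ (J ⊕ κ)
  | .inl (.inl i) => .inl i
  | .inl (.inr t) => .inr (.inl t)
  | .inr c => .inr (.inr c)

/-- the first configuration of a step -/
def asc1 (ι κ J : Type) : (ι ⊕ J) ⊕ κ → ι ⊕ ((J ⊕ κ) ⊕ (J ⊕ κ))
  | .inl (.inl i) => .inl i
  | .inl (.inr t) => .inr (.inl (.inl t))
  | .inr c => .inr (.inl (.inr c))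

/-- the second configuration of a step -/
def asc2 (ι κ J : Type) : (ι ⊕ J) ⊕ κ → ι ⊕ ((J ⊕ κ) ⊕ (J ⊕ κ))
  | .inl (.inl i) => .inl i
  | .inl (.inr t) => .inr (.inr (.inl t))
  | .inr c => .inr (.inr (.inr c))

/-- the inner step, with the sets of the first configuration -/
def asc3 (ι κ J : Type) :
    (ι ⊕ J) ⊕ (κ ⊕ κ) → ι ⊕ ((J ⊕ κ) ⊕ (J ⊕ κ))
  | .inl (.inl i) => .inl i
  | .inl (.inr t) => .inr (.inl (.inl t))
  | .inr (.inl c) => .inr (.inl (.inr c))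
  | .inr (.inr c) => .inr (.inr (.inr c))

/-- the sets of the first configuration -/
def fst1 (ι κ J : Type) (t : J) : ι ⊕ ((J ⊕ κ) ⊕ (J ⊕ κ)) :=
  .inr (.inl (.inl t))

/-- the sets of the second configuration -/
def snd1 (ι κ J : Type) (t : J) : ι ⊕ ((J ⊕ κ) ⊕ (J ⊕ κ)) :=
  .inr (.inr (.inl t))

section asc

omit [Finite ι]

variable {κ J : Type} {A : Type} (S : ι → Set A) (T T' : J → Set A)
  (C C' : κ → Set A)

lemma asc_spec : (Sum.elim S (Sum.elim T C) : ι ⊕ (J ⊕ κ) → Set A) ∘ asc ι κ J =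
    Sum.elim (Sum.elim S T) C := by
  funext x
  rcases x with (x | x) | x <;> rfl

lemma asc1_spec : (Sum.elim S (Sum.elim (Sum.elim T C) (Sum.elim T' C')) :
    ι ⊕ ((J ⊕ κ) ⊕ (J ⊕ κ)) → Set A) ∘ asc1 ι κ J =
    Sum.elim (Sum.elim S T) C := by
  funext x
  rcases x with (x | x) | x <;> rfl

lemma asc2_spec : (Sum.elim S (Sum.elim (Sum.elim T C) (Sum.elim T' C')) :
    ι ⊕ ((J ⊕ κ) ⊕ (J ⊕ κ)) → Set A) ∘ asc2 ι κ J =
    Sum.elim (Sum.elim S T') C' := by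
  funext x
  rcases x with (x | x) | x <;> rfl

lemma asc3_spec : (Sum.elim S (Sum.elim (Sum.elim T C) (Sum.elim T' C')) :
    ι ⊕ ((J ⊕ κ) ⊕ (J ⊕ κ)) → Set A) ∘ asc3 ι κ J =
    Sum.elim (Sum.elim S T) (Sum.elim C C') := by
  funext x
  rcases x with (x | x) | (x | x) <;> rfl

lemma fst1_spec : (Sum.elim S (Sum.elim (Sum.elim T C) (Sum.elim T' C')) :
    ι ⊕ ((J ⊕ κ) ⊕ (J ⊕ κ)) → Set A) ∘ fst1 ι κ J = T := rfl

lemma snd1_spec : (Sum.elim S (Sum.elim (Sum.elim T C) (Sum.elim T' C')) :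
    ι ⊕ ((J ⊕ κ) ⊕ (J ⊕ κ)) → Set A) ∘ snd1 ι κ J = T' := rfl

/-- configurations as pairs -/
def cfgE (κ J : Type) (A : Type) :
    (J ⊕ κ → Set A) ≃ (J → Set A) × (κ → Set A) where
  toFun W := (W ∘ Sum.inl, W ∘ Sum.inr)
  invFun p := Sum.elim p.1 p.2
  left_inv W := by
    funext x
    rcases x with x | x <;> rfl
  right_inv p := rfl

end asc

/-- transport of reachability along an equivalence of configurations -/
lemma rtg_equiv {D D' : Type} (e : D ≃ D') (r : D → D → Prop) (r' : D' → D' → Prop)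
    (h : ∀ a b, r' a b ↔ r (e.symm a) (e.symm b)) (a b : D') :
    Relation.ReflTransGen r (e.symm a) (e.symm b) ↔ Relation.ReflTransGen r' a b := by
  constructor
  · intro hr
    have key : ∀ c : D, Relation.ReflTransGen r (e.symm a) c →
        Relation.ReflTransGen r' a (e c) := by
      intro c hc
      induction hc with
      | refl => rw [Equiv.apply_symm_apply]
      | tail _ hs ih =>
        refine ih.tail ((h _ _).2 ?_)
        rw [Equiv.symm_apply_apply, Equiv.symm_apply_apply]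
        exact hs
    have := key _ hr
    rwa [Equiv.apply_symm_apply] at this
  · intro hr
    induction hr with
    | refl => exact .refl
    | tail _ hs ih => exact ih.tail ((h _ _).1 hs)

theorem PS.exS {J : Type} [Finite J] {R : (M : Str U (Option B)) → (ι ⊕ J → Set M.A) → Prop}
    (h : PS (ι ⊕ J) R) :
    PS ι (fun M S => ∃ T : J → Set M.A, R M (Sum.elim S T)) := by
  obtain ⟨κ, hκ, I, F, St, h1, h2, h3, h4⟩ := h
  refine ⟨J ⊕ κ, inferInstance, fun M W => I M (W ∘ asc ι κ J),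
    fun M W => F M (W ∘ asc ι κ J),
    fun M W => W ∘ snd1 ι κ J = W ∘ fst1 ι κ J ∧ St M (W ∘ asc3 ι κ J),
    DI.ren h1 _, DI.ren h2 _, (DI_tupEq _ _).and (DI.ren h3 _), fun M hM S => ?_⟩
  -- steps
  have hst : ∀ (T T' : J → Set M.A) (C C' : κ → Set M.A),
      ((Sum.elim S (Sum.elim (Sum.elim T C) (Sum.elim T' C')) :
        ι ⊕ ((J ⊕ κ) ⊕ (J ⊕ κ)) → Set M.A) ∘ snd1 ι κ J =
        (Sum.elim S (Sum.elim (Sum.elim T C) (Sum.elim T' C'))) ∘ fst1 ι κ J ∧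
      St M ((Sum.elim S (Sum.elim (Sum.elim T C) (Sum.elim T' C'))) ∘ asc3 ι κ J)) ↔
      T' = T ∧ St M (Sum.elim (Sum.elim S T) (Sum.elim C C')) := by
    intro T T' C C'
    rw [asc3_spec, fst1_spec, snd1_spec]
  constructor
  · rintro ⟨T, hT⟩
    rw [h4 M hM] at hT
    obtain ⟨C, E, hI, hF, hr⟩ := hT
    refine ⟨Sum.elim T C, Sum.elim T E, ?_, ?_, ?_⟩
    · show I M (_ ∘ asc ι κ J)
      rw [asc_spec]; exact hI
    · show F M (_ ∘ asc ι κ J)
      rw [asc_spec]; exact hF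
    · clear hI hF
      induction hr with
      | refl => exact .refl
      | @tail b c _ hs ih => exact ih.tail ((hst T T b c).2 ⟨rfl, hs⟩)
  · rintro ⟨W, W', hI, hF, hr⟩
    have hinv : ∀ W' : J ⊕ κ → Set M.A, Relation.ReflTransGen
        (fun C E => (fun (M : Str U (Option B)) (W : ι ⊕ ((J ⊕ κ) ⊕ (J ⊕ κ)) → Set M.A) =>
          W ∘ snd1 ι κ J = W ∘ fst1 ι κ J ∧ St M (W ∘ asc3 ι κ J)) M
          (Sum.elim S (Sum.elim C E))) W W' →
        W' ∘ Sum.inl = W ∘ Sum.inl ∧ Relation.ReflTransGen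
          (fun C E => St M (Sum.elim (Sum.elim S (W ∘ Sum.inl)) (Sum.elim C E)))
          (W ∘ Sum.inr) (W' ∘ Sum.inr) := by
      intro W' hr
      induction hr with
      | refl => exact ⟨rfl, .refl⟩
      | @tail b c _ hs ih =>
        have hb : b = Sum.elim (b ∘ Sum.inl) (b ∘ Sum.inr) := (cfgE κ J M.A).left_inv b |>.symm
        have hc : c = Sum.elim (c ∘ Sum.inl) (c ∘ Sum.inr) := (cfgE κ J M.A).left_inv c |>.symm
        rw [hb, hc] at hs
        have hs' := (hst _ _ _ _).1 hs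
        refine ⟨hs'.1.trans ih.1, ih.2.tail ?_⟩
        rw [← ih.1]
        exact hs'.2
    obtain ⟨h5, h6⟩ := hinv _ hr
    have hW : W = Sum.elim (W ∘ Sum.inl) (W ∘ Sum.inr) := (cfgE κ J M.A).left_inv W |>.symm
    have hW' : W' = Sum.elim (W' ∘ Sum.inl) (W' ∘ Sum.inr) := (cfgE κ J M.A).left_inv W' |>.symm
    refine ⟨W ∘ Sum.inl, (h4 M hM _).2 ⟨W ∘ Sum.inr, W' ∘ Sum.inr, ?_, ?_, h6⟩⟩
    · have hI' : I M (Sum.elim S W ∘ asc ι κ J) := hI
      rw [hW, asc_spec] at hI'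
      exact hI'
    · have hF' : F M (Sum.elim S W' ∘ asc ι κ J) := hF
      rw [hW', asc_spec, h5] at hF'
      exact hF'

theorem PS.allS {l : ℕ} {R : (M : Str U (Option B)) → (ι ⊕ Fin l → Set M.A) → Prop}
    (h : PS (ι ⊕ Fin l) R) :
    PS ι (fun M S => ∀ T : Fin l → Set M.A, R M (Sum.elim S T)) := by
  obtain ⟨κ, hκ, I, F, St, h1, h2, h3, h4⟩ := h
  refine ⟨Fin l ⊕ κ, inferInstance,
    fun M W => W ∘ (fun t : Fin l => (.inr (.inl t) : ι ⊕ (Fin l ⊕ κ))) = (fun _ => ∅) ∧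
      I M (W ∘ asc ι κ (Fin l)),
    fun M W => W ∘ (fun t : Fin l => (.inr (.inl t) : ι ⊕ (Fin l ⊕ κ))) = (fun _ => Set.univ) ∧
      F M (W ∘ asc ι κ (Fin l)),
    fun M W => (W ∘ snd1 ι κ (Fin l) = W ∘ fst1 ι κ (Fin l) ∧ St M (W ∘ asc3 ι κ (Fin l))) ∨
      (TS M l (W ∘ fst1 ι κ (Fin l)) (W ∘ snd1 ι κ (Fin l)) ∧ F M (W ∘ asc1 ι κ (Fin l)) ∧ I M (W ∘ asc2 ι κ (Fin l))),
    (DI_empty _).and (DI.ren h1 _), (DI_univ _).and (DI.ren h2 _),
    ((DI_tupEq _ _).and (DI.ren h3 _)).or ((DI_TS _ _).and ((DI.ren h2 _).and (DI.ren h1 _))),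
    fun M hM S => ?_⟩
  have hc := set_chain hM l
  have key := reach_forall hc (D := κ → Set M.A)
    (fun T C => I M (Sum.elim (Sum.elim S T) C)) (fun T C => F M (Sum.elim (Sum.elim S T) C))
    (fun T C C' => St M (Sum.elim (Sum.elim S T) (Sum.elim C C')))
  have hall : (∀ T : Fin l → Set M.A, R M (Sum.elim S T)) ↔
      ∀ T : Fin l → Set M.A, ∃ C E : κ → Set M.A, I M (Sum.elim (Sum.elim S T) C) ∧
        F M (Sum.elim (Sum.elim S T) E) ∧
        Relation.ReflTransGen (fun C C' => St M (Sum.elim (Sum.elim S T) (Sum.elim C C'))) C E :=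
    forall_congr' fun T => h4 M hM _
  refine hall.trans (key.symm.trans ?_)
  have htr : ∀ a b : (Fin l → Set M.A) × (κ → Set M.A), _ := fun a b =>
    rtg_equiv (cfgE κ (Fin l) M.A)
      (fun C E => (fun (M : Str U (Option B)) (W : ι ⊕ ((Fin l ⊕ κ) ⊕ (Fin l ⊕ κ)) → Set M.A) =>
        (W ∘ snd1 ι κ (Fin l) = W ∘ fst1 ι κ (Fin l) ∧ St M (W ∘ asc3 ι κ (Fin l))) ∨
        (TS M l (W ∘ fst1 ι κ (Fin l)) (W ∘ snd1 ι κ (Fin l)) ∧ F M (W ∘ asc1 ι κ (Fin l)) ∧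
          I M (W ∘ asc2 ι κ (Fin l)))) M (Sum.elim S (Sum.elim C E)))
      (stB (TS M l) (fun T C => I M (Sum.elim (Sum.elim S T) C))
        (fun T C => F M (Sum.elim (Sum.elim S T) C))
        (fun T C C' => St M (Sum.elim (Sum.elim S T) (Sum.elim C C'))))
      (by
        rintro ⟨T, C⟩ ⟨T', C'⟩
        show _ ↔ ((_ ∘ snd1 ι κ (Fin l) = _ ∘ fst1 ι κ (Fin l) ∧ St M (_ ∘ asc3 ι κ (Fin l))) ∨
          (TS M l (_ ∘ fst1 ι κ (Fin l)) (_ ∘ snd1 ι κ (Fin l)) ∧ F M (_ ∘ asc1 ι κ (Fin l)) ∧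
          I M (_ ∘ asc2 ι κ (Fin l))))
        show _ ↔ (((Sum.elim S (Sum.elim (Sum.elim T C) (Sum.elim T' C'))) ∘ snd1 ι κ (Fin l) =
          (Sum.elim S (Sum.elim (Sum.elim T C) (Sum.elim T' C'))) ∘ fst1 ι κ (Fin l) ∧
          St M ((Sum.elim S (Sum.elim (Sum.elim T C) (Sum.elim T' C'))) ∘ asc3 ι κ (Fin l))) ∨
          (TS M l ((Sum.elim S (Sum.elim (Sum.elim T C) (Sum.elim T' C'))) ∘ fst1 ι κ (Fin l))
            ((Sum.elim S (Sum.elim (Sum.elim T C) (Sum.elim T' C'))) ∘ snd1 ι κ (Fin l)) ∧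
          F M ((Sum.elim S (Sum.elim (Sum.elim T C) (Sum.elim T' C'))) ∘ asc1 ι κ (Fin l)) ∧
          I M ((Sum.elim S (Sum.elim (Sum.elim T C) (Sum.elim T' C'))) ∘ asc2 ι κ (Fin l))))
        rw [asc1_spec, asc2_spec, asc3_spec, fst1_spec, snd1_spec]
        exact Iff.rfl) a b
  constructor
  · rintro ⟨C, E, hI, hF, hr⟩
    refine ⟨Sum.elim (fun _ => ∅) C, Sum.elim (fun _ => Set.univ) E, ⟨rfl, ?_⟩, ⟨rfl, ?_⟩,
      (htr _ _).2 hr⟩
    · rw [asc_spec]; exact hI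
    · rw [asc_spec]; exact hF
  · rintro ⟨W, W', ⟨hW1, hI⟩, ⟨hW2, hF⟩, hr⟩
    obtain ⟨⟨T, C⟩, rfl⟩ := (cfgE κ (Fin l) M.A).symm.surjective W
    obtain ⟨⟨T', E⟩, rfl⟩ := (cfgE κ (Fin l) M.A).symm.surjective W'
    have e1 : T = fun _ => ∅ := hW1
    have e2 : T' = fun _ => Set.univ := hW2
    subst e1 e2
    refine ⟨C, E, ?_, ?_, (htr _ _).1 hr⟩
    · have hI' : I M ((Sum.elim S (Sum.elim (fun _ => ∅) C)) ∘ asc ι κ (Fin l)) := hI
      rw [asc_spec] at hI'; exact hI'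
    · have hF' : F M ((Sum.elim S (Sum.elim (fun _ => Set.univ) E)) ∘ asc ι κ (Fin l)) := hF
      rw [asc_spec] at hF'; exact hF'

end Pool.Agent.Lib_helper60.MonPH
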