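import Pool.Agent.Lib_helper60.MonPH.PS

/-!
# More closure properties of monadic PSPACE: conjunction, disjunction, transitive closure
-/

namespace Pool.Agent.Lib_helper60.MonPH

open Pool.Agent.Lib_helper60.MonPP Relation

variable {U B : Type}

section product

variable {D1 D2 : Type} (r1 : D1 → D1 → Prop) (r2 : D2 → D2 → Prop)

/-- asynchronous product -/
def aprod (p q : D1 × D2) : Prop := (r1 p.1 q.1 ∧ q.2 = p.2) ∨ (q.1 = p.1 ∧ r2 p.2 q.2)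

lemma rtg_aprod (p q : D1 × D2) : ReflTransGen (aprod r1 r2) p q ↔
    ReflTransGen r1 p.1 q.1 ∧ ReflTransGen r2 p.2 q.2 := by
  constructor
  · intro h
    induction h with
    | refl => exact ⟨.refl, .refl⟩
    | tail _ hs ih =>
      rcases hs with ⟨h1, h2⟩ | ⟨h1, h2⟩
      · exact ⟨ih.1.tail h1, by rw [h2]; exact ih.2⟩
      · exact ⟨by rw [h1]; exact ih.1, ih.2.tail h2⟩
  · obtain ⟨p1, p2⟩ := p
    obtain ⟨q1, q2⟩ := q
    rintro ⟨h1, h2⟩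
    have e1 : ∀ {x : D1}, ReflTransGen r1 p1 x → ReflTransGen (aprod r1 r2) (p1, p2) (x, p2) := by
      intro x h
      induction h with
      | refl => exact .refl
      | tail _ hs ih => exact ih.tail (Or.inl ⟨hs, rfl⟩)
    have e2 : ∀ {x : D2}, ReflTransGen r2 p2 x → ReflTransGen (aprod r1 r2) (q1, p2) (q1, x) := by
      intro x h
      induction h with
      | refl => exact .refl
      | tail _ hs ih => exact ih.tail (Or.inr ⟨rfl, hs⟩)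
    exact (e1 h1).trans (e2 h2)

end product

section maps

variable (ι κ1 κ2 : Type)

/-- first machine, one configuration -/
def p1 : ι ⊕ κ1 → ι ⊕ (κ1 ⊕ κ2)
  | .inl i => .inl i
  | .inr c => .inr (.inl c)

/-- second machine, one configuration -/
def p2 : ι ⊕ κ2 → ι ⊕ (κ1 ⊕ κ2)
  | .inl i => .inl i
  | .inr c => .inr (.inr c)

/-- first machine, two configurations -/
def q1 : ι ⊕ (κ1 ⊕ κ1) → ι ⊕ ((κ1 ⊕ κ2) ⊕ (κ1 ⊕ κ2))
  | .inl i => .inl i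
  | .inr (.inl c) => .inr (.inl (.inl c))
  | .inr (.inr c) => .inr (.inr (.inl c))

/-- second machine, two configurations -/
def q2 : ι ⊕ (κ2 ⊕ κ2) → ι ⊕ ((κ1 ⊕ κ2) ⊕ (κ1 ⊕ κ2))
  | .inl i => .inl i
  | .inr (.inl c) => .inr (.inl (.inr c))
  | .inr (.inr c) => .inr (.inr (.inr c))

/-- first part of the first configuration -/
def a1 (c : κ1) : ι ⊕ ((κ1 ⊕ κ2) ⊕ (κ1 ⊕ κ2)) := .inr (.inl (.inl c))
/-- first part of the second configuration -/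
def b1 (c : κ1) : ι ⊕ ((κ1 ⊕ κ2) ⊕ (κ1 ⊕ κ2)) := .inr (.inr (.inl c))
/-- second part of the first configuration -/
def a2 (c : κ2) : ι ⊕ ((κ1 ⊕ κ2) ⊕ (κ1 ⊕ κ2)) := .inr (.inl (.inr c))
/-- second part of the second configuration -/
def b2 (c : κ2) : ι ⊕ ((κ1 ⊕ κ2) ⊕ (κ1 ⊕ κ2)) := .inr (.inr (.inr c))

variable {ι κ1 κ2} {A : Type} (S : ι → Set A) (C C' : κ1 → Set A) (E E' : κ2 → Set A)

lemma p1_spec : (Sum.elim S (Sum.elim C E) : ι ⊕ (κ1 ⊕ κ2) → Set A) ∘ p1 ι κ1 κ2 =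
    Sum.elim S C := by
  funext x; rcases x with x | x <;> rfl

lemma p2_spec : (Sum.elim S (Sum.elim C E) : ι ⊕ (κ1 ⊕ κ2) → Set A) ∘ p2 ι κ1 κ2 =
    Sum.elim S E := by
  funext x; rcases x with x | x <;> rfl

lemma q1_spec : (Sum.elim S (Sum.elim (Sum.elim C E) (Sum.elim C' E')) :
    ι ⊕ ((κ1 ⊕ κ2) ⊕ (κ1 ⊕ κ2)) → Set A) ∘ q1 ι κ1 κ2 = Sum.elim S (Sum.elim C C') := by
  funext x; rcases x with x | (x | x) <;> rfl

lemma q2_spec : (Sum.elim S (Sum.elim (Sum.elim C E) (Sum.elim C' E')) :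
    ι ⊕ ((κ1 ⊕ κ2) ⊕ (κ1 ⊕ κ2)) → Set A) ∘ q2 ι κ1 κ2 = Sum.elim S (Sum.elim E E') := by
  funext x; rcases x with x | (x | x) <;> rfl

end maps

variable {ι : Type} [Finite ι] {R R' : (M : Str U (Option B)) → (ι → Set M.A) → Prop}

theorem PS.and (h : PS ι R) (h' : PS ι R') : PS ι (fun M S => R M S ∧ R' M S) := by
  obtain ⟨κ1, hκ1, I1, F1, St1, i1, f1, s1, h1⟩ := h
  obtain ⟨κ2, hκ2, I2, F2, St2, i2, f2, s2, h2⟩ := h'
  refine ⟨κ1 ⊕ κ2, inferInstance,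
    fun M W => I1 M (W ∘ p1 ι κ1 κ2) ∧ I2 M (W ∘ p2 ι κ1 κ2),
    fun M W => F1 M (W ∘ p1 ι κ1 κ2) ∧ F2 M (W ∘ p2 ι κ1 κ2),
    fun M W => (St1 M (W ∘ q1 ι κ1 κ2) ∧ W ∘ b2 ι κ1 κ2 = W ∘ a2 ι κ1 κ2) ∨
      (W ∘ b1 ι κ1 κ2 = W ∘ a1 ι κ1 κ2 ∧ St2 M (W ∘ q2 ι κ1 κ2)),
    (DI.ren i1 _).and (DI.ren i2 _), (DI.ren f1 _).and (DI.ren f2 _),
    ((DI.ren s1 _).and (DI_tupEq _ _)).or ((DI_tupEq _ _).and (DI.ren s2 _)),
    fun M hM S => ?_⟩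
  have htr : ∀ a b : (κ1 → Set M.A) × (κ2 → Set M.A), _ := fun a b =>
    rtg_equiv (cfgE κ2 κ1 M.A)
      (fun C E => (fun (M : Str U (Option B))
        (W : ι ⊕ ((κ1 ⊕ κ2) ⊕ (κ1 ⊕ κ2)) → Set M.A) =>
        (St1 M (W ∘ q1 ι κ1 κ2) ∧ W ∘ b2 ι κ1 κ2 = W ∘ a2 ι κ1 κ2) ∨
      (W ∘ b1 ι κ1 κ2 = W ∘ a1 ι κ1 κ2 ∧ St2 M (W ∘ q2 ι κ1 κ2))) M
        (Sum.elim S (Sum.elim C E)))
      (aprod (fun C C' => St1 M (Sum.elim S (Sum.elim C C')))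
        (fun E E' => St2 M (Sum.elim S (Sum.elim E E'))))
      (by
        rintro ⟨C, E⟩ ⟨C', E'⟩
        show _ ↔ ((St1 M ((Sum.elim S (Sum.elim (Sum.elim C E) (Sum.elim C' E'))) ∘
            q1 ι κ1 κ2) ∧
          (Sum.elim S (Sum.elim (Sum.elim C E) (Sum.elim C' E'))) ∘ b2 ι κ1 κ2 =
            (Sum.elim S (Sum.elim (Sum.elim C E) (Sum.elim C' E'))) ∘ a2 ι κ1 κ2) ∨
          ((Sum.elim S (Sum.elim (Sum.elim C E) (Sum.elim C' E'))) ∘ b1 ι κ1 κ2 =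
            (Sum.elim S (Sum.elim (Sum.elim C E) (Sum.elim C' E'))) ∘ a1 ι κ1 κ2 ∧
            St2 M ((Sum.elim S (Sum.elim (Sum.elim C E) (Sum.elim C' E'))) ∘ q2 ι κ1 κ2)))
        rw [q1_spec, q2_spec]
        exact Iff.rfl) a b
  show (R M S ∧ R' M S) ↔ _
  rw [h1 M hM, h2 M hM]
  constructor
  · rintro ⟨⟨C, C', hI, hF, hr⟩, ⟨E, E', hI', hF', hr'⟩⟩
    refine ⟨Sum.elim C E, Sum.elim C' E', ⟨?_, ?_⟩, ⟨?_, ?_⟩,
      (htr (C, E) (C', E')).2 ((rtg_aprod _ _ _ _).2 ⟨hr, hr'⟩)⟩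
    · rw [p1_spec]; exact hI
    · rw [p2_spec]; exact hI'
    · rw [p1_spec]; exact hF
    · rw [p2_spec]; exact hF'
  · rintro ⟨W, W', ⟨hI, hI'⟩, ⟨hF, hF'⟩, hr⟩
    obtain ⟨⟨C, E⟩, rfl⟩ := (cfgE κ2 κ1 M.A).symm.surjective W
    obtain ⟨⟨C', E'⟩, rfl⟩ := (cfgE κ2 κ1 M.A).symm.surjective W'
    have hr2 := (rtg_aprod _ _ _ _).1 ((htr (C, E) (C', E')).1 hr)
    refine ⟨⟨C, C', ?_, ?_, hr2.1⟩, ⟨E, E', ?_, ?_, hr2.2⟩⟩
    · have : I1 M ((Sum.elim S (Sum.elim C E)) ∘ p1 ι κ1 κ2) := hI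
      rw [p1_spec] at this; exact this
    · have : F1 M ((Sum.elim S (Sum.elim C' E')) ∘ p1 ι κ1 κ2) := hF
      rw [p1_spec] at this; exact this
    · have : I2 M ((Sum.elim S (Sum.elim C E)) ∘ p2 ι κ1 κ2) := hI'
      rw [p2_spec] at this; exact this
    · have : F2 M ((Sum.elim S (Sum.elim C' E')) ∘ p2 ι κ1 κ2) := hF'
      rw [p2_spec] at this; exact this

/-- disjunction: the condition `Z` decides which machine runs -/
theorem PS.ite {Z : (M : Str U (Option B)) → (ι → Set M.A) → Prop} (hZ : D0 ι Z)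
    (h : PS ι R) (h' : PS ι R') :
    PS ι (fun M S => (Z M S ∧ R M S) ∨ (¬ Z M S ∧ R' M S)) := by
  obtain ⟨κ1, hκ1, I1, F1, St1, i1, f1, s1, h1⟩ := h
  obtain ⟨κ2, hκ2, I2, F2, St2, i2, f2, s2, h2⟩ := h'
  have z1 : D0 (ι ⊕ (κ1 ⊕ κ2)) (fun (M : Str U (Option B)) W => Z M (W ∘ Sum.inl)) :=
    DI.ren hZ (Sum.inl : ι → ι ⊕ (κ1 ⊕ κ2))
  have z2 : D0 (ι ⊕ ((κ1 ⊕ κ2) ⊕ (κ1 ⊕ κ2)))
      (fun (M : Str U (Option B)) W => Z M (W ∘ Sum.inl)) :=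
    DI.ren hZ (Sum.inl : ι → ι ⊕ ((κ1 ⊕ κ2) ⊕ (κ1 ⊕ κ2)))
  refine ⟨κ1 ⊕ κ2, inferInstance,
    fun M W => (Z M (W ∘ Sum.inl) ∧ I1 M (W ∘ p1 ι κ1 κ2)) ∨
      (¬ Z M (W ∘ Sum.inl) ∧ I2 M (W ∘ p2 ι κ1 κ2)),
    fun M W => (Z M (W ∘ Sum.inl) ∧ F1 M (W ∘ p1 ι κ1 κ2)) ∨
      (¬ Z M (W ∘ Sum.inl) ∧ F2 M (W ∘ p2 ι κ1 κ2)),
    fun M W => (Z M (W ∘ Sum.inl) ∧ St1 M (W ∘ q1 ι κ1 κ2)) ∨
      (¬ Z M (W ∘ Sum.inl) ∧ St2 M (W ∘ q2 ι κ1 κ2)),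
    (DI.and z1 (DI.ren i1 _)).or ((DI.neg z1).and (DI.ren i2 _)),
    (DI.and z1 (DI.ren f1 _)).or ((DI.neg z1).and (DI.ren f2 _)),
    (DI.and z2 (DI.ren s1 _)).or ((DI.neg z2).and (DI.ren s2 _)),
    fun M hM S => ?_⟩
  have htr : ∀ a b : (κ1 → Set M.A) × (κ2 → Set M.A), _ := fun a b =>
    rtg_equiv (cfgE κ2 κ1 M.A)
      (fun C E => (fun (M : Str U (Option B))
        (W : ι ⊕ ((κ1 ⊕ κ2) ⊕ (κ1 ⊕ κ2)) → Set M.A) =>
        (Z M (W ∘ Sum.inl) ∧ St1 M (W ∘ q1 ι κ1 κ2)) ∨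
      (¬ Z M (W ∘ Sum.inl) ∧ St2 M (W ∘ q2 ι κ1 κ2))) M
        (Sum.elim S (Sum.elim C E)))
      (fun p q => (Z M S ∧ St1 M (Sum.elim S (Sum.elim p.1 q.1))) ∨
        (¬ Z M S ∧ St2 M (Sum.elim S (Sum.elim p.2 q.2))))
      (by
        rintro ⟨C, E⟩ ⟨C', E'⟩
        show _ ↔ ((Z M S ∧ St1 M ((Sum.elim S (Sum.elim (Sum.elim C E) (Sum.elim C' E'))) ∘
            q1 ι κ1 κ2)) ∨ (¬ Z M S ∧
            St2 M ((Sum.elim S (Sum.elim (Sum.elim C E) (Sum.elim C' E'))) ∘ q2 ι κ1 κ2)))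
        rw [q1_spec, q2_spec]) a b
  show ((Z M S ∧ R M S) ∨ (¬ Z M S ∧ R' M S)) ↔ _
  rw [h1 M hM, h2 M hM]
  by_cases hz : Z M S
  · have hpair : ∀ p q : (κ1 → Set M.A) × (κ2 → Set M.A), ReflTransGen
        (fun p q => (Z M S ∧ St1 M (Sum.elim S (Sum.elim p.1 q.1))) ∨
        (¬ Z M S ∧ St2 M (Sum.elim S (Sum.elim p.2 q.2)))) p q →
        ReflTransGen (fun C C' => St1 M (Sum.elim S (Sum.elim C C'))) p.1 q.1 := by
      intro p q hr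
      induction hr with
      | refl => exact .refl
      | tail _ hs ih =>
        rcases hs with hs | hs
        · exact ih.tail hs.2
        · exact absurd hz hs.1
    constructor
    · rintro (⟨_, C, C', hI, hF, hr⟩ | ⟨hz', _⟩)
      · refine ⟨Sum.elim C (fun _ => ∅), Sum.elim C' (fun _ => ∅), Or.inl ⟨hz, ?_⟩,
          Or.inl ⟨hz, ?_⟩, (htr (C, fun _ => ∅) (C', fun _ => ∅)).2 ?_⟩
        · rw [p1_spec]; exact hI
        · rw [p1_spec]; exact hF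
        · clear hI hF
          induction hr with
          | refl => exact .refl
          | tail _ hs ih => exact ih.tail (Or.inl ⟨hz, hs⟩)
      · exact absurd hz hz'
    · rintro ⟨W, W', hI, hF, hr⟩
      obtain ⟨⟨C, E⟩, rfl⟩ := (cfgE κ2 κ1 M.A).symm.surjective W
      obtain ⟨⟨C', E'⟩, rfl⟩ := (cfgE κ2 κ1 M.A).symm.surjective W'
      refine Or.inl ⟨hz, C, C', ?_, ?_, hpair _ _ ((htr (C, E) (C', E')).1 hr)⟩
      · rcases hI with hI | hI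
        · have : I1 M ((Sum.elim S (Sum.elim C E)) ∘ p1 ι κ1 κ2) := hI.2
          rw [p1_spec] at this; exact this
        · exact absurd hz hI.1
      · rcases hF with hF | hF
        · have : F1 M ((Sum.elim S (Sum.elim C' E')) ∘ p1 ι κ1 κ2) := hF.2
          rw [p1_spec] at this; exact this
        · exact absurd hz hF.1
  · have hpair : ∀ p q : (κ1 → Set M.A) × (κ2 → Set M.A), ReflTransGen
        (fun p q => (Z M S ∧ St1 M (Sum.elim S (Sum.elim p.1 q.1))) ∨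
        (¬ Z M S ∧ St2 M (Sum.elim S (Sum.elim p.2 q.2)))) p q →
        ReflTransGen (fun C C' => St2 M (Sum.elim S (Sum.elim C C'))) p.2 q.2 := by
      intro p q hr
      induction hr with
      | refl => exact .refl
      | tail _ hs ih =>
        rcases hs with hs | hs
        · exact absurd hs.1 hz
        · exact ih.tail hs.2
    constructor
    · rintro (⟨hz', _⟩ | ⟨_, C, C', hI, hF, hr⟩)
      · exact absurd hz' hz
      · refine ⟨Sum.elim (fun _ => ∅) C, Sum.elim (fun _ => ∅) C', Or.inr ⟨hz, ?_⟩,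
          Or.inr ⟨hz, ?_⟩, (htr (fun _ => ∅, C) (fun _ => ∅, C')).2 ?_⟩
        · rw [p2_spec]; exact hI
        · rw [p2_spec]; exact hF
        · clear hI hF
          induction hr with
          | refl => exact .refl
          | tail _ hs ih => exact ih.tail (Or.inr ⟨hz, hs⟩)
    · rintro ⟨W, W', hI, hF, hr⟩
      obtain ⟨⟨C, E⟩, rfl⟩ := (cfgE κ2 κ1 M.A).symm.surjective W
      obtain ⟨⟨C', E'⟩, rfl⟩ := (cfgE κ2 κ1 M.A).symm.surjective W'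
      refine Or.inr ⟨hz, E, E', ?_, ?_, hpair _ _ ((htr (C, E) (C', E')).1 hr)⟩
      · rcases hI with hI | hI
        · exact absurd hI.1 hz
        · have : I2 M ((Sum.elim S (Sum.elim C E)) ∘ p2 ι κ1 κ2) := hI.2
          rw [p2_spec] at this; exact this
      · rcases hF with hF | hF
        · exact absurd hF.1 hz
        · have : F2 M ((Sum.elim S (Sum.elim C' E')) ∘ p2 ι κ1 κ2) := hF.2
          rw [p2_spec] at this; exact this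

theorem PS.or (h : PS ι R) (h' : PS ι R') : PS ι (fun M S => R M S ∨ R' M S) := by
  have hZ : D0 (ι ⊕ Fin 1) (fun (M : Str U (Option B)) (W : ι ⊕ Fin 1 → Set M.A) =>
      W ∘ Sum.inr = fun _ => ∅) := DI_empty (Sum.inr : Fin 1 → ι ⊕ Fin 1)
  have key := (PS.ite hZ (h.ren (Sum.inl : ι → ι ⊕ Fin 1))
    (h'.ren (Sum.inl : ι → ι ⊕ Fin 1))).exS
  refine key.of_iff fun M _ S => ?_
  have := M.ne
  constructor
  · rintro ⟨T, ⟨_, h1⟩ | ⟨_, h1⟩⟩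
    · exact Or.inl h1
    · exact Or.inr h1
  · rintro (h1 | h1)
    · exact ⟨fun _ => ∅, Or.inl ⟨rfl, h1⟩⟩
    · refine ⟨fun _ => Set.univ, Or.inr ⟨fun h2 => ?_, h1⟩⟩
      have h3 := congrFun h2 0
      exact Set.empty_ne_univ h3.symm

end Pool.Agent.Lib_helper60.MonPH
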