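import Pool.Agent.Lib_helper60.MonPH.PS2

/-!
# Monadic PSPACE is closed under transitive closure of relations between tuples of sets
-/

namespace Pool.Agent.Lib_helper60.MonPH

open Pool.Agent.Lib_helper60.MonPP Relation

variable {U B : Type}

section abs

variable {P D : Type} (i f : P → P → D → Prop) (st : P → P → D → D → Prop)

/-- the relation computed by the inner machine -/
def rel1 (X Y : P) : Prop := ∃ C E, i X Y C ∧ f X Y E ∧ ReflTransGen (st X Y) C E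

/-- steps of the iteration -/
def stT (c e : (P × P) × D) : Prop :=
  ((e.1.1 = c.1.1 ∧ e.1.2 = c.1.2) ∧ st c.1.1 c.1.2 c.2 e.2) ∨
    (f c.1.1 c.1.2 c.2 ∧ e.1.1 = c.1.2 ∧ i e.1.1 e.1.2 e.2)

theorem reach_tc (X0 Y0 : P) :
    (∃ c e : (P × P) × D, (c.1.1 = X0 ∧ i c.1.1 c.1.2 c.2) ∧
      (e.1.2 = Y0 ∧ f e.1.1 e.1.2 e.2) ∧ ReflTransGen (stT i f st) c e) ↔
      TransGen (rel1 i f st) X0 Y0 := by
  constructor
  · rintro ⟨c, e, ⟨h1, h2⟩, ⟨h3, h4⟩, hr⟩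
    have hinv : ∀ e, ReflTransGen (stT i f st) c e →
        (e.1.1 = X0 ∨ TransGen (rel1 i f st) X0 e.1.1) ∧
        ∃ C, i e.1.1 e.1.2 C ∧ ReflTransGen (st e.1.1 e.1.2) C e.2 := by
      intro e hr
      induction hr with
      | refl => exact ⟨Or.inl h1, c.2, h2, .refl⟩
      | @tail b e _ hs ih =>
        obtain ⟨hb, C, hC1, hC2⟩ := ih
        rcases hs with ⟨⟨e1, e2⟩, hs⟩ | ⟨hf, e1, hi⟩
        · rw [e1, e2]
          exact ⟨hb, C, hC1, hC2.tail hs⟩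
        · have hrel : rel1 i f st b.1.1 b.1.2 := ⟨C, b.2, hC1, hf, hC2⟩
          refine ⟨Or.inr ?_, e.2, hi, .refl⟩
          rw [e1]
          rcases hb with hb | hb
          · rw [← hb]; exact .single hrel
          · exact hb.tail hrel
    obtain ⟨h5, C, h6, h7⟩ := hinv e hr
    have hrel : rel1 i f st e.1.1 e.1.2 := ⟨C, e.2, h6, h4, h7⟩
    rw [← h3]
    rcases h5 with h5 | h5
    · rw [← h5]; exact .single hrel
    · exact h5.tail hrel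
  · intro h
    have hrun : ∀ {X Y : P} {C E : D}, ReflTransGen (st X Y) C E →
        ReflTransGen (stT i f st) ((X, Y), C) ((X, Y), E) := by
      intro X Y C E hr
      induction hr with
      | refl => exact .refl
      | tail _ hs ih => exact ih.tail (Or.inl ⟨⟨rfl, rfl⟩, hs⟩)
    induction h with
    | single h =>
      obtain ⟨C, E, h1, h2, h3⟩ := h
      exact ⟨((X0, _), C), ((X0, _), E), ⟨rfl, h1⟩, ⟨rfl, h2⟩, hrun h3⟩
    | @tail Y Z _ h ih =>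
      obtain ⟨C, E, h1, h2, h3⟩ := h
      obtain ⟨c, e, hc, he, hr⟩ := ih
      refine ⟨c, ((Y, Z), E), hc, ⟨rfl, h2⟩,
        (hr.tail (c := ((Y, Z), C)) (Or.inr ⟨he.2, ?_, ?_⟩)).trans (hrun h3)⟩
      · exact he.1.symm
      · exact h1

end abs

section maps

variable (ι J κ : Type)

/-- the inner machine with one configuration -/
def t0 : (ι ⊕ (J ⊕ J)) ⊕ κ → (ι ⊕ (J ⊕ J)) ⊕ ((J ⊕ J) ⊕ κ)
  | .inl (.inl i) => .inl (.inl i)
  | .inl (.inr t) => .inr (.inl t)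
  | .inr c => .inr (.inr c)

/-- the inner machine, first configuration -/
def t1 : (ι ⊕ (J ⊕ J)) ⊕ κ → (ι ⊕ (J ⊕ J)) ⊕ (((J ⊕ J) ⊕ κ) ⊕ ((J ⊕ J) ⊕ κ))
  | .inl (.inl i) => .inl (.inl i)
  | .inl (.inr t) => .inr (.inl (.inl t))
  | .inr c => .inr (.inl (.inr c))

/-- the inner machine, second configuration -/
def t2 : (ι ⊕ (J ⊕ J)) ⊕ κ → (ι ⊕ (J ⊕ J)) ⊕ (((J ⊕ J) ⊕ κ) ⊕ ((J ⊕ J) ⊕ κ))
  | .inl (.inl i) => .inl (.inl i)
  | .inl (.inr t) => .inr (.inr (.inl t))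
  | .inr c => .inr (.inr (.inr c))

/-- the step of the inner machine -/
def t3 : (ι ⊕ (J ⊕ J)) ⊕ (κ ⊕ κ) → (ι ⊕ (J ⊕ J)) ⊕ (((J ⊕ J) ⊕ κ) ⊕ ((J ⊕ J) ⊕ κ))
  | .inl (.inl i) => .inl (.inl i)
  | .inl (.inr t) => .inr (.inl (.inl t))
  | .inr (.inl c) => .inr (.inl (.inr c))
  | .inr (.inr c) => .inr (.inr (.inr c))

variable {ι J κ} {A : Type} (S : ι ⊕ (J ⊕ J) → Set A) (X Y X' Y' : J → Set A) (C C' : κ → Set A)

lemma t0_spec : (Sum.elim S (Sum.elim (Sum.elim X Y) C) :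
    (ι ⊕ (J ⊕ J)) ⊕ ((J ⊕ J) ⊕ κ) → Set A) ∘ t0 ι J κ =
    Sum.elim (Sum.elim (S ∘ Sum.inl) (Sum.elim X Y)) C := by
  funext x; rcases x with (x | x) | x <;> rfl

lemma t1_spec : (Sum.elim S (Sum.elim (Sum.elim (Sum.elim X Y) C)
    (Sum.elim (Sum.elim X' Y') C')) :
    (ι ⊕ (J ⊕ J)) ⊕ (((J ⊕ J) ⊕ κ) ⊕ ((J ⊕ J) ⊕ κ)) → Set A) ∘ t1 ι J κ =
    Sum.elim (Sum.elim (S ∘ Sum.inl) (Sum.elim X Y)) C := by
  funext x; rcases x with (x | x) | x <;> rfl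

lemma t2_spec : (Sum.elim S (Sum.elim (Sum.elim (Sum.elim X Y) C)
    (Sum.elim (Sum.elim X' Y') C')) :
    (ι ⊕ (J ⊕ J)) ⊕ (((J ⊕ J) ⊕ κ) ⊕ ((J ⊕ J) ⊕ κ)) → Set A) ∘ t2 ι J κ =
    Sum.elim (Sum.elim (S ∘ Sum.inl) (Sum.elim X' Y')) C' := by
  funext x; rcases x with (x | x) | x <;> rfl

lemma t3_spec : (Sum.elim S (Sum.elim (Sum.elim (Sum.elim X Y) C)
    (Sum.elim (Sum.elim X' Y') C')) :
    (ι ⊕ (J ⊕ J)) ⊕ (((J ⊕ J) ⊕ κ) ⊕ ((J ⊕ J) ⊕ κ)) → Set A) ∘ t3 ι J κ =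
    Sum.elim (Sum.elim (S ∘ Sum.inl) (Sum.elim X Y)) (Sum.elim C C') := by
  funext x; rcases x with (x | x) | (x | x) <;> rfl

/-- configurations of the iteration -/
def cfgT (J κ : Type) (A : Type) :
    ((J ⊕ J) ⊕ κ → Set A) ≃ ((J → Set A) × (J → Set A)) × (κ → Set A) :=
  (cfgE κ (J ⊕ J) A).trans (Equiv.prodCongr (cfgE J J A) (Equiv.refl _))

end maps

variable {ι J : Type} [Finite ι] [Finite J]
  {R : (M : Str U (Option B)) → (ι ⊕ (J ⊕ J) → Set M.A) → Prop}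

theorem PS.tc (h : PS (ι ⊕ (J ⊕ J)) R) :
    PS (ι ⊕ (J ⊕ J)) (fun M S => TransGen
      (fun X Y : J → Set M.A => R M (Sum.elim (S ∘ Sum.inl) (Sum.elim X Y)))
      (fun t => S (.inr (.inl t))) (fun t => S (.inr (.inr t)))) := by
  obtain ⟨κ, hκ, I, F, St, h1, h2, h3, h4⟩ := h
  let stp : (M : Str U (Option B)) →
      ((ι ⊕ (J ⊕ J)) ⊕ (((J ⊕ J) ⊕ κ) ⊕ ((J ⊕ J) ⊕ κ)) → Set M.A) → Prop := fun M W =>
      ((W ∘ (fun t => .inr (.inr (.inl (.inl t)))) = W ∘ (fun t => .inr (.inl (.inl (.inl t)))) ∧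
        W ∘ (fun t => .inr (.inr (.inl (.inr t)))) = W ∘ (fun t => .inr (.inl (.inl (.inr t))))) ∧
        St M (W ∘ t3 ι J κ)) ∨
      (F M (W ∘ t1 ι J κ) ∧
        W ∘ (fun t => .inr (.inr (.inl (.inl t)))) = W ∘ (fun t => .inr (.inl (.inl (.inr t)))) ∧
        I M (W ∘ t2 ι J κ))
  refine ⟨(J ⊕ J) ⊕ κ, inferInstance,
    fun M W => W ∘ (fun t => .inr (.inl (.inl t))) = W ∘ (fun t => .inl (.inr (.inl t))) ∧
      I M (W ∘ t0 ι J κ),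
    fun M W => W ∘ (fun t => .inr (.inl (.inr t))) = W ∘ (fun t => .inl (.inr (.inr t))) ∧
      F M (W ∘ t0 ι J κ), stp,
    (DI_tupEq _ _).and (DI.ren h1 _), (DI_tupEq _ _).and (DI.ren h2 _),
    ((DI.and (DI_tupEq _ _) (DI_tupEq _ _)).and (DI.ren h3 _)).or
      ((DI.ren h2 _).and ((DI_tupEq _ _).and (DI.ren h1 _))),
    fun M hM S => ?_⟩
  let i : (J → Set M.A) → (J → Set M.A) → (κ → Set M.A) → Prop := fun X Y C =>
    I M (Sum.elim (Sum.elim (S ∘ Sum.inl) (Sum.elim X Y)) C)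
  let f : (J → Set M.A) → (J → Set M.A) → (κ → Set M.A) → Prop := fun X Y C =>
    F M (Sum.elim (Sum.elim (S ∘ Sum.inl) (Sum.elim X Y)) C)
  let s : (J → Set M.A) → (J → Set M.A) → (κ → Set M.A) → (κ → Set M.A) → Prop :=
    fun X Y C C' => St M (Sum.elim (Sum.elim (S ∘ Sum.inl) (Sum.elim X Y)) (Sum.elim C C'))
  have hrel : (fun X Y : J → Set M.A => R M (Sum.elim (S ∘ Sum.inl) (Sum.elim X Y))) =
      rel1 i f s := by
    funext X Y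
    exact propext (h4 M hM _)
  show TransGen (fun X Y : J → Set M.A => R M (Sum.elim (S ∘ Sum.inl) (Sum.elim X Y)))
      (fun t => S (.inr (.inl t))) (fun t => S (.inr (.inr t))) ↔ _
  rw [hrel, ← reach_tc]
  have htr : ∀ a b : ((J → Set M.A) × (J → Set M.A)) × (κ → Set M.A), _ := fun a b =>
    rtg_equiv (cfgT J κ M.A) (fun C E => stp M (Sum.elim S (Sum.elim C E))) (stT i f s)
      (by
        rintro ⟨⟨X, Y⟩, C⟩ ⟨⟨X', Y'⟩, C'⟩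
        show _ ↔ (((X' = X ∧ Y' = Y) ∧ St M
            ((Sum.elim S (Sum.elim (Sum.elim (Sum.elim X Y) C)
              (Sum.elim (Sum.elim X' Y') C'))) ∘ t3 ι J κ)) ∨
          (F M ((Sum.elim S (Sum.elim (Sum.elim (Sum.elim X Y) C)
              (Sum.elim (Sum.elim X' Y') C'))) ∘ t1 ι J κ) ∧ X' = Y ∧
            I M ((Sum.elim S (Sum.elim (Sum.elim (Sum.elim X Y) C)
              (Sum.elim (Sum.elim X' Y') C'))) ∘ t2 ι J κ)))
        rw [t1_spec, t2_spec, t3_spec]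
        exact Iff.rfl) a b
  constructor
  · rintro ⟨⟨⟨X, Y⟩, C⟩, ⟨⟨X', Y'⟩, C'⟩, ⟨e1, hi⟩, ⟨e2, hf⟩, hr⟩
    refine ⟨Sum.elim (Sum.elim X Y) C, Sum.elim (Sum.elim X' Y') C', ⟨e1, ?_⟩, ⟨e2, ?_⟩,
      (htr _ _).2 hr⟩
    · rw [t0_spec]; exact hi
    · rw [t0_spec]; exact hf
  · rintro ⟨W, W', ⟨e1, hi⟩, ⟨e2, hf⟩, hr⟩
    obtain ⟨⟨⟨X, Y⟩, C⟩, rfl⟩ := (cfgT J κ M.A).symm.surjective W
    obtain ⟨⟨⟨X', Y'⟩, C'⟩, rfl⟩ := (cfgT J κ M.A).symm.surjective W'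
    refine ⟨((X, Y), C), ((X', Y'), C'), ⟨e1, ?_⟩, ⟨e2, ?_⟩, (htr _ _).1 hr⟩
    · have : I M ((Sum.elim S (Sum.elim (Sum.elim X Y) C)) ∘ t0 ι J κ) := hi
      rw [t0_spec] at this; exact this
    · have : F M ((Sum.elim S (Sum.elim (Sum.elim X' Y') C')) ∘ t0 ι J κ) := hf
      rw [t0_spec] at this; exact this

theorem PS.rtg (h : PS (ι ⊕ (J ⊕ J)) R) :
    PS (ι ⊕ (J ⊕ J)) (fun M S => ReflTransGen
      (fun X Y : J → Set M.A => R M (Sum.elim (S ∘ Sum.inl) (Sum.elim X Y)))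
      (fun t => S (.inr (.inl t))) (fun t => S (.inr (.inr t)))) := by
  have h1 : PS (ι ⊕ (J ⊕ J)) (fun (M : Str U (Option B)) S =>
      S ∘ (fun t : J => (.inr (.inr t) : ι ⊕ (J ⊕ J))) = S ∘ (fun t => .inr (.inl t))) :=
    PS.fo (DI_tupEq _ _)
  refine (h1.or h.tc).of_iff fun M _ S => ?_
  exact (reflTransGen_iff_eq_or_transGen).symm

end Pool.Agent.Lib_helper60.MonPH
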