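import Pool.Agent.Lib_helper60.MonPH.PS3

/-!
# Monadic PP over any level, and monadic second-order logic, are in monadic PSPACE when a linear
order is built in
-/

namespace Pool.Agent.Lib_helper60.MonPH

open Pool.Agent.Lib_helper60.MonPP Relation

variable {U B : Type}

/-- formulas of all alternation levels are decided by machines -/
theorem Alt.ps {j k : ℕ} {φ : Fm U (Option B) 0 k} (h : Alt j φ) :
    PS (Fin k) (fun M S => φ.Holds M S) ∧ PS (Fin k) (fun M S => ¬ φ.Holds M S) := by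
  induction h with
  | @fo k φ hφ =>
    have h1 : D0 (Fin k) (fun (M : Str U (Option B)) S => φ.Holds M S) :=
      (DI.ofFm φ hφ).of_iff fun M v S => by
        have : v = Fin.elim0 := funext fun i => i.elim0
        rw [this]; exact Iff.rfl
    exact ⟨PS.fo h1, PS.fo (DI.neg h1)⟩
  | neg φ _ ih =>
    exact ⟨ih.2, ih.1.of_iff fun M _ S => not_not.symm⟩
  | and φ ψ _ _ ih1 ih2 =>
    exact ⟨ih1.1.and ih2.1, (ih1.2.or ih2.2).of_iff fun M _ S => not_and_or.symm⟩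
  | @ex j k l φ _ ih =>
    have hr : ∀ (M : Str U (Option B)) (S : Fin k → Set M.A) (T : Fin l → Set M.A),
        (Sum.elim S T : Fin k ⊕ Fin l → Set M.A) ∘ finSumFinEquiv.symm = Fin.append S T := by
      intro M S T
      funext i
      refine Fin.addCases (fun i => ?_) (fun i => ?_) i
      · rw [Fin.append_left]; simp
      · rw [Fin.append_right]; simp
    refine ⟨((ih.1.ren finSumFinEquiv.symm).exS).of_iff fun M _ S => ?_,
      ((ih.2.ren finSumFinEquiv.symm).allS).of_iff fun M _ S => ?_⟩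
    · rw [holds_exBlock]
      refine exists_congr fun T => ?_
      rw [hr]
    · rw [holds_exBlock, not_exists]
      refine forall_congr' fun T => ?_
      rw [hr]
  | up φ _ ih => exact ih

/-- adding an empty set does not change the number -/
lemma ncard_pad {A : Type} {k : ℕ} (χ : (Fin k → Set A) → Prop) :
    Set.ncard {P : Fin (k + 1) → Set A | P (Fin.last k) = ∅ ∧ χ (P ∘ Fin.castSucc)} =
      Nat.card {S : Fin k → Set A // χ S} := by
  refine Nat.card_congr (α := {P : Fin (k + 1) → Set A //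
    P (Fin.last k) = ∅ ∧ χ (P ∘ Fin.castSucc)}) ⟨fun S => ⟨S.1 ∘ Fin.castSucc, S.2.2⟩,
      fun S => ⟨Fin.snoc S.1 ∅, by simp, ?_⟩, ?_, ?_⟩
  · have : (Fin.snoc S.1 ∅ : Fin (k + 1) → Set A) ∘ Fin.castSucc = S.1 := by
      funext i; simp
    rw [this]; exact S.2
  · rintro ⟨S, hS1, hS2⟩
    refine Subtype.ext (funext fun i => ?_)
    refine Fin.lastCases ?_ (fun i => ?_) i
    · simp only [Fin.snoc_last]
      exact hS1.symm
    · simp
  · rintro ⟨S, hS⟩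
    refine Subtype.ext (funext fun i => ?_)
    simp

/-- the comparison of two numbers of tuples of sets, by a machine -/
theorem PS.cmp {k : ℕ} {φ ψ : (M : Str U (Option B)) → (Fin k → Set M.A) → Prop}
    (hφ : PS (Fin k) φ) (hψ : PS (Fin k) ψ) (hψ' : PS (Fin k) (fun M S => ¬ ψ M S)) :
    PS (Fin 0) (fun M _ => Nat.card {S : Fin k → Set M.A // ψ M S} <
      Nat.card {S : Fin k → Set M.A // φ M S}) := by
  -- padding with one set that has to be empty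
  let pad : ((M : Str U (Option B)) → (Fin k → Set M.A) → Prop) →
      (M : Str U (Option B)) → (Fin (k + 1) → Set M.A) → Prop :=
    fun χ M P => P (Fin.last k) = ∅ ∧ χ M (P ∘ Fin.castSucc)
  have he : D0 (Fin (k + 1)) (fun (M : Str U (Option B)) P => P (Fin.last k) = ∅) :=
    DI.of_iff (DI_empty (fun _ : Fin 1 => Fin.last k)) fun M v S =>
      ⟨fun h => congrFun h 0, fun h => funext fun _ => h⟩
  have pφ : PS (Fin (k + 1)) (pad φ) := (PS.fo he).and (hφ.ren Fin.castSucc)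
  have pψ : PS (Fin (k + 1)) (pad ψ) := (PS.fo he).and (hψ.ren Fin.castSucc)
  have nψ : PS (Fin (k + 1)) (fun M P => ¬ pad ψ M P) := by
    have he' : D0 (Fin (k + 1)) (fun (M : Str U (Option B)) P => ¬ P (Fin.last k) = ∅) :=
      DI.neg (R := fun (M : Str U (Option B)) _ P => P (Fin.last k) = ∅) he
    refine ((PS.fo he').or (hψ'.ren Fin.castSucc)).of_iff fun M _ P => ?_
    exact not_and_or.symm
  -- the steps
  let V := Fin (k + 1)
  let a : V → Fin 0 ⊕ ((V ⊕ V) ⊕ (V ⊕ V)) := fun t => .inr (.inl (.inl t))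
  let b : V → Fin 0 ⊕ ((V ⊕ V) ⊕ (V ⊕ V)) := fun t => .inr (.inl (.inr t))
  let a' : V → Fin 0 ⊕ ((V ⊕ V) ⊕ (V ⊕ V)) := fun t => .inr (.inr (.inl t))
  let b' : V → Fin 0 ⊕ ((V ⊕ V) ⊕ (V ⊕ V)) := fun t => .inr (.inr (.inr t))
  have hstep : PS (Fin 0 ⊕ ((V ⊕ V) ⊕ (V ⊕ V))) (fun M W =>
      (TS M (k + 1) (W ∘ a) (W ∘ a') ∧ ((¬ pad ψ M (W ∘ a) ∧ W ∘ b' = W ∘ b) ∨
        (pad ψ M (W ∘ a) ∧ pad φ M (W ∘ b) ∧ TL M (k + 1) (W ∘ b) (W ∘ b')))) ∨
      (W ∘ a' = W ∘ a ∧ TL M (k + 1) (W ∘ b) (W ∘ b'))) := by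
    refine PS.or (PS.and (PS.fo (DI_TS _ _)) (PS.or (PS.and (nψ.ren _)
      (PS.fo (DI_tupEq _ _))) (PS.and (pψ.ren _) (PS.and (pφ.ren _) (PS.fo (DI_TL _ _))))))
      (PS.and (PS.fo (DI_tupEq _ _)) (PS.fo (DI_TL _ _)))
  have hall : PS (Fin 0 ⊕ ((V ⊕ V) ⊕ (V ⊕ V))) _ :=
    (PS.fo (DI_empty (fun t : V ⊕ V => (.inr (.inl t) : Fin 0 ⊕ ((V ⊕ V) ⊕ (V ⊕ V)))))).and
      ((PS.fo (DI_univ a')).and ((pφ.ren b').and hstep.rtg))
  refine hall.exS.of_iff fun M hM S => ?_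
  have hc := set_chain hM (k + 1)
  have := M.ne
  have hne : ∀ χ, ¬ pad χ M (fun _ => Set.univ) := fun χ h => Set.empty_ne_univ h.1.symm
  have key := reach_compare hc (φ := pad φ M) (ψ := pad ψ M) (hne φ) (hne ψ)
  rw [ncard_pad, ncard_pad] at key
  rw [← key]
  have htr : ∀ p q : (V → Set M.A) × (V → Set M.A), _ := fun p q =>
    rtg_equiv (cfgE V V M.A)
      (fun X Y : V ⊕ V → Set M.A => (fun (M : Str U (Option B))
        (W : Fin 0 ⊕ ((V ⊕ V) ⊕ (V ⊕ V)) → Set M.A) =>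
        (TS M (k + 1) (W ∘ a) (W ∘ a') ∧ ((¬ pad ψ M (W ∘ a) ∧ W ∘ b' = W ∘ b) ∨
        (pad ψ M (W ∘ a) ∧ pad φ M (W ∘ b) ∧ TL M (k + 1) (W ∘ b) (W ∘ b')))) ∨
      (W ∘ a' = W ∘ a ∧ TL M (k + 1) (W ∘ b) (W ∘ b'))) M
        (Sum.elim (S : Fin 0 → Set M.A) (Sum.elim X Y)))
      (stA (TL M (k + 1)) (TS M (k + 1)) (pad φ M) (pad ψ M))
      (by rintro ⟨P, Q⟩ ⟨P', Q'⟩; exact Iff.rfl) p q
  constructor
  · rintro ⟨W, h1, h2, h3, h4⟩
    obtain ⟨⟨X, Y⟩, rfl⟩ := (cfgE (V ⊕ V) (V ⊕ V) M.A).symm.surjective W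
    obtain ⟨⟨P, Q⟩, rfl⟩ := (cfgE V V M.A).symm.surjective X
    obtain ⟨⟨P', Q'⟩, rfl⟩ := (cfgE V V M.A).symm.surjective Y
    have e1 : (Sum.elim P Q : V ⊕ V → Set M.A) = fun _ => ∅ := h1
    have e2 : P' = fun _ => Set.univ := h2
    have e3 : P = fun _ => ∅ := funext fun t => congrFun e1 (Sum.inl t)
    have e4 : Q = fun _ => ∅ := funext fun t => congrFun e1 (Sum.inr t)
    subst e2 e3 e4
    exact ⟨Q', h3, (htr _ _).1 h4⟩
  · rintro ⟨Q, h3, h4⟩
    refine ⟨Sum.elim (Sum.elim (fun _ => ∅) (fun _ => ∅)) (Sum.elim (fun _ => Set.univ) Q),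
      ?_, rfl, h3, (htr _ _).2 h4⟩
    funext t
    rcases t with t | t <;> rfl

end Pool.Agent.Lib_helper60.MonPH
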