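import Pool.Agent.Lib_helper60.MonPH.Top

/-!
# The level `j + 2` of the monadic hierarchy
-/

namespace Pool.Agent.Lib_helper60.MonPH

open Pool.Agent.Lib_helper60.MonPP

variable {U B : Type}

lemma holds_exBlock (M : Str U B) {k : ℕ} (l : ℕ) (φ : Fm U B 0 (k + l))
    (S : Fin k → Set M.A) : (exBlock l φ).Holds M S ↔
      ∃ T : Fin l → Set M.A, φ.Holds M (Fin.append S T) := by
  rw [exBlock_eq]
  exact holds_exSets M l φ S

/-- extending a renaming by the identity -/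
def lift {k k' : ℕ} (f : Fin k → Fin k') (l : ℕ) : Fin (k + l) → Fin (k' + l) :=
  Fin.addCases (fun i => Fin.castAdd l (f i)) (fun i => Fin.natAdd k' i)

lemma append_lift {α : Type} {k k' l : ℕ} (S : Fin k' → α) (T : Fin l → α) (f : Fin k → Fin k') :
    Fin.append S T ∘ lift f l = Fin.append (S ∘ f) T := by
  funext i
  refine Fin.addCases (fun i => ?_) (fun i => ?_) i
  · simp [lift]
  · simp [lift]

lemma Sg.ren {m k : ℕ} {φ : Fm U B 0 k} (h : Sg m φ) : ∀ {k' : ℕ} (f : Fin k → Fin k'),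
    ∃ φ' : Fm U B 0 k', Sg m φ' ∧ ∀ (M : Str U B) (S : Fin k' → Set M.A),
      φ'.Holds M S ↔ φ.Holds M (S ∘ f) := by
  induction h with
  | fo φ hφ =>
    intro k' f
    exact ⟨φ.ren f, .fo _ (Fm.ren_isFO _ hφ _), fun M S => Fm.ren_sat M φ f _ S⟩
  | ex l φ _ ih =>
    intro k' f
    obtain ⟨φ', h1, h2⟩ := ih (lift f l)
    refine ⟨exBlock l φ'.neg, .ex l φ' h1, fun M S => ?_⟩
    rw [holds_exBlock, holds_exBlock]
    refine exists_congr fun T => ?_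
    show ¬ φ'.Holds M (Fin.append S T) ↔ ¬ _
    rw [h2, append_lift]
    exact Iff.rfl

lemma Sg.andOr {m k : ℕ} {φ : Fm U B 0 k} (h : Sg m φ) : ∀ (χ : Fm U B 0 k), χ.IsFO →
    (∃ φ' : Fm U B 0 k, Sg m φ' ∧ ∀ (M : Str U B) (S : Fin k → Set M.A),
      φ'.Holds M S ↔ φ.Holds M S ∧ χ.Holds M S) ∧
    (∃ φ' : Fm U B 0 k, Sg m φ' ∧ ∀ (M : Str U B) (S : Fin k → Set M.A),
      φ'.Holds M S ↔ φ.Holds M S ∨ χ.Holds M S) := by
  induction h with
  | fo φ hφ =>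
    intro χ hχ
    refine ⟨⟨.and φ χ, .fo _ ⟨hφ, hχ⟩, fun _ _ => Iff.rfl⟩,
      ⟨.neg (.and (.neg φ) (.neg χ)), .fo _ ⟨hφ, hχ⟩, fun M S => ?_⟩⟩
    show ¬ (¬ φ.Holds M S ∧ ¬ χ.Holds M S) ↔ _
    tauto
  | ex l φ _ ih =>
    intro χ hχ
    obtain ⟨⟨φ1, h1, e1⟩, ⟨φ2, h2, e2⟩⟩ := ih (χ.ren (Fin.castAdd l)).neg
      (Fm.ren_isFO _ hχ _)
    have hc : ∀ (M : Str U B) (S) (T : Fin l → Set M.A),
        (χ.ren (Fin.castAdd l)).neg.Holds M (Fin.append S T) ↔ ¬ χ.Holds M S := by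
      intro M S T
      show ¬ (χ.ren (Fin.castAdd l)).Holds M (Fin.append S T) ↔ _
      have : (χ.ren (Fin.castAdd l)).Holds M (Fin.append S T) ↔ χ.Holds M S := by
        have h3 : Fin.append S T ∘ Fin.castAdd l = S := by
          funext i; simp
        unfold Fm.Holds
        rw [Fm.ren_sat, h3]
      rw [this]
    refine ⟨⟨exBlock l φ2.neg, .ex l φ2 h2, fun M S => ?_⟩,
      ⟨exBlock l φ1.neg, .ex l φ1 h1, fun M S => ?_⟩⟩
    · rw [holds_exBlock, holds_exBlock]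
      constructor
      · rintro ⟨T, hT⟩
        have hT' : ¬ φ2.Holds M (Fin.append S T) := hT
        rw [e2, hc] at hT'
        push Not at hT'
        exact ⟨⟨T, hT'.1⟩, hT'.2⟩
      · rintro ⟨⟨T, hT⟩, h3⟩
        refine ⟨T, ?_⟩
        show ¬ φ2.Holds M (Fin.append S T)
        rw [e2, hc]
        push Not
        exact ⟨hT, h3⟩
    · rw [holds_exBlock, holds_exBlock]
      constructor
      · rintro ⟨T, hT⟩
        have hT' : ¬ φ1.Holds M (Fin.append S T) := hT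
        rw [e1, hc] at hT'
        by_cases h3 : χ.Holds M S
        · exact Or.inr h3
        · exact Or.inl ⟨T, fun h4 => hT' ⟨h4, h3⟩⟩
      · rintro (⟨T, hT⟩ | h3)
        · refine ⟨T, ?_⟩
          show ¬ φ1.Holds M (Fin.append S T)
          rw [e1]
          exact fun h4 => hT h4.1
        · refine ⟨fun _ => ∅, ?_⟩
          show ¬ φ1.Holds M (Fin.append S _)
          rw [e1, hc]
          exact fun h4 => h4.2 h3

/-- relations between `k` sets defined by `Σ_m` formulas -/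
def SR (m k : ℕ) (R : (M : Str U B) → (Fin k → Set M.A) → Prop) : Prop :=
  ∃ φ : Fm U B 0 k, Sg m φ ∧ ∀ (M : Str U B) (S : Fin k → Set M.A), φ.Holds M S ↔ R M S

/-- relations defined by first-order formulas -/
def DF (n k : ℕ) (R : (M : Str U B) → (Fin n → M.A) → (Fin k → Set M.A) → Prop) : Prop :=
  ∃ φ : Fm U B n k, φ.IsFO ∧ ∀ (M : Str U B) (v : Fin n → M.A) (S : Fin k → Set M.A),
    φ.Sat M v S ↔ R M v S

/-- the step: one more quantifier block -/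
lemma SR.step {m k l : ℕ} {R : (M : Str U B) → (Fin (k + l) → Set M.A) → Prop}
    {F : (M : Str U B) → (Fin 0 → M.A) → (Fin (k + l) → Set M.A) → Prop}
    (hR : SR m (k + l) R) (hF : DF 0 (k + l) F) :
    SR (m + 1) k (fun M S => ∃ T : Fin l → Set M.A,
      F M Fin.elim0 (Fin.append S T) ∧ ¬ R M (Fin.append S T)) := by
  obtain ⟨φ, h1, e1⟩ := hR
  obtain ⟨χ, h2, e2⟩ := hF
  obtain ⟨φ', h3, e3⟩ := (h1.andOr χ.neg h2).2
  refine ⟨exBlock l φ'.neg, .ex l φ' h3, fun M S => ?_⟩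
  rw [holds_exBlock]
  refine exists_congr fun T => ?_
  show ¬ φ'.Holds M (Fin.append S T) ↔ _
  rw [e3, e1]
  have : χ.neg.Holds M (Fin.append S T) ↔ ¬ F M Fin.elim0 (Fin.append S T) :=
    not_congr (e2 M Fin.elim0 _)
  rw [this]
  tauto

lemma SR.ren {m k k' : ℕ} {R : (M : Str U B) → (Fin k → Set M.A) → Prop} (hR : SR m k R)
    (f : Fin k → Fin k') : SR m k' (fun M S => R M (S ∘ f)) := by
  obtain ⟨φ, h1, e1⟩ := hR
  obtain ⟨φ', h2, e2⟩ := h1.ren f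
  exact ⟨φ', h2, fun M S => (e2 M S).trans (e1 M _)⟩

section DF

variable {n k : ℕ} {R R' : (M : Str U B) → (Fin n → M.A) → (Fin k → Set M.A) → Prop}

lemma DF.of_iff (h : DF n k R) (hR : ∀ M v S, R M v S ↔ R' M v S) : DF n k R' := by
  obtain ⟨φ, h1, hφ⟩ := h
  exact ⟨φ, h1, fun M v S => (hφ M v S).trans (hR M v S)⟩

lemma DF.neg (h : DF n k R) : DF n k (fun M v S => ¬ R M v S) := by
  obtain ⟨φ, h1, hφ⟩ := h
  exact ⟨.neg φ, h1, fun M v S => not_congr (hφ M v S)⟩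

lemma DF.and (h : DF n k R) (h' : DF n k R') : DF n k (fun M v S => R M v S ∧ R' M v S) := by
  obtain ⟨φ, h1, hφ⟩ := h
  obtain ⟨ψ, h2, hψ⟩ := h'
  exact ⟨.and φ ψ, ⟨h1, h2⟩, fun M v S => and_congr (hφ M v S) (hψ M v S)⟩

lemma DF.imp (h : DF n k R) (h' : DF n k R') : DF n k (fun M v S => R M v S → R' M v S) :=
  (h.and h'.neg).neg.of_iff fun M v S => by tauto

lemma DF.iff (h : DF n k R) (h' : DF n k R') : DF n k (fun M v S => R M v S ↔ R' M v S) :=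
  ((h.imp h').and (h'.imp h)).of_iff fun M v S => by tauto

lemma DF.exE {R : (M : Str U B) → (Fin n → M.A) → (Fin k → Set M.A) → M.A → Prop}
    (h : DF (n + 1) k (fun M v S => R M (fun i => v i.castSucc) S (v (Fin.last n)))) :
    DF n k (fun M v S => ∃ a, R M v S a) := by
  obtain ⟨φ, h1, hφ⟩ := h
  refine ⟨.exElt φ, h1, fun M v S => exists_congr fun a => ?_⟩
  rw [hφ]
  simp

lemma DF.allE {R : (M : Str U B) → (Fin n → M.A) → (Fin k → Set M.A) → M.A → Prop}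
    (h : DF (n + 1) k (fun M v S => R M (fun i => v i.castSucc) S (v (Fin.last n)))) :
    DF n k (fun M v S => ∀ a, R M v S a) :=
  ((DF.exE (R := fun M v S a => ¬ R M v S a) h.neg).neg).of_iff fun M v S => by
    push Not; exact Iff.rfl

lemma DF.un (p : U) (i : Fin n) : DF n k (fun (M : Str U B) v _ => v i ∈ M.un p) :=
  ⟨.un p i, trivial, fun _ _ _ => Iff.rfl⟩

lemma DF.bin (r : B) (i j : Fin n) : DF n k (fun (M : Str U B) v _ => M.bin r (v i) (v j)) :=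
  ⟨.bin r i j, trivial, fun _ _ _ => Iff.rfl⟩

lemma DF.mem (i : Fin n) (X : Fin k) : DF n k (fun (M : Str U B) v S => v i ∈ S X) :=
  ⟨.mem i X, trivial, fun _ _ _ => Iff.rfl⟩

lemma DF.eq (i j : Fin n) : DF n k (fun (M : Str U B) v _ => v i = v j) :=
  ⟨.eq i j, trivial, fun _ _ _ => Iff.rfl⟩

end DF

section relations

/-- the guard at level 0 -/
def G0 (M : Str (Fin 5) (Fin 2)) (X Y R C W : Set M.A) : Prop :=
  (Cl M 0 R ∧ OneIn M R) ∧ (Cl M 0 C ∧ OneIn M C) ∧ Cl M 1 W ∧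
  (∀ x : M.A, x ∈ M.un 1 → (x ∈ W ↔ x ∈ C)) ∧
  ∃ y : M.A, ∃ z : M.A, (y ∈ X ∧ y ∈ R ∧ y ∈ W) ∧ (z ∈ Y ∧ z ∈ R ∧ z ∈ W) ∧
    ¬ (y ∈ M.un 0 ↔ z ∈ M.un 0)

/-- the guard at level `i + 1` -/
def G1 (i : ℕ) (M : Str (Fin 5) (Fin 2)) (X Y X' Y' : Set M.A) : Prop :=
  (UB i M X' ∧ UB i M Y') ∧ (∀ x : M.A, x ∈ X' → x ∈ X) ∧ (∀ x : M.A, x ∈ Y' → x ∈ Y) ∧
  ∃ y : M.A, ∃ z : M.A, (y ∈ X' ∧ RowN M i y) ∧ (z ∈ Y' ∧ RowN M i z) ∧
    ¬ (y ∈ M.un 4 ↔ z ∈ M.un 4)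

/-- some blocks of level `i` in `S 0` and in `S 1` have different contents -/
def NE : ℕ → (M : Str (Fin 5) (Fin 2)) → (Fin 2 → Set M.A) → Prop
  | 0, M, S => ∃ T : Fin 3 → Set M.A, G0 M (S 0) (S 1) (T 0) (T 1) (T 2)
  | i + 1, M, S => ∃ T : Fin 2 → Set M.A, G1 i M (S 0) (S 1) (T 0) (T 1) ∧ ¬ NE i M T

/-- the outer guard -/
def G2 (j : ℕ) (M : Str (Fin 5) (Fin 2)) (X Y : Set M.A) : Prop :=
  (UB j M X ∧ UB j M Y) ∧ (∀ x : M.A, x ∈ X → x ∉ M.un 2) ∧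
  (∀ x : M.A, x ∈ Y → x ∈ M.un 2) ∧ (∃ x : M.A, x ∈ X) ∧ ∃ x : M.A, x ∈ Y

/-- some blocks outside the last part and some blocks in the last part all have the same
content -/
def KS (j : ℕ) (M : Str (Fin 5) (Fin 2)) : Prop :=
  ∃ T : Fin 2 → Set M.A, G2 j M (T 0) (T 1) ∧ ¬ NE j M T

variable {n k : ℕ}

lemma DF_Cl (b : Fin 2) (X : Fin k) :
    DF n k (fun (M : Str (Fin 5) (Fin 2)) _ S => Cl M b (S X)) := by
  refine DF.allE (R := fun M v S s => ∀ t : M.A, M.bin b s t → (s ∈ S X ↔ t ∈ S X)) ?_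
  refine DF.allE (R := fun M v S t => M.bin b (v (Fin.last n)) t →
    (v (Fin.last n) ∈ S X ↔ t ∈ S X)) ?_
  exact (DF.bin b (Fin.last n).castSucc (Fin.last (n + 1))).imp
    ((DF.mem (Fin.last n).castSucc X).iff (DF.mem (Fin.last (n + 1)) X))

lemma DF_RowN (i : ℕ) : ∀ {n : ℕ} (x : Fin n),
    DF n k (fun (M : Str (Fin 5) (Fin 2)) v _ => RowN M i (v x)) := by
  induction i with
  | zero =>
    intro n x
    refine DF.neg ?_
    refine DF.exE (R := fun M v S s => M.bin 1 s (v x)) ?_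
    exact DF.bin 1 (Fin.last n) x.castSucc
  | succ i ih =>
    intro n x
    refine DF.exE (R := fun M v S s => M.bin 1 s (v x) ∧ RowN M i s) ?_
    exact (DF.bin 1 (Fin.last n) x.castSucc).and (ih (Fin.last n))

lemma DF_ClIn (i : ℕ) (X : Fin k) :
    DF n k (fun (M : Str (Fin 5) (Fin 2)) _ S => ClIn M i (S X)) := by
  refine DF.allE (R := fun M v S s => ∀ t : M.A, M.bin 0 s t → RowN M i t → t ∉ M.un 3 →
    (s ∈ S X ↔ t ∈ S X)) ?_
  refine DF.allE (R := fun M v S t => M.bin 0 (v (Fin.last n)) t → RowN M i t → t ∉ M.un 3 →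
    (v (Fin.last n) ∈ S X ↔ t ∈ S X)) ?_
  exact (DF.bin 0 (Fin.last n).castSucc (Fin.last (n + 1))).imp
    ((DF_RowN i (Fin.last (n + 1))).imp ((DF.un 3 (Fin.last (n + 1))).neg.imp
      ((DF.mem (Fin.last n).castSucc X).iff (DF.mem (Fin.last (n + 1)) X))))

lemma DF_UB (i : ℕ) (X : Fin k) :
    DF n k (fun (M : Str (Fin 5) (Fin 2)) _ S => UB i M (S X)) := (DF_Cl 1 X).and (DF_ClIn i X)

lemma DF_last (x : Fin n) :
    DF n k (fun (M : Str (Fin 5) (Fin 2)) v _ => ¬ ∃ t : M.A, M.bin 0 (v x) t) := by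
  refine DF.neg ?_
  refine DF.exE (R := fun M v S t => M.bin 0 (v x) t) ?_
  exact DF.bin 0 x.castSucc (Fin.last n)

lemma DF_OneIn (X : Fin k) :
    DF n k (fun (M : Str (Fin 5) (Fin 2)) _ S => OneIn M (S X)) := by
  refine DF.exE (R := fun M v S x => (x ∈ S X ∧ ¬ ∃ t : M.A, M.bin 0 x t) ∧
    ∀ y : M.A, (y ∈ S X ∧ ¬ ∃ t : M.A, M.bin 0 y t) → y = x) ?_
  refine DF.and ((DF.mem (Fin.last n) X).and (DF_last (Fin.last n))) ?_
  refine DF.allE (R := fun M v S y => (y ∈ S X ∧ ¬ ∃ t : M.A, M.bin 0 y t) →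
    y = v (Fin.last n)) ?_
  exact DF.imp ((DF.mem (Fin.last (n + 1)) X).and (DF_last (Fin.last (n + 1))))
    (DF.eq (Fin.last (n + 1)) (Fin.last n).castSucc)

lemma DF_sub (X X' : Fin k) :
    DF n k (fun (M : Str (Fin 5) (Fin 2)) _ S => ∀ x : M.A, x ∈ S X' → x ∈ S X) := by
  refine DF.allE (R := fun M v S x => x ∈ S X' → x ∈ S X) ?_
  exact (DF.mem (Fin.last n) X').imp (DF.mem (Fin.last n) X)

lemma DF_ex (X : Fin k) :
    DF n k (fun (M : Str (Fin 5) (Fin 2)) _ S => ∃ x : M.A, x ∈ S X) := by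
  refine DF.exE (R := fun M v S x => x ∈ S X) ?_
  exact DF.mem (Fin.last n) X

lemma DF_G0 (X Y R C W : Fin k) :
    DF n k (fun (M : Str (Fin 5) (Fin 2)) _ S => G0 M (S X) (S Y) (S R) (S C) (S W)) := by
  refine ((DF_Cl 0 R).and (DF_OneIn R)).and (((DF_Cl 0 C).and (DF_OneIn C)).and
    ((DF_Cl 1 W).and (DF.and ?_ ?_)))
  · refine DF.allE (R := fun M v S x => x ∈ M.un 1 → (x ∈ S W ↔ x ∈ S C)) ?_
    exact (DF.un 1 (Fin.last n)).imp ((DF.mem (Fin.last n) W).iff (DF.mem (Fin.last n) C))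
  · refine DF.exE (R := fun M v S y => ∃ z : M.A, (y ∈ S X ∧ y ∈ S R ∧ y ∈ S W) ∧
      (z ∈ S Y ∧ z ∈ S R ∧ z ∈ S W) ∧ ¬ (y ∈ M.un 0 ↔ z ∈ M.un 0)) ?_
    refine DF.exE (R := fun M v S z => (v (Fin.last n) ∈ S X ∧ v (Fin.last n) ∈ S R ∧
      v (Fin.last n) ∈ S W) ∧
      (z ∈ S Y ∧ z ∈ S R ∧ z ∈ S W) ∧ ¬ (v (Fin.last n) ∈ M.un 0 ↔ z ∈ M.un 0)) ?_
    exact ((DF.mem (Fin.last n).castSucc X).and ((DF.mem (Fin.last n).castSucc R).and
      (DF.mem (Fin.last n).castSucc W))).and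
      (((DF.mem (Fin.last (n + 1)) Y).and ((DF.mem (Fin.last (n + 1)) R).and
        (DF.mem (Fin.last (n + 1)) W))).and
        ((DF.un 0 (Fin.last n).castSucc).iff (DF.un 0 (Fin.last (n + 1)))).neg)

lemma DF_G1 (i : ℕ) (X Y X' Y' : Fin k) :
    DF n k (fun (M : Str (Fin 5) (Fin 2)) _ S => G1 i M (S X) (S Y) (S X') (S Y')) := by
  refine ((DF_UB i X').and (DF_UB i Y')).and ((DF_sub X X').and ((DF_sub Y Y').and ?_))
  refine DF.exE (R := fun M v S y => ∃ z : M.A, (y ∈ S X' ∧ RowN M i y) ∧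
    (z ∈ S Y' ∧ RowN M i z) ∧ ¬ (y ∈ M.un 4 ↔ z ∈ M.un 4)) ?_
  refine DF.exE (R := fun M v S z => (v (Fin.last n) ∈ S X' ∧ RowN M i (v (Fin.last n))) ∧
    (z ∈ S Y' ∧ RowN M i z) ∧ ¬ (v (Fin.last n) ∈ M.un 4 ↔ z ∈ M.un 4)) ?_
  exact ((DF.mem (Fin.last n).castSucc X').and (DF_RowN i (Fin.last n).castSucc)).and
    (((DF.mem (Fin.last (n + 1)) Y').and (DF_RowN i (Fin.last (n + 1)))).and
    ((DF.un 4 (Fin.last n).castSucc).iff (DF.un 4 (Fin.last (n + 1)))).neg)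

lemma DF_G2 (j : ℕ) (X Y : Fin k) :
    DF n k (fun (M : Str (Fin 5) (Fin 2)) _ S => G2 j M (S X) (S Y)) := by
  refine ((DF_UB j X).and (DF_UB j Y)).and (DF.and ?_ (DF.and ?_ ((DF_ex X).and (DF_ex Y))))
  · refine DF.allE (R := fun M v S x => x ∈ S X → x ∉ M.un 2) ?_
    exact (DF.mem (Fin.last n) X).imp (DF.un 2 (Fin.last n)).neg
  · refine DF.allE (R := fun M v S x => x ∈ S Y → x ∈ M.un 2) ?_
    exact (DF.mem (Fin.last n) Y).imp (DF.un 2 (Fin.last n))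

lemma SR.of_iff {m k : ℕ} {R R' : (M : Str U B) → (Fin k → Set M.A) → Prop} (h : SR m k R)
    (hR : ∀ M S, R M S ↔ R' M S) : SR m k R' := by
  obtain ⟨φ, h1, hφ⟩ := h
  exact ⟨φ, h1, fun M S => (hφ M S).trans (hR M S)⟩

lemma SR_NE (i : ℕ) : SR (i + 1) 2 (NE i) := by
  induction i with
  | zero =>
    have hF : DF 0 (2 + 3) (fun (M : Str (Fin 5) (Fin 2)) _ S =>
      G0 M (S 0) (S 1) (S 2) (S 3) (S 4)) := DF_G0 _ _ _ _ _
    have hR : SR 0 (2 + 3)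
        (fun (M : Str (Fin 5) (Fin 2)) (_ : Fin (2 + 3) → Set M.A) => False) := by
      refine ⟨.neg fTrue, .fo _ ?_, fun M S => ?_⟩
      · simp [fTrue, fAll, Fm.IsFO]
      · exact iff_of_false (fun h => h (sat_fTrue M S)) id
    refine (hR.step hF).of_iff fun M S => ?_
    refine exists_congr fun T => ?_
    rw [not_false_iff, and_true]
    exact Iff.rfl
  | succ i ih =>
    have hF : DF 0 (2 + 2) (fun (M : Str (Fin 5) (Fin 2)) _ S =>
      G1 i M (S 0) (S 1) (S 2) (S 3)) := DF_G1 _ _ _ _ _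
    refine ((ih.ren (Fin.natAdd 2 : Fin 2 → Fin (2 + 2))).step hF).of_iff fun M S => ?_
    refine exists_congr fun T => and_congr Iff.rfl (not_congr ?_)
    have : Fin.append S T ∘ (Fin.natAdd 2 : Fin 2 → Fin (2 + 2)) = T :=
      funext fun i => Fin.append_right S T i
    rw [this]

theorem KS_monSigma (j : ℕ) : MonSigma (j + 2) (KS j) := by
  have hF : DF 0 (0 + 2) (fun (M : Str (Fin 5) (Fin 2)) _ S =>
    G2 j M (S 0) (S 1)) := DF_G2 _ _ _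
  have h1 := ((SR_NE j).ren (Fin.natAdd 0 : Fin 2 → Fin (0 + 2))).step hF
  obtain ⟨φ, h2, e2⟩ := h1
  refine ⟨φ, h2, fun M => ?_⟩
  rw [e2]
  refine exists_congr fun T => and_congr Iff.rfl (not_congr ?_)
  have : Fin.append (Fin.elim0 : Fin 0 → Set M.A) T ∘ (Fin.natAdd 0 : Fin 2 → Fin (0 + 2)) = T :=
    funext fun i => Fin.append_right _ T i
  rw [this]

end relations

end Pool.Agent.Lib_helper60.MonPH
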