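import Pool.Agent.Lib_helper60.MonPH.Sig

/-!
# The meaning of the property `KS` on the nested strips
-/

namespace Pool.Agent.Lib_helper60.MonPH

open Pool.Agent.Lib_helper60.MonPP

variable {h j L : ℕ} {ne : Nonempty (SCell (L * wd h j) (wd h j) h)} {u : Fin L → It h j}
  {v : It h j}

/-- the meaning of `NE` -/
theorem NE_iff (hj : j < h) : ∀ (i : ℕ), i ≤ j →
    ∀ S : Fin 2 → Set (SCell (L * wd h j) (wd h j) h),
    UB i (nstr h j L ne u v) (S 0) → UB i (nstr h j L ne u v) (S 1) →
    (¬ NE i (nstr h j L ne u v) S ↔ ∀ x ∈ S 0, ∀ y ∈ S 1, cont u v i x = cont u v i y) := by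
  have hh : 0 < h := by omega
  intro i
  induction i with
  | zero =>
    intro hi S hX hY
    have hw0 : wd h 0 = h := rfl
    have hbit : ∀ z : SCell (L * wd h j) (wd h j) h, z ∈ (nstr h j L ne u v).un 0 ↔
        cont u v 0 z (⟨grow z, grow_lt z⟩, ⟨gcol z % h, Nat.mod_lt _ hh⟩) := by
      intro z
      rw [mem_un]
      constructor
      · rintro ⟨h1, h2, h3⟩; exact h3
      · intro h3; exact ⟨grow_lt z, Nat.mod_lt _ hh, h3⟩
    constructor
    · intro hNE x hx y hy
      funext p
      obtain ⟨r, c⟩ := p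
      obtain ⟨x', hx1, hx2⟩ := exists_in_block hh hi x (o := c) (r := r) c.2 r.2
      obtain ⟨y', hy1, hy2⟩ := exists_in_block hh hi y (o := c) (r := r) c.2 r.2
      rw [hw0] at hx1 hy1
      have dx : gcol x' / h = gcol x / h := by
        rw [hx1, Nat.add_comm, Nat.add_mul_div_right _ _ hh, Nat.div_eq_of_lt c.2, Nat.zero_add]
      have dy : gcol y' / h = gcol y / h := by
        rw [hy1, Nat.add_comm, Nat.add_mul_div_right _ _ hh, Nat.div_eq_of_lt c.2, Nat.zero_add]
      have mx : gcol x' % h = c := by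
        rw [hx1, Nat.add_comm, Nat.add_mul_mod_self_right, Nat.mod_eq_of_lt c.2]
      have my : gcol y' % h = c := by
        rw [hy1, Nat.add_comm, Nat.add_mul_mod_self_right, Nat.mod_eq_of_lt c.2]
      have hx'X : x' ∈ S 0 := (UB_iff hh hX (x := x) (y := x') dx.symm).1 hx
      have hy'Y : y' ∈ S 1 := (UB_iff hh hY (x := y) (y := y') dy.symm).1 hy
      have hclosed : ∀ r : ℕ, Cl (nstr h j L ne u v) 0
          {z : SCell (L * wd h j) (wd h j) h | grow z = r} := by
        intro r s t hst
        have := ((bin0 s t).1 hst).1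
        show grow (s : SCell (L * wd h j) (wd h j) h) = r ↔
          grow (t : SCell (L * wd h j) (wd h j) h) = r
        omega
      have hW : Cl (nstr h j L ne u v) 1
          {z : SCell (L * wd h j) (wd h j) h | gcol z % h = c} := by
        intro s t hst
        have := ((bin1 s t).1 hst).1
        show gcol (s : SCell (L * wd h j) (wd h j) h) % h = c ↔
          gcol (t : SCell (L * wd h j) (wd h j) h) % h = c
        rw [this]
      have hD : ∀ z : SCell (L * wd h j) (wd h j) h, z ∈ (nstr h j L ne u v).un 1 →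
          (z ∈ {z : SCell (L * wd h j) (wd h j) h | gcol z % h = c} ↔
            z ∈ {z : SCell (L * wd h j) (wd h j) h | grow z = c}) := by
        intro z hz
        have hz' : grow z = gcol z % h := (mem_un z 1).1 hz
        show gcol z % h = c ↔ grow z = c
        omega
      have h1 : (x' ∈ (nstr h j L ne u v).un 0 ↔ y' ∈ (nstr h j L ne u v).un 0) := by
        by_contra hcon
        exact hNE ⟨![{z : SCell (L * wd h j) (wd h j) h | grow z = r},
          {z : SCell (L * wd h j) (wd h j) h | grow z = c},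
          {z : SCell (L * wd h j) (wd h j) h | gcol z % h = c}],
          ⟨hclosed r, oneIn_row hh r⟩, ⟨hclosed c, oneIn_row hh c⟩, hW, hD,
          x', y', ⟨hx'X, hx2, mx⟩, ⟨hy'Y, hy2, my⟩, hcon⟩
      replace h1 := (hbit x').symm.trans (h1.trans (hbit y'))
      rw [cont_congr hh hi (show gcol x' / wd h 0 = gcol x / wd h 0 from dx),
        cont_congr hh hi (show gcol y' / wd h 0 = gcol y / wd h 0 from dy)] at h1
      have e1 : ((⟨grow x', grow_lt x'⟩, ⟨gcol x' % h, Nat.mod_lt _ hh⟩) : Fin h × Fin h) =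
          (r, c) := by
        ext <;> simp [hx2, mx]
      have e2 : ((⟨grow y', grow_lt y'⟩, ⟨gcol y' % h, Nat.mod_lt _ hh⟩) : Fin h × Fin h) =
          (r, c) := by
        ext <;> simp [hy2, my]
      rw [e1, e2] at h1
      exact propext h1
    · intro hall
      rintro ⟨T, ⟨hR1, hR2⟩, ⟨hC1, hC2⟩, hW, hD, y, z, ⟨hyX, hyR, hyW⟩, ⟨hzY, hzR, hzW⟩, hne⟩
      obtain ⟨r, hr⟩ := oneIn_line hh hR1 hR2
      obtain ⟨c, hc⟩ := oneIn_line hh hC1 hC2
      have hWc : ∀ x : SCell (L * wd h j) (wd h j) h, x ∈ T 2 → gcol x % h = c := by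
        intro x hx
        obtain ⟨d, hd1, hd2⟩ := exists_scell (a := L * wd h j) (w := wd h j) (h := h)
          (c := gcol x) (r := gcol x % h) (gcol_lt x) (Nat.mod_lt _ hh)
        have h1 : d ∈ T 2 := (closedV hh hW hd1).2 hx
        have h2 : d ∈ (nstr h j L ne u v).un 1 :=
          (mem_un d 1).2 (by show grow d = gcol d % h; rw [hd2, hd1])
        have h3 : d ∈ T 1 := (hD d h2).1 h1
        have h4 := (hc d).1 h3
        omega
      have hyr := (hr y).1 hyR
      have hzr := (hr z).1 hzR
      have hyc := hWc y hyW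
      have hzc := hWc z hzW
      apply hne
      have h1 := hall y hyX z hzY
      refine (hbit y).trans (Iff.trans ?_ (hbit z).symm)
      rw [h1]
      have e1 : ((⟨grow (y : SCell (L * wd h j) (wd h j) h), grow_lt _⟩,
          ⟨gcol (y : SCell (L * wd h j) (wd h j) h) % h, Nat.mod_lt _ hh⟩) : Fin h × Fin h) =
          (⟨grow (z : SCell (L * wd h j) (wd h j) h), grow_lt _⟩,
            ⟨gcol (z : SCell (L * wd h j) (wd h j) h) % h, Nat.mod_lt _ hh⟩) := by
        ext
        · show grow (y : SCell (L * wd h j) (wd h j) h) = grow (z : SCell (L * wd h j) (wd h j) h)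
          omega
        · show gcol (y : SCell (L * wd h j) (wd h j) h) % h =
            gcol (z : SCell (L * wd h j) (wd h j) h) % h
          omega
      rw [e1]
  | succ i ih =>
    intro hi S hX hY
    have hi' : i ≤ j := by omega
    have hij : i < j := by omega
    have hih : i < h := by omega
    have hih1 : i + 1 < h := by omega
    have hmk : ∀ z : SCell (L * wd h j) (wd h j) h, grow z = i →
        (z ∈ (nstr h j L ne u v).un 4 ↔ cont u v (i + 1) z (cont u v i z)) := by
      intro z hz
      rw [mem_un, hz]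
      exact Iff.rfl
    constructor
    · intro hNE x hx y hy
      funext p
      obtain ⟨x', hx1, hxr, hx2⟩ := exists_sub (u := u) (v := v) hij hih x p
      obtain ⟨y', hy1, hyr, hy2⟩ := exists_sub (u := u) (v := v) hij hih y p
      have h1 : (x' ∈ (nstr h j L ne u v).un 4 ↔ y' ∈ (nstr h j L ne u v).un 4) := by
        by_contra hcon
        refine hNE ⟨![bset h j L i (gcol x' / wd h i), bset h j L i (gcol y' / wd h i)],
          ⟨⟨bset_UB i _, bset_UB i _⟩, ?_, ?_, x', y', ⟨rfl, (rowN_iff i x').2 hxr⟩,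
            ⟨rfl, (rowN_iff i y').2 hyr⟩, hcon⟩, ?_⟩
        · intro z hz
          have hz' : gcol (z : SCell (L * wd h j) (wd h j) h) / wd h i = gcol x' / wd h i := hz
          exact (UB_iff hih1 hX (x := x) (y := z) (by rw [← hx1, div_succ_of_div hz'])).1 hx
        · intro z hz
          have hz' : gcol (z : SCell (L * wd h j) (wd h j) h) / wd h i = gcol y' / wd h i := hz
          exact (UB_iff hih1 hY (x := y) (y := z) (by rw [← hy1, div_succ_of_div hz'])).1 hy
        · refine (ih hi' _ (bset_UB i _) (bset_UB i _)).2 ?_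
          intro a ha b hb
          have ha' : gcol a / wd h i = gcol x' / wd h i := ha
          have hb' : gcol b / wd h i = gcol y' / wd h i := hb
          rw [cont_congr hh hi' ha', cont_congr hh hi' hb', hx2, hy2]
      replace h1 := (hmk x' hxr).symm.trans (h1.trans (hmk y' hyr))
      rw [hx2, hy2, cont_congr hh hi hx1, cont_congr hh hi hy1] at h1
      exact propext h1
    · intro hall
      rintro ⟨T, ⟨⟨hU, hV⟩, hTX, hTY, y, z, ⟨hy, hyr⟩, ⟨hz, hzr⟩, hne⟩, hN⟩
      have h1 := (ih hi' T hU hV).1 hN y hy z hz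
      have h2 := hall y (hTX y hy) z (hTY z hz)
      apply hne
      refine (hmk y ((rowN_iff i y).1 hyr)).trans
        (Iff.trans ?_ (hmk z ((rowN_iff i z).1 hzr)).symm)
      rw [h1, h2]

/-- The meaning of the property on the nested strips. -/
theorem KS_iff (hj : j < h) : KS j (nstr h j L ne u v) ↔ ∃ b : Fin L, u b = v := by
  have hh : 0 < h := by omega
  have hw := wd_pos hh j
  have hla : ∀ z : SCell (L * wd h j) (wd h j) h, z ∈ (nstr h j L ne u v).un 2 ↔
      gcol z / wd h j = L := by
    intro z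
    rw [mem_un]
    exact Iff.rfl
  have htop : ∀ z : SCell (L * wd h j) (wd h j) h, cont u v j z = topC u v z := by
    intro z
    unfold cont
    rw [contT_top]
  constructor
  · rintro ⟨T, ⟨⟨hU, hV⟩, hTX, hTY, ⟨x, hx⟩, ⟨y, hy⟩⟩, hN⟩
    have h1 := (NE_iff hj j le_rfl T hU hV).1 hN x hx y hy
    rw [htop, htop] at h1
    have hx' : ¬ gcol (x : SCell (L * wd h j) (wd h j) h) / wd h j = L :=
      fun e => hTX x hx ((hla x).2 e)
    have hy' := (hla y).1 (hTY y hy)
    clear hx hy
    rcases x with ⟨c, r⟩ | ⟨c, r⟩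
    · rcases y with ⟨c', r'⟩ | ⟨c', r'⟩
      · simp only [gcol_inl] at hy'
        have : (c' : ℕ) / wd h j < L := div_lt_of c'.2
        omega
      · exact ⟨_, h1⟩
    · exfalso
      apply hx'
      rw [gcol_inr, Nat.add_comm, Nat.add_mul_div_right _ _ hw, Nat.div_eq_of_lt c.2,
        Nat.zero_add]
  · rintro ⟨b, hb⟩
    have hlt : (b : ℕ) * wd h j < L * wd h j := Nat.mul_lt_mul_of_pos_right b.2 hw
    let x : SCell (L * wd h j) (wd h j) h := .inl (⟨b * wd h j, hlt⟩, ⟨0, hh⟩)
    let y : SCell (L * wd h j) (wd h j) h := .inr (⟨0, hw⟩, ⟨0, hh⟩)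
    have hxd : gcol x / wd h j = b := by
      show (b : ℕ) * wd h j / wd h j = b
      exact Nat.mul_div_cancel _ hw
    have hyd : gcol y / wd h j = L := by
      show (L * wd h j + 0) / wd h j = L
      rw [Nat.add_zero, Nat.mul_div_cancel _ hw]
    refine ⟨![bset h j L j b, bset h j L j L], ⟨⟨bset_UB j _, bset_UB j _⟩, ?_, ?_,
      ⟨x, hxd⟩, ⟨y, hyd⟩⟩, ?_⟩
    · intro z hz e
      have hz' : gcol (z : SCell (L * wd h j) (wd h j) h) / wd h j = b := hz
      have e1 := (hla z).1 e
      rw [hz'] at e1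
      have := b.2; omega
    · intro z hz
      exact (hla z).2 hz
    · refine (NE_iff hj j le_rfl _ (bset_UB j _) (bset_UB j _)).2 ?_
      intro a ha c hc
      have ha' : gcol a / wd h j = gcol x / wd h j := by rw [hxd]; exact ha
      have hc' : gcol c / wd h j = gcol y / wd h j := by rw [hyd]; exact hc
      rw [cont_congr hh le_rfl ha', cont_congr hh le_rfl hc', htop, htop]
      show u _ = v
      rw [← hb]
      congr 1
      exact Fin.ext hxd

/-- For every `j`, some monadic `Σ_{j+2}` property is not in the Boolean closure of monadic PP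
over level `j`, even with a built-in linear order. -/
theorem sigma_not_boolCl (j : ℕ) : ∃ K : Prty (Fin 5) (Fin 2),
    MonSigma (j + 2) K ∧ ¬ BoolCl (MonPPAlt j) K ∧ ¬ WithOrder (BoolCl (MonPPAlt j)) K := by
  have hs : SaysEq j (KS j) (fun a w h => sbin a w h) := fun _ hj _ _ _ => KS_iff hj
  exact ⟨KS j, KS_monSigma j, not_boolCl_of j _ _ (fun _ _ _ => sbin_far) hs,
    not_withOrder_of j _ hs⟩

end Pool.Agent.Lib_helper60.MonPH
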