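import Pool.Agent.Lib_helper60.MonPH.Types

/-!
# Strips of height `h`: the number of classes of right parts for first-order formulas

The binary relations are arbitrary, except that they are constant on pairs of cells whose columns
are not equal or adjacent. This allows a linear order column by column.
-/

namespace Pool.Agent.Lib_helper60.MonPH

open Pool.Agent.Lib_helper60.MonPP

/-- cells (column, row) of a strip of height `h` with `a` columns on the left and `w` columns on
the right -/
abbrev SCell (a w h : ℕ) : Type := (Fin a × Fin h) ⊕ (Fin w × Fin h)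

variable {a w h : ℕ}

/-- global column -/
def gcol : SCell a w h → ℕ
  | .inl x => x.1
  | .inr x => a + x.1

/-- row -/
def grow : SCell a w h → ℕ
  | .inl x => x.2
  | .inr x => x.2

@[simp] lemma gcol_inl (x : Fin a × Fin h) : gcol (.inl x : SCell a w h) = x.1 := rfl
@[simp] lemma gcol_inr (x : Fin w × Fin h) : gcol (.inr x : SCell a w h) = a + x.1 := rfl
@[simp] lemma grow_inl (x : Fin a × Fin h) : grow (.inl x : SCell a w h) = x.2 := rfl
@[simp] lemma grow_inr (x : Fin w × Fin h) : grow (.inr x : SCell a w h) = x.2 := rfl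

lemma scell_ext {x y : SCell a w h} (h1 : gcol x = gcol y) (h2 : grow x = grow y) : x = y := by
  rcases x with ⟨c, r⟩ | ⟨c, r⟩ <;> rcases y with ⟨c', r'⟩ | ⟨c', r'⟩
  · simp only [gcol_inl, grow_inl] at h1 h2
    rw [Fin.ext h1, Fin.ext h2]
  · simp only [gcol_inl, gcol_inr] at h1
    have := c.2; omega
  · simp only [gcol_inl, gcol_inr] at h1
    have := c'.2; omega
  · simp only [gcol_inr, grow_inr] at h1 h2
    rw [Fin.ext (show (c : ℕ) = c' by omega), Fin.ext h2]

lemma gcol_lt (x : SCell a w h) : gcol x < a + w := by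
  rcases x with ⟨c, r⟩ | ⟨c, r⟩
  · have := c.2; simp only [gcol_inl]; omega
  · have := c.2; simp only [gcol_inr]; omega

lemma grow_lt (x : SCell a w h) : grow x < h := by
  rcases x with ⟨c, r⟩ | ⟨c, r⟩
  · exact r.2
  · exact r.2

lemma exists_scell {c r : ℕ} (hc : c < a + w) (hr : r < h) :
    ∃ x : SCell a w h, gcol x = c ∧ grow x = r := by
  by_cases h1 : c < a
  · exact ⟨.inl (⟨c, h1⟩, ⟨r, hr⟩), rfl, rfl⟩
  · exact ⟨.inr (⟨c - a, by omega⟩, ⟨r, hr⟩), by simp only [gcol_inr]; omega, rfl⟩

/-- constant on pairs of cells in far columns -/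
def FarC {B : Type} (bin : B → SCell a w h → SCell a w h → Prop) : Prop :=
  ∀ r : B, ∃ p1 p2 : Prop, ∀ x y : SCell a w h, gcol x + 2 ≤ gcol y →
    (bin r x y ↔ p1) ∧ (bin r y x ↔ p2)

/-- colours: the unary predicates and the memberships in the `k` sets -/
abbrev SCol (U : Type) (k : ℕ) : Type := (U → Prop) × (Fin k → Prop)

variable {U B Γ : Type}

/-- the relations on the right part -/
def rbin (bin : B → SCell a w h → SCell a w h → Prop) (r : B) (x y : Fin w × Fin h) : Prop :=
  bin r (.inr x) (.inr y)

/-- the right part with the first `N` columns marked -/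
def rcol' (N : ℕ) (β : Fin w × Fin h → Γ) (x : Fin w × Fin h) : Γ × Fin (N + 1) :=
  (β x, ⟨min x.1 N, by omega⟩)

/-- the element described by a location -/
def place {m : ℕ} (b : Fin m → Fin w × Fin h) : SCell a w h ⊕ Fin m → SCell a w h
  | .inl x => x
  | .inr j => .inr (b j)

/-- the invariant of the comparison of two right parts -/
def Inv (bin : B → SCell a w h → SCell a w h → Prop) (N : ℕ) (β β' : Fin w × Fin h → Γ) (q : ℕ)
    {n : ℕ} (v v' : Fin n → SCell a w h) : Prop :=
  ∃ (m : ℕ) (b b' : Fin m → Fin w × Fin h) (loc : Fin n → SCell a w h ⊕ Fin m) (sA sB : ℕ),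
    (∀ i, v i = place b (loc i)) ∧ (∀ i, v' i = place b' (loc i)) ∧
    (∀ i x, loc i = .inl x → gcol x < sA) ∧ a ≤ sA ∧ sA + 2 ^ q ≤ sB ∧ sB ≤ a + N ∧
    (∀ j, sB ≤ a + (b j).1) ∧ (∀ j, sB ≤ a + (b' j).1) ∧
    tp (rbin bin) (rcol' N β) q b = tp (rbin bin) (rcol' N β') q b'

lemma Inv.symm {bin : B → SCell a w h → SCell a w h → Prop} {N : ℕ}
    {β β' : Fin w × Fin h → Γ} {q n : ℕ} {v v' : Fin n → SCell a w h}
    (h : Inv bin N β β' q v v') : Inv bin N β' β q v' v := by
  obtain ⟨m, b, b', loc, sA, sB, h1, h2, h3, h4, h5, h6, h7, h8, h9⟩ := h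
  exact ⟨m, b', b, loc, sA, sB, h2, h1, h3, h4, h5, h6, h8, h7, h9.symm⟩

/-- move a location to a longer tuple -/
def up1 {m : ℕ} : SCell a w h ⊕ Fin m → SCell a w h ⊕ Fin (m + 1)
  | .inl x => .inl x
  | .inr j => .inr j.castSucc

lemma place_up1 {m : ℕ} (b : Fin m → Fin w × Fin h) (y : Fin w × Fin h)
    (l : SCell a w h ⊕ Fin m) :
    place (Fin.snoc b y : Fin (m + 1) → Fin w × Fin h) (up1 l) = place b l := by
  cases l with
  | inl x => rfl
  | inr j => simp [place, up1]

lemma Inv.extend {bin : B → SCell a w h → SCell a w h → Prop} {N : ℕ}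
    {β β' : Fin w × Fin h → Γ} {q n : ℕ} {v v' : Fin n → SCell a w h}
    (hI : Inv bin N β β' (q + 1) v v') (x : SCell a w h) :
    ∃ x' : SCell a w h, Inv bin N β β' q (Fin.snoc v x : Fin (n + 1) → SCell a w h)
      (Fin.snoc v' x' : Fin (n + 1) → SCell a w h) := by
  obtain ⟨m, b, b', loc, sA, sB, h1, h2, h3, h4, h5, h6, h7, h8, h9⟩ := hI
  have hpow : 2 ^ (q + 1) = 2 ^ q + 2 ^ q := by ring
  have hpos : 0 < 2 ^ q := by positivity
  by_cases hx : gcol x < sA + 2 ^ q
  · refine ⟨x, m, b, b', Fin.snoc loc (.inl x), sA + 2 ^ q, sB, ?_, ?_, ?_, by omega, by omega,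
      h6, h7, h8, tp_down q h9⟩
    · intro i
      refine Fin.lastCases ?_ (fun i => ?_) i
      · simp [place]
      · simpa using h1 i
    · intro i
      refine Fin.lastCases ?_ (fun i => ?_) i
      · simp [place]
      · simpa using h2 i
    · intro i y
      refine Fin.lastCases ?_ (fun i => ?_) i
      · intro hy
        rw [Fin.snoc_last] at hy
        rw [← Sum.inl.inj hy]; exact hx
      · intro hy
        rw [Fin.snoc_castSucc] at hy
        have := h3 i y hy
        omega
  · -- the right side
    rcases x with x | y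
    · exfalso
      apply hx
      have := x.1.2
      simp only [gcol_inl]; omega
    · simp only [gcol_inr] at hx
      obtain ⟨y', hy'⟩ := tp_ext h9 y
      have hcol : rcol' N β ((Fin.snoc b y : Fin (m + 1) → Fin w × Fin h) (Fin.last m)) =
          rcol' N β' ((Fin.snoc b' y' : Fin (m + 1) → Fin w × Fin h) (Fin.last m)) :=
        congrFun (congrArg Prod.fst (tp_atp hy')) (Fin.last m)
      rw [Fin.snoc_last, Fin.snoc_last] at hcol
      have hcol2 : min (y.1 : ℕ) N = min (y'.1 : ℕ) N := congrArg Fin.val (congrArg Prod.snd hcol)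
      have h10 : min sB (a + y.1) ≤ a + y'.1 := by omega
      refine ⟨.inr y', m + 1, Fin.snoc b y, Fin.snoc b' y',
        Fin.snoc (fun i => up1 (loc i)) (.inr (Fin.last m)), sA, min sB (a + y.1),
        ?_, ?_, ?_, h4, by omega, by omega, ?_, ?_, hy'⟩
      · intro i
        refine Fin.lastCases ?_ (fun i => ?_) i
        · simp [place]
        · rw [Fin.snoc_castSucc, Fin.snoc_castSucc, place_up1]
          exact h1 i
      · intro i
        refine Fin.lastCases ?_ (fun i => ?_) i
        · simp [place]
        · rw [Fin.snoc_castSucc, Fin.snoc_castSucc, place_up1]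
          exact h2 i
      · intro i z
        refine Fin.lastCases ?_ (fun i => ?_) i
        · intro hz
          rw [Fin.snoc_last] at hz
          cases hz
        · intro hz
          rw [Fin.snoc_castSucc] at hz
          refine h3 i z ?_
          cases hl : loc i with
          | inl t =>
            rw [hl] at hz
            have hz' : (Sum.inl t : SCell a w h ⊕ Fin (m + 1)) = .inl z := hz
            rw [Sum.inl.inj hz']
          | inr t => rw [hl] at hz; cases hz
      · intro i
        refine Fin.lastCases ?_ (fun i => ?_) i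
        · rw [Fin.snoc_last]; exact min_le_right _ _
        · rw [Fin.snoc_castSucc]; exact (min_le_left _ _).trans (h7 i)
      · intro i
        refine Fin.lastCases ?_ (fun i => ?_) i
        · rw [Fin.snoc_last]; exact h10
        · rw [Fin.snoc_castSucc]; exact (min_le_left _ _).trans (h8 i)

/-- first-order formulas do not distinguish two right parts related by the invariant -/
theorem inv_sat [Nonempty (SCell a w h)] {bin : B → SCell a w h → SCell a w h → Prop}
    (hb : FarC bin) {N : ℕ} (lam : Fin a × Fin h → Γ) {β β' : Fin w × Fin h → Γ}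
    (hnear : ∀ x : Fin w × Fin h, x.1.1 < N → β x = β' x) (up : U → Γ → Prop) {n k : ℕ}
    (φ : Fm U B n k) (hφ : φ.IsFO) (sp : Fin k → Γ → Prop) :
    ∀ (q : ℕ), φ.qr ≤ q → ∀ v v' : Fin n → SCell a w h, Inv bin N β β' q v v' →
    (φ.Sat (colStr bin up (Sum.elim lam β)) v (colSets sp (Sum.elim lam β)) ↔
      φ.Sat (colStr bin up (Sum.elim lam β')) v' (colSets sp (Sum.elim lam β'))) := by
  -- colours of corresponding elements
  have hcol : ∀ {n q : ℕ} {v v' : Fin n → SCell a w h}, Inv bin N β β' q v v' → ∀ i,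
      Sum.elim lam β (v i) = Sum.elim lam β' (v' i) := by
    rintro n q v v' ⟨m, b, b', loc, sA, sB, h1, h2, h3, h4, h5, h6, h7, h8, h9⟩ i
    have hpos : 0 < 2 ^ q := by positivity
    rw [h1 i, h2 i]
    cases hl : loc i with
    | inl x =>
      have h10 := h3 i x hl
      rcases x with x | x
      · rfl
      · show β x = β' x
        simp only [gcol_inr] at h10
        exact hnear x (by omega)
    | inr j =>
      have hc := congrFun (congrArg Prod.fst (tp_atp h9)) j
      exact congrArg Prod.fst hc
  induction φ with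
  | eq i j =>
    rintro q hq v v' ⟨m, b, b', loc, sA, sB, h1, h2, h3, h4, h5, h6, h7, h8, h9⟩
    have hpos : 0 < 2 ^ q := by positivity
    show v i = v j ↔ v' i = v' j
    rw [h1 i, h2 i, h1 j, h2 j]
    cases hi : loc i with
    | inl x =>
      have hx := h3 i x hi
      cases hj : loc j with
      | inl y => exact Iff.rfl
      | inr t =>
        have e1 := h7 t
        have e2 := h8 t
        refine iff_of_false (fun e => ?_) (fun e => ?_)
        · have := congrArg gcol e
          simp only [place, gcol_inr] at this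
          omega
        · have := congrArg gcol e
          simp only [place, gcol_inr] at this
          omega
    | inr s =>
      cases hj : loc j with
      | inl y =>
        have hy := h3 j y hj
        have e1 := h7 s
        have e2 := h8 s
        refine iff_of_false (fun e => ?_) (fun e => ?_)
        · have := congrArg gcol e
          simp only [place, gcol_inr] at this
          omega
        · have := congrArg gcol e
          simp only [place, gcol_inr] at this
          omega
      | inr t =>
        have hc := congrFun (congrFun (congrArg (fun p => p.2.1) (tp_atp h9)) s) t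
        have hc' : (b s = b t) = (b' s = b' t) := hc
        show (Sum.inr (b s) : SCell a w h) = Sum.inr (b t) ↔
          (Sum.inr (b' s) : SCell a w h) = Sum.inr (b' t)
        rw [Sum.inr.injEq, Sum.inr.injEq, hc']
  | un p i =>
    intro q hq v v' hI
    show up p _ ↔ up p _
    rw [hcol hI i]
  | bin r i j =>
    rintro q hq v v' ⟨m, b, b', loc, sA, sB, h1, h2, h3, h4, h5, h6, h7, h8, h9⟩
    have hpos : 0 < 2 ^ q := by positivity
    obtain ⟨p1, p2, hp⟩ := hb r
    show bin r (v i) (v j) ↔ bin r (v' i) (v' j)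
    rw [h1 i, h2 i, h1 j, h2 j]
    cases hi : loc i with
    | inl x =>
      have hx := h3 i x hi
      cases hj : loc j with
      | inl y => exact Iff.rfl
      | inr t =>
        have e1 := h7 t
        have e2 := h8 t
        show bin r x (.inr (b t)) ↔ bin r x (.inr (b' t))
        rw [(hp x (.inr (b t)) (by simp only [gcol_inr]; omega)).1,
          (hp x (.inr (b' t)) (by simp only [gcol_inr]; omega)).1]
    | inr s =>
      cases hj : loc j with
      | inl y =>
        have hy := h3 j y hj
        have e1 := h7 s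
        have e2 := h8 s
        show bin r (.inr (b s)) y ↔ bin r (.inr (b' s)) y
        rw [(hp y (.inr (b s)) (by simp only [gcol_inr]; omega)).2,
          (hp y (.inr (b' s)) (by simp only [gcol_inr]; omega)).2]
      | inr t =>
        have hc := congrFun (congrFun (congrFun (congrArg (fun p => p.2.2) (tp_atp h9)) r) s) t
        have hc' : rbin bin r (b s) (b t) = rbin bin r (b' s) (b' t) := hc
        show rbin bin r (b s) (b t) ↔ rbin bin r (b' s) (b' t)
        rw [hc']
  | mem i X =>
    intro q hq v v' hI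
    show sp X _ ↔ sp X _
    rw [hcol hI i]
  | neg φ ih =>
    intro q hq v v' hI
    exact not_congr (ih hφ sp q hq v v' hI)
  | and φ ψ ih1 ih2 =>
    intro q hq v v' hI
    have hq' : max φ.qr ψ.qr ≤ q := hq
    exact and_congr (ih1 hφ.1 sp q (by omega) v v' hI) (ih2 hφ.2 sp q (by omega) v v' hI)
  | exElt φ ih =>
    intro q hq v v' hI
    have hq' : φ.qr + 1 ≤ q := hq
    obtain ⟨q, rfl⟩ : ∃ q0, q = q0 + 1 := ⟨q - 1, by omega⟩
    constructor
    · rintro ⟨x, hx⟩
      obtain ⟨x', hI'⟩ := hI.extend x
      exact ⟨x', (ih hφ sp q (by omega) _ _ hI').1 hx⟩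
    · rintro ⟨x', hx'⟩
      obtain ⟨x, hI'⟩ := hI.symm.extend x'
      exact ⟨x, (ih hφ sp q (by omega) _ _ hI'.symm).2 hx'⟩
  | exSet φ ih => exact absurd hφ (by simp [Fm.IsFO])

/-- the black colour -/
def blk0 (U : Type) (k : ℕ) : SCol U k := (fun _ => False, fun _ => False)

/-- the class of a right half. -/
abbrev SKap (U B : Type) (k h q : ℕ) : Type :=
  (Fin h × Fin (2 ^ q) → SCol U k) × TT B (SCol U k × Fin (2 ^ q + 1)) q 0

/-- the class of a right half -/
noncomputable def skap {k : ℕ} (bin : B → SCell a w h → SCell a w h → Prop) (q : ℕ)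
    (β : Fin w × Fin h → SCol U k) : SKap U B k h q :=
  (fun x => if hc : x.2.1 < w then β (⟨x.2.1, hc⟩, x.1) else blk0 U k,
   tp (rbin bin) (rcol' (2 ^ q) β) q Fin.elim0)

/-- the number of classes is exponential in `h` only -/
lemma card_SKap (U B : Type) [Finite U] [Finite B] (k h q : ℕ) :
    Nat.card (SKap U B k h q) = (Nat.card (SCol U k) ^ (2 ^ q)) ^ h *
      Nat.card (TT B (SCol U k × Fin (2 ^ q + 1)) q 0) := by
  have h1 : Nat.card (Fin h × Fin (2 ^ q) → SCol U k) =
      (Nat.card (SCol U k) ^ (2 ^ q)) ^ h := by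
    rw [Nat.card_fun, Nat.card_prod (Fin h), Nat.card_fin, Nat.card_fin, ← pow_mul,
      Nat.mul_comm h]
  rw [← h1]
  exact Nat.card_prod _ _

/-- the strip structure of left and right unary labels -/
def sstr (ne : Nonempty (SCell a w h)) (bin : B → SCell a w h → SCell a w h → Prop)
    (lam : Fin a × Fin h → (U → Prop)) (rho : Fin w × Fin h → (U → Prop)) : Str U B where
  A := SCell a w h
  fin := inferInstance
  ne := ne
  un := fun p => {x | Sum.elim lam rho x p}
  bin := bin

/-- acceptance by a formula, for full colourings of the two parts -/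
def SAcc {k : ℕ} (φ : Fm U B 0 k) (ne : Nonempty (SCell a w h))
    (bin : B → SCell a w h → SCell a w h → Prop)
    (lam : Fin a × Fin h → SCol U k) (β : Fin w × Fin h → SCol U k) : Prop :=
  φ.Holds (sstr ne bin (fun x => (lam x).1) (fun x => (β x).1))
    (fun i => {x : SCell a w h | (Sum.elim lam β x).2 i})

lemma sacc_iff {k : ℕ} (φ : Fm U B 0 k) (ne : Nonempty (SCell a w h))
    (bin : B → SCell a w h → SCell a w h → Prop)
    (lam : Fin a × Fin h → SCol U k) (β : Fin w × Fin h → SCol U k) :
    SAcc φ ne bin lam β ↔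
      φ.Holds (colStr bin (fun p γ => γ.1 p) (Sum.elim lam β))
        (colSets (fun i γ => γ.2 i) (Sum.elim lam β)) := by
  refine holds_congr ?_ rfl
  funext p
  ext x
  rcases x with x | x <;> rfl

theorem sacc_fo {k : ℕ} (φ : Fm U B 0 k) (hφ : φ.IsFO) (ne : Nonempty (SCell a w h))
    {bin : B → SCell a w h → SCell a w h → Prop} (hb : FarC bin)
    {β β' : Fin w × Fin h → SCol U k} (hk : skap bin φ.qr β = skap bin φ.qr β')
    (lam : Fin a × Fin h → SCol U k) : SAcc φ ne bin lam β ↔ SAcc φ ne bin lam β' := by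
  rw [sacc_iff, sacc_iff]
  have hk1 := congrArg Prod.fst hk
  have hk2 : tp (rbin bin) (rcol' (2 ^ φ.qr) β) φ.qr Fin.elim0 =
      tp (rbin bin) (rcol' (2 ^ φ.qr) β') φ.qr Fin.elim0 := congrArg Prod.snd hk
  refine inv_sat hb lam (N := 2 ^ φ.qr) ?_ _ φ hφ _ φ.qr le_rfl Fin.elim0 Fin.elim0 ?_
  · intro x hx
    have := congrFun hk1 (x.2, ⟨x.1.1, hx⟩)
    simpa [skap] using this
  · exact ⟨0, Fin.elim0, Fin.elim0, Fin.elim0, a, a + 2 ^ φ.qr, fun i => i.elim0,
      fun i => i.elim0, fun i => i.elim0, le_rfl, le_rfl, le_rfl, fun i => i.elim0,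
      fun i => i.elim0, hk2⟩

end Pool.Agent.Lib_helper60.MonPH
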