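import Pool.Agent.Lib_helper60.MonPH.Few
import Pool.Agent.Lib_helper60.MonPH.Nest

/-!
# Properties that are not in the Boolean closure of monadic PP over level `j`
-/

namespace Pool.Agent.Lib_helper60.MonPH

open Pool.Agent.Lib_helper60.MonPP

/-- exponent of the number of items -/
def ex2 (h : ℕ) : ℕ → ℕ
  | 0 => h * h
  | i + 1 => 2 ^ ex2 h i

lemma NI_eq (h : ℕ) : ∀ j, NI h j = 2 ^ ex2 h j
  | 0 => rfl
  | j + 1 => by show 2 ^ NI h j = 2 ^ 2 ^ ex2 h j; rw [NI_eq h j]

lemma arith0 (a b : ℕ) : (((a + b + 4) * (a + b + 4) + 1) * (a ^ (a + b + 4) * b) + 1 <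
    2 ^ ((a + b + 4) * (a + b + 4))) := by
  set h := a + b + 4 with hh
  have h1 : h < 2 ^ h := Nat.lt_two_pow_self
  have h2 : h * h + 1 ≤ 2 ^ (2 * h + 1) := by
    have : h * h < 2 ^ h * 2 ^ h := Nat.mul_lt_mul'' h1 h1
    rw [← pow_add, ← two_mul] at this
    rw [pow_succ]; omega
  have h3 : a ^ h ≤ 2 ^ (a * h) := by
    rw [pow_mul]
    exact Nat.pow_le_pow_left (Nat.lt_two_pow_self).le h
  have h4 : b ≤ 2 ^ b := (Nat.lt_two_pow_self).le
  have h5 : (h * h + 1) * (a ^ h * b) ≤ 2 ^ (2 * h + 1 + (a * h + b)) := by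
    rw [pow_add 2 (2 * h + 1) (a * h + b), pow_add 2 (a * h) b]
    exact Nat.mul_le_mul h2 (Nat.mul_le_mul h3 h4)
  have h8 : 2 * h + 1 + (a * h + b) + 1 < h * h := by
    have : h * h = a * h + b * h + 4 * h := by rw [hh]; ring
    have h9 : b * 1 ≤ b * h := Nat.mul_le_mul le_rfl (by omega)
    omega
  calc (h * h + 1) * (a ^ h * b) + 1 ≤ 2 ^ (2 * h + 1 + (a * h + b)) + 1 := by omega
    _ ≤ 2 ^ (2 * h + 1 + (a * h + b) + 1) := by
      rw [pow_succ _ (2 * h + 1 + (a * h + b))]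
      have : 0 < 2 ^ (2 * h + 1 + (a * h + b)) := by positivity
      omega
    _ < 2 ^ (h * h) := Nat.pow_lt_pow_right (by norm_num) h8

lemma arithj (n0 : ℕ) : ∀ (j : ℕ) (f : ℕ → ℕ), Gr j f →
    ∃ h : ℕ, n0 < h ∧ (ex2 h j + 1) * f h + 1 < 2 ^ ex2 h j := by
  intro j
  induction j with
  | zero =>
    rintro f ⟨a, b, hab⟩
    refine ⟨a + n0 + b + 4, by omega, lt_of_le_of_lt ?_ (arith0 (a + n0) b)⟩
    refine Nat.add_le_add_right (Nat.mul_le_mul le_rfl ((hab _).trans ?_)) 1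
    exact Nat.mul_le_mul (Nat.pow_le_pow_left (by omega) _) le_rfl
  | succ j ih =>
    rintro f ⟨g, hg, hfg⟩
    obtain ⟨h, hh, h1⟩ := ih _ (hg.add (Gr.const j 2))
    refine ⟨h, hh, ?_⟩
    show (2 ^ ex2 h j + 1) * f h + 1 < 2 ^ 2 ^ ex2 h j
    set n := ex2 h j with hn
    have e1 : n + g h + 2 < 2 ^ n := by
      refine lt_of_le_of_lt ?_ h1
      have : (n + 1) * (g h + 2) = n * g h + 2 * n + g h + 2 := by ring
      omega
    have e2 : 2 ^ n + 1 ≤ 2 ^ (n + 1) := by
      rw [pow_succ]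
      have : 0 < 2 ^ n := by positivity
      omega
    have e3 : (2 ^ n + 1) * f h ≤ 2 ^ (n + 1 + g h) := by
      rw [pow_add 2 (n + 1) (g h)]
      exact Nat.mul_le_mul e2 (hfg h)
    calc (2 ^ n + 1) * f h + 1 ≤ 2 ^ (n + 1 + g h) + 1 := by omega
      _ ≤ 2 ^ (n + 1 + g h + 1) := by
        rw [pow_succ _ (n + 1 + g h)]
        have : 0 < 2 ^ (n + 1 + g h) := by positivity
        omega
      _ < 2 ^ 2 ^ n := Nat.pow_lt_pow_right (by norm_num) (by omega)

lemma arithN (j n0 : ℕ) (f : ℕ → ℕ) (hf : Gr j f) :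
    ∃ h : ℕ, n0 < h ∧ (NI h j + 1) ^ f h + 1 < 2 ^ NI h j := by
  obtain ⟨h, hh, h1⟩ := arithj n0 j f hf
  refine ⟨h, hh, ?_⟩
  rw [NI_eq]
  set n := ex2 h j with hn
  have h6 : (2 ^ n + 1) ^ f h ≤ 2 ^ ((n + 1) * f h) := by
    rw [pow_mul 2 (n + 1) (f h)]
    refine Nat.pow_le_pow_left ?_ _
    rw [pow_succ]
    have : 0 < 2 ^ n := by positivity
    omega
  calc (2 ^ n + 1) ^ f h + 1 ≤ 2 ^ ((n + 1) * f h) + 1 := by omega
    _ ≤ 2 ^ ((n + 1) * f h + 1) := by
      rw [pow_succ 2 ((n + 1) * f h)]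
      have : 0 < 2 ^ ((n + 1) * f h) := by positivity
      omega
    _ < 2 ^ 2 ^ n := Nat.pow_lt_pow_right (by norm_num) h1

/-- on the nested strips the property says that the right block equals one of the left blocks -/
def SaysEq {B : Type} (j : ℕ) (K : Prty (Fin 5) B)
    (bin : ∀ a w h : ℕ, B → SCell a w h → SCell a w h → Prop) : Prop :=
  ∀ (h : ℕ), j < h → ∀ (ne : Nonempty (SCell (NI h j * wd h j) (wd h j) h))
    (u : Fin (NI h j) → It h j) (v : It h j),
    K (sstr ne (bin _ _ _) (labL h j (NI h j) u) (labR h j (NI h j) v)) ↔ ∃ b, u b = v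

lemma spat_surj {B : Type} {h j : ℕ} (hj : j < h) (K : Prty (Fin 5) B)
    (bin : ∀ a w h : ℕ, B → SCell a w h → SCell a w h → Prop) (hK : SaysEq j K bin)
    (ne : Nonempty (SCell (NI h j * wd h j) (wd h j) h)) (S : Set (It h j)) (hS : S.Nonempty) :
    S ∈ Set.range (spat K ne (bin _ _ _) (labR h j (NI h j))) := by
  classical
  obtain ⟨s0, hs0⟩ := hS
  let u : Fin (NI h j) → It h j := fun b => if enu h j b ∈ S then enu h j b else s0
  refine ⟨labL h j (NI h j) u, ?_⟩
  ext v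
  have h1 : v ∈ spat K ne (bin _ _ _) (labR h j (NI h j)) (labL h j (NI h j) u) ↔
      ∃ b : Fin (NI h j), u b = v := hK h hj ne u v
  rw [h1]
  constructor
  · rintro ⟨b, hb⟩
    rw [← hb]
    simp only [u]
    split_ifs with hj'
    · exact hj'
    · exact hs0
  · intro hv
    refine ⟨(enu h j).symm v, ?_⟩
    simp [u, hv]

/-- A property that says on the nested strips that the right block equals one of the left blocks
is not in the Boolean closure of monadic PP over level `j`. -/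
theorem not_boolCl_of {B : Type} [Finite B] (j : ℕ) (K : Prty (Fin 5) B)
    (bin : ∀ a w h : ℕ, B → SCell a w h → SCell a w h → Prop)
    (hfar : ∀ a w h, FarC (bin a w h)) (hK : SaysEq j K bin) :
    ¬ BoolCl (MonPPAlt j) K := by
  classical
  intro hB
  obtain ⟨f, hf, H⟩ := spat_bool K hB
  obtain ⟨h, hj, hlt⟩ := arithN j j f hf
  have hh : 0 < h := by omega
  have hw := wd_pos hh j
  have ne : Nonempty (SCell (NI h j * wd h j) (wd h j) h) := ⟨.inr (⟨0, hw⟩, ⟨0, hh⟩)⟩
  have h1 := H _ _ _ ne (bin _ _ _) (hfar _ _ _) (It h j) (instFinIt h j) (labR h j (NI h j))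
  have hfin := instFinIt h j
  have h2 : Nat.card (Set (It h j)) ≤ Nat.card (Option (Set.range
      (spat K ne (bin _ _ _) (labR h j (NI h j))))) := by
    refine Nat.card_le_card_of_injective
      (fun S => if hS : S.Nonempty then some ⟨S, spat_surj hj K bin hK ne S hS⟩ else none) ?_
    intro S S' hSS
    by_cases h1 : S.Nonempty <;> by_cases h2 : S'.Nonempty
    · simp only [h1, h2, dif_pos, Option.some.injEq, Subtype.mk.injEq] at hSS
      exact hSS
    · simp [h1, h2] at hSS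
    · simp [h1, h2] at hSS
    · rw [Set.not_nonempty_iff_eq_empty] at h1 h2
      rw [h1, h2]
  have h3 : Nat.card (Set (It h j)) = 2 ^ NI h j := by
    have : Nat.card (Set (It h j)) = 2 ^ Nat.card (It h j) := by
      have := Fintype.ofFinite (It h j)
      rw [Nat.card_eq_fintype_card, Fintype.card_set, Nat.card_eq_fintype_card]
    rw [this, card_It]
  rw [h3, Finite.card_option] at h2
  rw [card_It] at h1
  omega

/-- The same with a built-in linear order. -/
theorem not_withOrder_of (j : ℕ) (K : Prty (Fin 5) (Fin 2))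
    (hK : SaysEq j K (fun a w h => sbin a w h)) :
    ¬ WithOrder (BoolCl (MonPPAlt j)) K := by
  rintro ⟨K', hB, hK'⟩
  refine not_boolCl_of j K' (fun a w h => sbinO a w h) (fun a w h => sbinO_far) ?_ hB
  intro h hj ne u v
  have h1 := hK' (sstr ne (sbin _ _ _) (labL h j (NI h j) u) (labR h j (NI h j) v))
    (slt _ _ _) slt_order
  rw [← hK h hj ne u v, h1]
  exact Iff.rfl

end Pool.Agent.Lib_helper60.MonPH
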