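import Pool.Agent.Lib_helper60.MonPP.Incl
import Pool.Agent.Lib_helper60.MonPP.Halfspace

/-!
# Rank types of tuples
-/

namespace Pool.Agent.Lib_helper60.MonPH

open Pool.Agent.Lib_helper60.MonPP

/-- atomic types of `m`-tuples -/
abbrev At (B Γ : Type) (m : ℕ) : Type :=
  (Fin m → Γ) × (Fin m → Fin m → Prop) × (B → Fin m → Fin m → Prop)

/-- rank-`q` types of `m`-tuples -/
def TT (B Γ : Type) : ℕ → ℕ → Type
  | 0, m => At B Γ m
  | q + 1, m => At B Γ m × Set (TT B Γ q (m + 1))

instance instFinTT (B Γ : Type) [Finite B] [Finite Γ] : (q m : ℕ) → Finite (TT B Γ q m)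
  | 0, m => inferInstanceAs (Finite (At B Γ m))
  | q + 1, m =>
    have := instFinTT B Γ q (m + 1)
    inferInstanceAs (Finite (At B Γ m × Set (TT B Γ q (m + 1))))

variable {A B Γ : Type} {bin : B → A → A → Prop} {α α' : A → Γ}

/-- the atomic type -/
def atp (bin : B → A → A → Prop) (α : A → Γ) {m : ℕ} (b : Fin m → A) : At B Γ m :=
  (fun i => α (b i), fun i j => b i = b j, fun r i j => bin r (b i) (b j))

/-- the rank-`q` type -/
def tp (bin : B → A → A → Prop) (α : A → Γ) : (q : ℕ) → {m : ℕ} → (Fin m → A) → TT B Γ q m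
  | 0, _, b => atp bin α b
  | q + 1, m, b =>
    (atp bin α b, Set.range (fun x : A => tp bin α q (Fin.snoc b x : Fin (m + 1) → A)))

lemma tp_atp {q m : ℕ} {b b' : Fin m → A} (h : tp bin α q b = tp bin α' q b') :
    atp bin α b = atp bin α' b' := by
  cases q with
  | zero => exact h
  | succ q => exact congrArg Prod.fst h

lemma tp_ext {q m : ℕ} {b b' : Fin m → A} (h : tp bin α (q + 1) b = tp bin α' (q + 1) b')
    (x : A) : ∃ x' : A, tp bin α q (Fin.snoc b x : Fin (m + 1) → A) =
      tp bin α' q (Fin.snoc b' x' : Fin (m + 1) → A) := by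
  have h1 : Set.range (fun x : A => tp bin α q (Fin.snoc b x : Fin (m + 1) → A)) =
    Set.range (fun x : A => tp bin α' q (Fin.snoc b' x : Fin (m + 1) → A)) := congrArg Prod.snd h
  have h2 : tp bin α q (Fin.snoc b x : Fin (m + 1) → A) ∈
      Set.range (fun x : A => tp bin α' q (Fin.snoc b' x : Fin (m + 1) → A)) := by
    rw [← h1]; exact ⟨x, rfl⟩
  obtain ⟨x', hx'⟩ := h2
  exact ⟨x', hx'.symm⟩

lemma tp_down : ∀ (q : ℕ) {m : ℕ} {b b' : Fin m → A},
    tp bin α (q + 1) b = tp bin α' (q + 1) b' → tp bin α q b = tp bin α' q b' := by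
  intro q
  induction q with
  | zero => intro m b b' h; exact tp_atp h
  | succ q ih =>
    intro m b b' h
    have h1 := tp_atp h
    have h2 : Set.range (fun x : A => tp bin α q (Fin.snoc b x : Fin (m + 1) → A)) =
        Set.range (fun x : A => tp bin α' q (Fin.snoc b' x : Fin (m + 1) → A)) := by
      ext τ
      constructor
      · rintro ⟨x, rfl⟩
        obtain ⟨x', hx'⟩ := tp_ext h x
        exact ⟨x', (ih hx').symm⟩
      · rintro ⟨x, rfl⟩
        obtain ⟨x', hx'⟩ := tp_ext h.symm x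
        exact ⟨x', ih hx'.symm⟩
    exact Prod.ext h1 h2

end Pool.Agent.Lib_helper60.MonPH
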